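import Pool.Agent.H982R3.HalfP

/-!
`c_n ≤ μ^n exp (K n^ε)` and `b_n ≥ μ^n exp (- K n^ε)`.
-/

set_option linter.unusedSectionVars false

namespace H982

variable [L : Lat]

open scoped ENNReal
open PowerSeries

lemma bn_le_cc (n : ℕ) : bn n ≤ cc n := by
  rw [bn_eq]
  unfold cc
  apply ENNReal.tsum_le_tsum
  intro u
  apply ind_mono
  rintro ⟨⟨a, h⟩, h2⟩
  exact ⟨h.saw, h2⟩

lemma bn_ne_top (n : ℕ) : bn n ≠ ⊤ := ne_top_of_le_ne_top (cc_ne_top n) (bn_le_cc n)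

lemma bn_mul_le (m n : ℕ) : bn m * bn n ≤ bn (m + n) := by
  rw [bn_eq, bn_eq, bn_eq, tsum_mul_tsum' (fun u => ind (IsB u ∧ u.length = m))
    (fun u => ind (IsB u ∧ u.length = n))]
  have h1 : ∀ p : LL, ind (IsB p.1 ∧ p.1.length = m) * ind (IsB p.2 ∧ p.2.length = n) =
      ind ((IsB p.1 ∧ p.1.length = m) ∧ (IsB p.2 ∧ p.2.length = n)) * 1 := by
    intro p; rw [mul_one, ind_and (_ ∧ _) (_ ∧ _)]
  have h2 : ∀ u : List St, ind (IsB u ∧ u.length = m + n) =
      ind (IsB u ∧ u.length = m + n) * 1 := fun u => (mul_one _).symm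
  simp_rw [h1]
  calc _ ≤ ∑' u : List St, ind (IsB u ∧ u.length = m + n) * 1 := by
        refine tsum_inj _ _ _ _ (fun p : LL => p.1 ++ p.2) ?_ ?_ ?_
        · rintro ⟨X, Y⟩ ⟨X', Y'⟩ ⟨⟨a1, a2⟩, ⟨a3, a4⟩⟩ ⟨⟨b1, b2⟩, ⟨b3, b4⟩⟩ h
          simp only at a1 a2 a3 a4 b1 b2 b3 b4 h
          obtain ⟨e1, e2⟩ := List.append_inj h (by omega)
          rw [e1, e2]
        · rintro ⟨X, Y⟩ ⟨⟨a1, a2⟩, ⟨a3, a4⟩⟩
          simp only at a1 a2 a3 a4 ⊢
          exact ⟨a1.append a3, by simp; omega⟩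
        · intro p _
          exact le_rfl
    _ = _ := by simp

lemma one_le_bn (n : ℕ) : 1 ≤ bn n := by
  have h0 : 1 ≤ bn 1 := by
    rw [bn_eq]
    calc (1 : ℝ≥0∞) = ind (IsB [St.E] ∧ [St.E].length = 1) := by
          rw [ind_of ⟨isBr_E.isB, rfl⟩]
      _ ≤ _ := ENNReal.le_tsum (f := fun u : List St => ind (IsB u ∧ u.length = 1)) [St.E]
  induction n with
  | zero =>
    rw [bn_eq]
    calc (1 : ℝ≥0∞) = ind (IsB [] ∧ ([] : List St).length = 0) := by
          rw [ind_of ⟨isB_nil, rfl⟩]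
      _ ≤ _ := ENNReal.le_tsum (f := fun u : List St => ind (IsB u ∧ u.length = 0)) []
  | succ n ih =>
    calc (1 : ℝ≥0∞) = 1 * 1 := (one_mul 1).symm
      _ ≤ bn n * bn 1 := mul_le_mul' ih h0
      _ ≤ _ := bn_mul_le n 1

lemma bn_pow_le (n k : ℕ) : bn n ^ k ≤ bn (n * k) := by
  induction k with
  | zero => simpa using one_le_bn 0
  | succ k ih =>
    calc bn n ^ (k + 1) = bn n ^ k * bn n := pow_succ _ _
      _ ≤ bn (n * k) * bn n := by gcongr
      _ ≤ bn (n * k + n) := bn_mul_le _ _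
      _ = _ := by rw [Nat.mul_succ]

/-- number of bridges, as a real -/
noncomputable def br' (n : ℕ) : ℝ := (bn n).toReal

lemma ofReal_br' (n : ℕ) : ENNReal.ofReal (br' n) = bn n := ENNReal.ofReal_toReal (bn_ne_top n)

lemma one_le_br' (n : ℕ) : 1 ≤ br' n := by
  have := ENNReal.toReal_mono (bn_ne_top n) (one_le_bn n)
  simpa [br'] using this

lemma br'_mul_le (m n : ℕ) : br' m * br' n ≤ br' (m + n) := by
  have := ENNReal.toReal_mono (bn_ne_top (m + n)) (bn_mul_le m n)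
  simpa [br', ENNReal.toReal_mul] using this

/-- `b_n ≤ μ^n` -/
theorem br'_le (n : ℕ) : br' n ≤ mu ^ n := by
  rcases Nat.eq_zero_or_pos n with rfl | hn
  · have h1 : bn 0 ≤ 1 := (bn_le_cc 0).trans cc_zero_le
    have := ENNReal.toReal_mono ENNReal.one_ne_top h1
    simpa [br'] using this
  have key : ∀ r : ℝ, mu < r → br' n ≤ r ^ n := by
    intro r hr
    have hr0 : 0 < r := mu_pos.trans hr
    obtain ⟨m, hm⟩ := (eventually_le hr).exists_forall_of_atTop
    have h1 := hm (n * (m + 1)) (by nlinarith)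
    have h2 : br' n ^ (m + 1) ≤ (r ^ n) ^ (m + 1) := by
      have h3 := ENNReal.toReal_mono (cc_ne_top _) ((bn_pow_le n (m + 1)).trans (bn_le_cc _))
      rw [ENNReal.toReal_pow] at h3
      calc br' n ^ (m + 1) ≤ cr' (n * (m + 1)) := h3
        _ ≤ r ^ (n * (m + 1)) := h1
        _ = _ := pow_mul _ _ _
    have h4 := one_le_br' n
    exact (pow_le_pow_iff_left₀ (by linarith) (by positivity) (by omega)).mp h2
  have h1 : Filter.Tendsto (fun r : ℝ => r ^ n) (nhdsWithin mu (Set.Ioi mu)) (nhds (mu ^ n)) :=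
    (continuous_pow n).continuousWithinAt
  refine ge_of_tendsto h1 ?_
  filter_upwards [self_mem_nhdsWithin] with r hr
  exact key r hr

end H982
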