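import Pool.Agent.H982R3.Fin9
import Pool.Agent.H982R3.Final2

/-!
Comparison of words with self-avoiding walks in the plain sense, on the three lattices.
-/

set_option linter.unusedSectionVars false

namespace H982

open Filter Topology
open scoped ENNReal

variable [L : Lat]

omit L in
theorem tsum_ind_eq_card {α : Type*} (P : α → Prop) (h : ∑' a, ind (P a) ≠ ⊤) :
    (∑' a, ind (P a)).toReal = Nat.card {a // P a} := by
  classical
  have h1 : ∑' a, ind (P a) = ∑' a : ({a | P a} : Set α), (1 : ENNReal) := by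
    rw [tsum_subtype {a | P a} (fun _ => (1 : ENNReal))]
    refine tsum_congr fun a => ?_
    by_cases ha : P a <;> simp [ind, ha]
  rw [h1] at h ⊢
  rw [ENNReal.tsum_set_one] at h ⊢
  have hfin : ({a | P a} : Set α).Finite := by
    rw [← Set.encard_ne_top_iff]
    intro h2; rw [h2] at h; simp at h
  have : (({a | P a} : Set α).encard : ENat) = (Nat.card {a // P a} : ℕ) := by
    rw [hfin.encard_eq_coe_toFinset_card]
    congr 1
    rw [← Set.ncard_eq_toFinset_card _ hfin]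
    exact (Nat.card_coe_set_eq {a | P a}).symm
  rw [this]
  simp

theorem cr'_card (n : ℕ) : cr' n = Nat.card {w : List St // Saw w ∧ w.length = n} := by
  unfold cr' cc
  exact tsum_ind_eq_card _ (cc_ne_top n)

/-- a word with an injective path is self-avoiding -/
lemma saw_of_inj {w : List St} (hok : Ok w)
    (h : ∀ i k : ℕ, i ≤ w.length → k ≤ w.length → pf 1 w i = pf 1 w k → i = k) : Saw w := by
  refine saw_of_pf (o := 1) hok ⟨pf_zero 1 w, ?_, h, ?_, al_pf (Or.inl rfl) hok⟩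
  · intro i hi
    obtain ⟨h1, h2⟩ := pf_succ 1 hi
    exact adj_letter (osg (Or.inl rfl) i) (hok _ (List.getElem_mem hi)) h1 h2
  · intro i hi
    rw [pf_ge 1 hi, pf_ge 1 le_rfl]

/-- Coordinates in which the steps of a graph on `ℤ × ℤ` are the letters. `R i p` says that `p` may
be reached after `i` steps. -/
structure Coord (Adj : ℤ × ℤ → ℤ × ℤ → Prop) (φ : ℤ × ℤ → ℤ × ℤ)
    (R : ℕ → ℤ × ℤ → Prop) : Prop where
  inj : Function.Injective φ
  zero : φ 0 = 0
  R0 : R 0 0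
  Rs : ∀ i p q, R i p → Adj p q → R (i + 1) q
  step : ∀ i p q, R i p → Adj p q → ∃ s : St, s.ok ∧ (φ q).1 = (φ p).1 + s.x ∧
    (φ q).2 = (φ p).2 + sgm ^ i * s.y
  back : ∀ i p (s : St), R i p → s.ok → ∃ q, Adj p q ∧ (φ q).1 = (φ p).1 + s.x ∧
    (φ q).2 = (φ p).2 + sgm ^ i * s.y

variable {Adj : ℤ × ℤ → ℤ × ℤ → Prop} {φ : ℤ × ℤ → ℤ × ℤ} {R : ℕ → ℤ × ℤ → Prop}

/-- the walk of a word -/
noncomputable def gw (φ : ℤ × ℤ → ℤ × ℤ) (w : List St) (i : ℕ) : ℤ × ℤ :=
  Function.invFun φ (pf 1 w i)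

lemma gw_eq (H : Coord Adj φ R) {w : List St} {i : ℕ} {q : ℤ × ℤ} (h : φ q = pf 1 w i) :
    gw φ w i = q := by
  unfold gw
  rw [← h]
  exact Function.leftInverse_invFun H.inj q

lemma gw_spec (H : Coord Adj φ R) {w : List St} (hok : Ok w) (i : ℕ) (hi : i ≤ w.length) :
    φ (gw φ w i) = pf 1 w i ∧ R i (gw φ w i) := by
  induction i with
  | zero =>
    have h1 : gw φ w 0 = 0 := gw_eq H (by rw [H.zero, pf_zero]; rfl)
    rw [h1, H.zero, pf_zero]
    exact ⟨rfl, H.R0⟩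
  | succ i ih =>
    obtain ⟨h1, h2⟩ := ih (by omega)
    have hi' : i < w.length := by omega
    obtain ⟨q, hq1, hq2, hq3⟩ := H.back i (gw φ w i) (w[i]) h2 (hok _ (List.getElem_mem hi'))
    obtain ⟨h3, h4⟩ := pf_succ 1 hi'
    have h5 : φ q = pf 1 w (i + 1) := by
      rw [h1] at hq2 hq3
      apply Prod.ext
      · rw [hq2, h3]
      · rw [hq3, h4, one_mul]
    rw [gw_eq H h5]
    exact ⟨h5, H.Rs _ _ _ h2 hq1⟩

lemma gw_adj (H : Coord Adj φ R) {w : List St} (hok : Ok w) (i : ℕ) (hi : i < w.length) :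
    Adj (gw φ w i) (gw φ w (i + 1)) := by
  obtain ⟨h1, h2⟩ := gw_spec H hok i hi.le
  obtain ⟨q, hq1, hq2, hq3⟩ := H.back i (gw φ w i) (w[i]) h2 (hok _ (List.getElem_mem hi))
  obtain ⟨h3, h4⟩ := pf_succ 1 hi
  have h5 : φ q = pf 1 w (i + 1) := by
    rw [h1] at hq2 hq3
    apply Prod.ext
    · rw [hq2, h3]
    · rw [hq3, h4, one_mul]
  rw [gw_eq H h5]
  exact hq1

/-- the set of self-avoiding walks with `n` steps from the origin -/
def walks (Adj : ℤ × ℤ → ℤ × ℤ → Prop) (n : ℕ) : Set (Fin (n + 1) → ℤ × ℤ) :=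
  {f | f 0 = 0 ∧ Function.Injective f ∧ ∀ i : Fin n, Adj (f i.castSucc) (f i.succ)}

lemma exists_gw (H : Coord Adj φ R) {n : ℕ} {f : Fin (n + 1) → ℤ × ℤ} (hf : f ∈ walks Adj n) :
    ∃ w : List St, (Saw w ∧ w.length = n) ∧ ∀ i : Fin (n + 1), gw φ w i = f i := by
  obtain ⟨h0, hinj, hadj⟩ := hf
  have hR : ∀ i : ℕ, (hi : i < n + 1) → R i (f ⟨i, hi⟩) := by
    intro i
    induction i with
    | zero => intro _; rw [show (⟨0, _⟩ : Fin (n + 1)) = 0 from rfl, h0]; exact H.R0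
    | succ i ih =>
      intro hi
      exact H.Rs _ _ _ (ih (by omega)) (hadj ⟨i, by omega⟩)
  choose s hs1 hs2 hs3 using fun i : Fin n =>
    H.step i (f i.castSucc) (f i.succ) (hR i (by omega)) (hadj i)
  have hlen : (List.ofFn s).length = n := by simp
  have hok : Ok (List.ofFn s) := by
    intro t ht
    rw [List.mem_ofFn] at ht
    obtain ⟨i, rfl⟩ := ht
    exact hs1 i
  have key : ∀ i : Fin (n + 1), φ (f i) = pf 1 (List.ofFn s) i := by
    intro i
    induction i using Fin.induction with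
    | zero => rw [h0, H.zero]; exact (pf_zero 1 _).symm
    | succ i ih =>
      have hi : (i : ℕ) < (List.ofFn s).length := by simp
      have h2 := pf_succ 1 hi
      have h3 : (List.ofFn s)[(i : ℕ)] = s i := by simp
      rw [h3] at h2
      simp only [Fin.val_castSucc] at ih
      rw [← ih] at h2
      rw [Fin.val_succ]
      apply Prod.ext
      · rw [h2.1, hs2]
      · rw [h2.2, hs3, one_mul]
  refine ⟨List.ofFn s, ⟨saw_of_inj hok ?_, hlen⟩, fun i => gw_eq H (key i)⟩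
  intro i k hi hk hik
  rw [hlen] at hi hk
  have h1 := key ⟨i, by omega⟩
  have h2 := key ⟨k, by omega⟩
  simp only at h1 h2
  rw [← h1, ← h2] at hik
  have h3 := hinj (H.inj hik)
  simpa using h3

theorem ncard_walks (H : Coord Adj φ R) (n : ℕ) :
    ((walks Adj n).ncard : ℝ) = cr' n := by
  rw [cr'_card]
  congr 1
  rw [← Nat.card_coe_set_eq]
  symm
  apply Nat.card_eq_of_bijective
    (f := fun w : {w : List St // Saw w ∧ w.length = n} =>
      (⟨fun i : Fin (n + 1) => gw φ w.1 i, by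
        obtain ⟨w, hw, hl⟩ := w
        have hok := hw.2
        have hs := saw_pf (o := 1) (Or.inl rfl) hw
        refine ⟨?_, ?_, ?_⟩
        · exact gw_eq H (by rw [H.zero]; exact (pf_zero 1 w).symm)
        · intro i k hik
          simp only at hik
          have h1 := (gw_spec H hok i (by omega)).1
          have h2 := (gw_spec H hok k (by omega)).1
          apply Fin.ext
          refine hs.inj i k (by omega) (by omega) ?_
          rw [← h1, ← h2, hik]
        · intro i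
          exact gw_adj H hok i (by omega)⟩ : ↑(walks Adj n)))
  constructor
  · rintro ⟨w, hw, hl⟩ ⟨w', hw', hl'⟩ h
    apply Subtype.ext
    simp only [Subtype.mk.injEq] at h
    apply pf_inj (o := 1) (Or.inl rfl) hw.2 hw'.2 (by omega)
    have h1 : ∀ i, i ≤ n → pf 1 w i = pf 1 w' i := by
      intro i hi
      have h2 := congrFun h ⟨i, by omega⟩
      simp only at h2
      rw [← (gw_spec H hw.2 i (by omega)).1, ← (gw_spec H hw'.2 i (by omega)).1, h2]
    funext i
    rcases le_total i n with hi | hi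
    · exact h1 i hi
    · have h3 := h1 n le_rfl
      rw [pf_ge 1 (by omega), pf_ge 1 (by omega)] at h3
      rw [pf_ge 1 (by omega), pf_ge 1 (by omega), h3]
  · rintro ⟨f, hf⟩
    obtain ⟨w, hw, h⟩ := exists_gw H hf
    exact ⟨⟨w, hw⟩, Subtype.ext (funext h)⟩

theorem mu_eq_iInf (H : Coord Adj φ R) :
    (⨅ n : {n : ℕ // 1 ≤ n}, (((walks Adj n.1).ncard : ℝ) ^ ((1 : ℝ) / (n.1 : ℝ)))) = mu := by
  have hbdd : BddBelow (Set.range fun n : {n : ℕ // 1 ≤ n} =>
      (((walks Adj n.1).ncard : ℝ) ^ ((1 : ℝ) / (n.1 : ℝ)))) :=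
    ⟨0, by rintro _ ⟨n, rfl⟩; positivity⟩
  apply le_antisymm
  · refine ge_of_tendsto tendsto_root ?_
    filter_upwards [eventually_ge_atTop 1] with n hn
    rw [← ncard_walks H]
    exact ciInf_le hbdd ⟨n, hn⟩
  · have : Nonempty {n : ℕ // 1 ≤ n} := ⟨⟨1, le_rfl⟩⟩
    refine le_ciInf fun n => ?_
    rw [ncard_walks H]
    have hn : n.1 ≠ 0 := by have := n.2; omega
    have h1 := Real.rpow_le_rpow (pow_pos mu_pos _).le (mu_pow_le n.1)
      (show (0 : ℝ) ≤ 1 / (n.1 : ℝ) by positivity)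
    rwa [one_div, Real.pow_rpow_inv_natCast mu_pos.le hn, ← one_div] at h1

end H982

namespace H982P

open H982

/-- the square lattice -/
abbrev sqL : H982.Lat := ⟨.sq⟩
/-- the triangular lattice -/
abbrev triL : H982.Lat := ⟨.tri⟩
/-- the honeycomb lattice -/
abbrev hexL : H982.Lat := ⟨.hex⟩

theorem coord_sq : @Coord sqL (fun p q : ℤ × ℤ => |p.1 - q.1| + |p.2 - q.2| = 1) id
    (fun _ _ => True) := by
  let _ : H982.Lat := sqL
  have hs : (sgm : ℤ) = 1 := rfl
  have yE : St.E.y = 0 := rfl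
  have yW : St.W.y = 0 := rfl
  have yN : St.N.y = 1 := rfl
  have yS : St.S.y = -1 := rfl
  refine ⟨fun _ _ h => h, rfl, trivial, fun _ _ _ _ _ => trivial, ?_, ?_⟩
  · rintro i ⟨p1, p2⟩ ⟨q1, q2⟩ - h
    simp only at h
    simp only [id, hs, one_pow, one_mul]
    have h1 := abs_nonneg (p1 - q1)
    have h2 := abs_nonneg (p2 - q2)
    have h3 : (q1 = p1 + 1 ∧ q2 = p2) ∨ (q1 = p1 - 1 ∧ q2 = p2) ∨
        (q1 = p1 ∧ q2 = p2 + 1) ∨ (q1 = p1 ∧ q2 = p2 - 1) := by
      rcases abs_cases (p1 - q1) with h4 | h4 <;> rcases abs_cases (p2 - q2) with h5 | h5 <;> omega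
    rcases h3 with h3 | h3 | h3 | h3
    · exact ⟨.E, trivial, by rw [St.x_E]; omega, by rw [yE]; omega⟩
    · exact ⟨.W, trivial, by rw [St.x_W]; omega, by rw [yW]; omega⟩
    · exact ⟨.N, trivial, by rw [St.x_N]; omega, by rw [yN]; omega⟩
    · exact ⟨.S, trivial, by rw [St.x_S]; omega, by rw [yS]; omega⟩
  · rintro i ⟨p1, p2⟩ s - hok
    simp only [id, hs, one_pow, one_mul]
    refine ⟨(p1 + s.x, p2 + s.y), ?_, rfl, rfl⟩
    cases s
    · rw [St.x_E, yE]; simp
    · exact absurd hok (fun h => h)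
    · rw [St.x_W, yW]; simp
    · exact absurd hok (fun h => h)
    · rw [St.x_N, yN]; simp
    · rw [St.x_S, yS]; simp

theorem coord_tri : @Coord triL (fun p q : ℤ × ℤ =>
    q - p ∈ ({(1, 0), (-1, 0), (0, 1), (0, -1), (1, -1), (-1, 1)} : Set (ℤ × ℤ)))
    (fun p => (p.1 + p.2, p.1 - p.2)) (fun _ _ => True) := by
  let _ : H982.Lat := triL
  have hs : (sgm : ℤ) = 1 := rfl
  have yE : St.E.y = 1 := rfl
  have yF : St.F.y = -1 := rfl
  have yW : St.W.y = 1 := rfl
  have yX : St.X.y = -1 := rfl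
  have yN : St.N.y = 2 := rfl
  have yS : St.S.y = -2 := rfl
  refine ⟨?_, rfl, trivial, fun _ _ _ _ _ => trivial, ?_, ?_⟩
  · rintro ⟨p1, p2⟩ ⟨q1, q2⟩ h
    simp only [Prod.mk.injEq] at h ⊢
    omega
  · rintro i ⟨p1, p2⟩ ⟨q1, q2⟩ - h
    simp only [Set.mem_insert_iff, Set.mem_singleton_iff, Prod.mk_sub_mk, Prod.mk.injEq] at h
    simp only [hs, one_pow, one_mul]
    rcases h with h | h | h | h | h | h
    · exact ⟨.E, trivial, by rw [St.x_E]; omega, by rw [yE]; omega⟩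
    · exact ⟨.X, trivial, by rw [St.x_X]; omega, by rw [yX]; omega⟩
    · exact ⟨.F, trivial, by rw [St.x_F]; omega, by rw [yF]; omega⟩
    · exact ⟨.W, trivial, by rw [St.x_W]; omega, by rw [yW]; omega⟩
    · exact ⟨.N, trivial, by rw [St.x_N]; omega, by rw [yN]; omega⟩
    · exact ⟨.S, trivial, by rw [St.x_S]; omega, by rw [yS]; omega⟩
  · rintro i ⟨p1, p2⟩ s - -
    simp only [Set.mem_insert_iff, Set.mem_singleton_iff]
    simp only [hs, one_pow, one_mul]
    cases s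
    · exact ⟨(p1 + 1, p2), by simp, by rw [St.x_E]; simp only; ring, by rw [yE]; simp only; ring⟩
    · exact ⟨(p1, p2 + 1), by simp, by rw [St.x_F]; simp only; ring, by rw [yF]; simp only; ring⟩
    · exact ⟨(p1, p2 - 1), by simp, by rw [St.x_W]; simp only; ring, by rw [yW]; simp only; ring⟩
    · exact ⟨(p1 - 1, p2), by simp, by rw [St.x_X]; simp only; ring, by rw [yX]; simp only; ring⟩
    · exact ⟨(p1 + 1, p2 - 1), by simp, by rw [St.x_N]; simp only; ring,
        by rw [yN]; simp only; ring⟩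
    · exact ⟨(p1 - 1, p2 + 1), by simp, by rw [St.x_S]; simp only; ring,
        by rw [yS]; simp only; ring⟩

theorem coord_hex : @Coord hexL (fun p q : ℤ × ℤ =>
    q - p = (1, 0) ∨ q - p = (-1, 0) ∨ (q - p = (0, 1) ∧ Even (p.1 + p.2)) ∨
      (q - p = (0, -1) ∧ Even (q.1 + q.2))) id
    (fun i p => (p.1 + p.2 - i) % 2 = 0) := by
  let _ : H982.Lat := hexL
  have hs : (sgm : ℤ) = -1 := rfl
  have yE : St.E.y = 0 := rfl
  have yW : St.W.y = 0 := rfl
  have yN : St.N.y = 1 := rfl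
  have hpow : ∀ i : ℕ, ((-1 : ℤ) ^ i = 1 ∧ (i : ℤ) % 2 = 0) ∨
      ((-1 : ℤ) ^ i = -1 ∧ (i : ℤ) % 2 = 1) := by
    intro i
    rcases Nat.even_or_odd i with h | h
    · left
      refine ⟨h.neg_one_pow, ?_⟩
      obtain ⟨k, hk⟩ := h
      omega
    · right
      refine ⟨h.neg_one_pow, ?_⟩
      obtain ⟨k, hk⟩ := h
      omega
  refine ⟨fun _ _ h => h, rfl, by simp, ?_, ?_, ?_⟩
  · rintro i ⟨p1, p2⟩ ⟨q1, q2⟩ hR h
    simp only [Prod.mk_sub_mk, Prod.mk.injEq] at h hR ⊢
    push_cast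
    rcases h with h | h | ⟨h, -⟩ | ⟨h, -⟩ <;> omega
  · rintro i ⟨p1, p2⟩ ⟨q1, q2⟩ hR h
    simp only [Prod.mk_sub_mk, Prod.mk.injEq] at h hR
    simp only [id, hs]
    rcases h with h | h | ⟨h, h'⟩ | ⟨h, h'⟩
    · exact ⟨.E, trivial, by rw [St.x_E]; omega, by rw [yE]; omega⟩
    · exact ⟨.W, trivial, by rw [St.x_W]; omega, by rw [yW]; omega⟩
    · rw [Int.even_iff] at h'
      refine ⟨.N, trivial, by rw [St.x_N]; omega, ?_⟩
      rw [yN]
      rcases hpow i with ⟨h3, h4⟩ | ⟨h3, h4⟩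
      · rw [h3]; omega
      · omega
    · rw [Int.even_iff] at h'
      refine ⟨.N, trivial, by rw [St.x_N]; omega, ?_⟩
      rw [yN]
      rcases hpow i with ⟨h3, h4⟩ | ⟨h3, h4⟩
      · omega
      · rw [h3]; omega
  · rintro i ⟨p1, p2⟩ s hR hok
    simp only at hR
    simp only [id, hs, Int.even_iff]
    cases s
    · exact ⟨(p1 + 1, p2), by simp, by rw [St.x_E], by rw [yE, mul_zero, add_zero]⟩
    · exact absurd hok (fun h => h)
    · exact ⟨(p1 - 1, p2), by simp, by rw [St.x_W]; simp only; ring,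
        by rw [yW, mul_zero, add_zero]⟩
    · exact absurd hok (fun h => h)
    · rcases hpow i with ⟨h3, h4⟩ | ⟨h3, h4⟩
      · refine ⟨(p1, p2 + 1), Or.inr (Or.inr (Or.inl ⟨by simp, ?_⟩)),
          by rw [St.x_N, add_zero], ?_⟩
        · omega
        · rw [yN, h3]; simp only; ring
      · refine ⟨(p1, p2 - 1), Or.inr (Or.inr (Or.inr ⟨by simp, ?_⟩)),
          by rw [St.x_N, add_zero], ?_⟩
        · simp only; omega
        · rw [yN, h3]; simp only; ring
    · exact absurd hok (fun h => h)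

end H982P
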