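import Pool.Agent.H982R3.Words

/-!
Non-crossing pairs of consecutive bridges.
-/

set_option linter.unusedSectionVars false

namespace H982

variable [L : Lat]

abbrev LL := List St × List St

/-- after the bridge `β`, the word `sg β'` does not hit `β` again -/
def NCg (β β' : List St) : Prop :=
  ∀ m m', m <:+ β → m' <+: β' → dx m = dx m' → dy m + sgm ^ m.length * dy m' = 0 →
    m = [] ∧ m' = []

lemma isBr_E : IsBr 1 [St.E] := by
  refine ⟨⟨?_, ?_⟩, ?_, ?_, by simp⟩
  · intro m hm h1 h2
    rcases List.infix_cons_iff.mp hm with h | h
    · rcases List.prefix_cons_iff.mp h with h | ⟨t, rfl, h⟩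
      · exact h
      · have : t = [] := by simpa using h
        subst this; simp at h1
    · simpa using h
  · intro s hs
    rw [List.mem_singleton] at hs
    rw [hs]
    exact St.ok_E
  · intro u hu h0
    rcases List.prefix_cons_iff.mp hu with h | ⟨t, rfl, h⟩
    · exact absurd h h0
    · have : t = [] := by simpa using h
      subst this; simp
  · intro u hu
    rcases List.prefix_cons_iff.mp hu with h | ⟨t, rfl, h⟩
    · simp [h]
    · have : t = [] := by simpa using h
      subst this; simp

lemma IsBr.consE {a w} (h : IsBr a w) : IsBr (a + 1) (St.E :: w) := by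
  have := isBr_E.append h
  rw [add_comm]; simpa using this

end H982
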