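import Pool.Agent.H982R3.Irr
import Pool.Agent.H982R3.NCg

/-!
Chains of folded bridges: the two-step Gronwall argument with random marks.
-/

set_option linter.unusedSectionVars false

namespace H982

variable [L : Lat]

open scoped ENNReal
open PowerSeries

lemma NCg.suf {u β β' : List St} (h : NCg (u ++ β) β') : NCg β β' :=
  fun m m' hm hm' h1 h2 => h m m' (hm.trans (List.suffix_append u β)) hm' h1 h2

lemma NCg.pre {β Y Z : List St} (h : NCg β (Y ++ Z)) : NCg β Y :=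
  fun m m' hm hm' h1 h2 => h m m' hm (hm'.trans (List.prefix_append Y Z)) h1 h2

lemma NCg_nil_left {β' : List St} (h : IsB β') : NCg [] β' := by
  intro m m' hm hm' h1 h2
  have hm0 : m = [] := by simpa using hm
  subst hm0
  refine ⟨rfl, ?_⟩
  by_contra h0
  obtain ⟨a, h⟩ := h
  have := h.hp m' hm' h0
  simp at h1; omega

lemma NCg_nil_right {β : List St} (h : IsB β) : NCg β [] := by
  intro m m' hm hm' h1 h2
  have hm0 : m' = [] := by simpa using hm'
  subst hm0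
  refine ⟨?_, rfl⟩
  obtain ⟨a, h⟩ := h
  exact h.saw.1 m hm.isInfix (by simpa using h1) (by simpa using h2)

/-- chains with decreasing widths in `[r, r + k)` following `β` -/
noncomputable def Rr (r : ℕ) : ℕ → List St → PS
  | 0, _ => 1
  | k + 1, β => Rr r k β + fs (fun β' => ii (IsBr (r + k) β' ∧ NCg β β') * (xl β' * Rr r k β'))

lemma Rr_le_succ (r k : ℕ) (β : List St) : Rr r k β ≤ Rr r (k + 1) β := by
  simp only [Rr]; exact le_self_add

lemma Rr_mono (r : ℕ) {k l : ℕ} (h : k ≤ l) (β : List St) : Rr r k β ≤ Rr r l β := by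
  induction l, h using Nat.le_induction with
  | base => exact le_rfl
  | succ l _ ih => exact ih.trans (Rr_le_succ r l β)

lemma Rr_le_of (r k : ℕ) {β γ : List St} (h : ∀ β', IsB β' → NCg β β' → NCg γ β') :
    Rr r k β ≤ Rr r k γ := by
  induction k with
  | zero => exact le_rfl
  | succ k ih =>
    simp only [Rr]
    apply add_le_add ih
    apply fs_mono
    intro β'
    gcongr
    exact ii_mono fun h' => ⟨h'.1, h β' h'.1.isB h'.2⟩

lemma Rr_suf (r k : ℕ) (u β : List St) : Rr r k (u ++ β) ≤ Rr r k β :=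
  Rr_le_of r k fun _ _ h => h.suf

lemma Rr_le_nil (r k : ℕ) (β : List St) : Rr r k β ≤ Rr r k [] :=
  Rr_le_of r k fun _ h _ => NCg_nil_left h

/-- splitting of the chain at a given width -/
lemma Rr_split (s m k : ℕ) (β : List St) : Rr s (m + k) β ≤ Rr (s + m) k β * Rr s m [] := by
  induction k generalizing β with
  | zero => simpa [Rr] using Rr_le_nil s m β
  | succ k ih =>
    change Rr s (m + k + 1) β ≤ _
    simp only [Rr]
    calc Rr s (m + k) β + fs (fun β' => ii (IsBr (s + (m + k)) β' ∧ NCg β β') *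
          (xl β' * Rr s (m + k) β'))
        ≤ Rr (s + m) k β * Rr s m [] + fs (fun β' => ii (IsBr (s + (m + k)) β' ∧ NCg β β') *
          (xl β' * (Rr (s + m) k β' * Rr s m []))) := by
          apply add_le_add (ih β)
          apply fs_mono
          intro β'
          gcongr
          exact ih β'
      _ = _ := by
          rw [add_mul, fs_mul]
          congr 1
          apply fs_congr
          intro β'
          rw [show s + (m + k) = s + m + k by ring]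
          ring

/-- combining the widths -/
lemma comb_aux (r k : ℕ) (P : List St → Prop) (g g' : List St → PS) (hg : ∀ β, g β ≤ g' β) :
    fs (fun β => ii ((IsB β ∧ r ≤ wd β ∧ wd β < r + k) ∧ P β) * g β) +
      fs (fun β => ii (IsBr (r + k) β ∧ P β) * g β) ≤
    fs (fun β => ii ((IsB β ∧ r ≤ wd β ∧ wd β < r + (k + 1)) ∧ P β) * g' β) := by
  rw [← fs_add]
  apply fs_mono
  intro β
  by_cases h : IsBr (r + k) β
  · have h1 : ¬ ((IsB β ∧ r ≤ wd β ∧ wd β < r + k) ∧ P β) := by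
      rintro ⟨⟨_, _, h2⟩, _⟩
      rw [h.wd] at h2; omega
    rw [ii_not h1, zero_mul, zero_add]
    refine mul_le_mul' (ii_mono ?_) (hg β)
    rintro ⟨h2, h3⟩
    exact ⟨⟨h2.isB, by rw [h2.wd]; omega, by rw [h2.wd]; omega⟩, h3⟩
  · have h1 : ¬ (IsBr (r + k) β ∧ P β) := fun h' => h h'.1
    rw [ii_not h1, zero_mul, add_zero]
    refine mul_le_mul' (ii_mono ?_) (hg β)
    rintro ⟨⟨h2, h3, h4⟩, h5⟩
    exact ⟨⟨h2, h3, by omega⟩, h5⟩

lemma Rr_le_one_add (r k : ℕ) (β : List St) : Rr r k β ≤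
    1 + fs (fun β' => ii ((IsB β' ∧ r ≤ wd β' ∧ wd β' < r + k) ∧ NCg β β') *
      (xl β' * Rr r k β')) := by
  induction k with
  | zero => simp only [Rr]; exact le_self_add
  | succ k ih =>
    calc Rr r (k + 1) β = Rr r k β + fs (fun β' => ii (IsBr (r + k) β' ∧ NCg β β') *
          (xl β' * Rr r k β')) := rfl
      _ ≤ (1 + fs (fun β' => ii ((IsB β' ∧ r ≤ wd β' ∧ wd β' < r + k) ∧ NCg β β') *
            (xl β' * Rr r k β'))) + fs (fun β' => ii (IsBr (r + k) β' ∧ NCg β β') *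
          (xl β' * Rr r k β')) := by gcongr
      _ = 1 + (fs (fun β' => ii ((IsB β' ∧ r ≤ wd β' ∧ wd β' < r + k) ∧ NCg β β') *
            (xl β' * Rr r k β')) + fs (fun β' => ii (IsBr (r + k) β' ∧ NCg β β') *
          (xl β' * Rr r k β'))) := by ring
      _ ≤ _ := by
          gcongr
          exact comb_aux r k (NCg β) _ _ (fun β' => by
            gcongr
            exact Rr_le_succ r k β')

/-- unrolled recursion -/
lemma Rr_eq (r k : ℕ) (β : List St) : Rr r k β =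
    1 + ∑ l ∈ Finset.range k, fs (fun β' => ii (IsBr (r + l) β' ∧ NCg β β') *
      (xl β' * Rr r l β')) := by
  induction k with
  | zero => simp [Rr]
  | succ k ih =>
    rw [Finset.sum_range_succ, ← add_assoc, ← ih]
    rfl

/-- `Y` above the fold -/
noncomputable def Ns (W : ℕ) (β : List St) : PS :=
  fs (fun Y => ii ((IsB Y ∧ wd Y ≤ W) ∧ NCg β Y) * xl Y)

noncomputable def Es (W : ℕ) : PS := fs (fun X => ii (IsB X ∧ wd X ≤ W) * (xl X * Ns W X))

noncomputable def GG (r k W : ℕ) : PS := fs (fun X => ii (IsB X ∧ wd X ≤ W) * (xl X * Rr r k X))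

lemma Ns_suf (W : ℕ) (u β : List St) : Ns W (u ++ β) ≤ Ns W β := by
  apply fs_mono
  intro Y
  gcongr
  exact ii_mono fun h => ⟨h.1, h.2.suf⟩

lemma one_le_Ns (W : ℕ) {β : List St} (h : IsB β) : 1 ≤ Ns W β := by
  calc (1 : PS) = ii ((IsB [] ∧ wd [] ≤ W) ∧ NCg β []) * xl [] := by
        rw [ii_of ⟨⟨isB_nil, by simp [wd]⟩, NCg_nil_right h⟩]; simp
    _ ≤ _ := le_fs (fun Y => ii ((IsB Y ∧ wd Y ≤ W) ∧ NCg β Y) * xl Y) []

lemma Ns_nil_le (W : ℕ) : Ns W [] ≤ Us W := by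
  apply fs_mono
  intro Y
  gcongr
  exact ii_mono fun h => h.1

lemma Ks_mono {W W' : ℕ} (h : W ≤ W') : Ks W ≤ Ks W' := by
  apply fs_mono
  intro Y
  gcongr
  exact ii_mono fun h' => ⟨h'.1, h'.2.trans h⟩

lemma Us_mono {W W' : ℕ} (h : W ≤ W') : Us W ≤ Us W' := by
  apply fs_mono
  intro Y
  gcongr
  exact ii_mono fun h' => ⟨h'.1, h'.2.trans h⟩

/-- factorisation of the sum over triples -/
lemma triple_sum (W : ℕ) (β : List St) (F : List St → PS) :
    fs (fun t : L3 => ii (IsT t ∧ ((wd t.1 ≤ W ∧ NCg β t.1) ∧ wd t.2.1 ≤ W ∧ wd t.2.2 ≤ W)) *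
      (cst (wd t.2.1 : ℝ≥0∞) * (xl t.1 * xl t.2.1 * (xl t.2.2 * F t.2.2)))) =
    Ns W β * (Ks W * fs (fun X => ii (IsB X ∧ wd X ≤ W) * (xl X * F X))) := by
  unfold Ns Ks
  rw [fs_mul_fs, fs_mul_fs]
  apply fs_congr
  rintro ⟨a, b, c⟩
  simp only [IsT, ii_and]
  ring

lemma mark_step (r k W : ℕ) (hW : 2 * r ≤ W) (hk : k ≤ r) (β : List St) (F : List St → PS)
    (hF : ∀ u X, F (u ++ X) ≤ F X) :
    cst (r : ℝ≥0∞) * fs (fun β' => ii ((IsB β' ∧ r ≤ wd β' ∧ wd β' < r + k) ∧ NCg β β') *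
      (xl β' * F β')) ≤
    Ns W β * (Ks W * fs (fun X => ii (IsB X ∧ wd X ≤ W) * (xl X * F X))) := by
  rw [← triple_sum]
  refine mark_le r (fun β' => (IsB β' ∧ r ≤ wd β' ∧ wd β' < r + k) ∧ NCg β β')
    (fun t => ((wd t.1 ≤ W ∧ NCg β t.1) ∧ wd t.2.1 ≤ W ∧ wd t.2.2 ≤ W))
    (fun β' => xl β' * F β') (fun t => xl t.1 * xl t.2.1 * (xl t.2.2 * F t.2.2)) ?_ ?_
  · rintro β' ⟨⟨h1, h2, h3⟩, h4⟩
    exact ⟨h1, h2⟩
  · rintro t ht ⟨⟨h1, h2, h3⟩, h4⟩
    have h5 := ht.wd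
    refine ⟨⟨⟨by omega, ?_⟩, by omega, by omega⟩, ?_⟩
    · unfold cat3 at h4
      exact h4.pre
    · unfold cat3
      rw [xl_append, xl_append]
      calc xl t.1 * (xl t.2.1 * xl t.2.2) * F (t.1 ++ (t.2.1 ++ t.2.2))
          ≤ xl t.1 * (xl t.2.1 * xl t.2.2) * F t.2.2 := by
            gcongr
            exact (hF _ _).trans (hF _ _)
        _ = _ := by ring

lemma cst_inv_mul {r : ℕ} (hr : 1 ≤ r) : cst ((r : ℝ≥0∞)⁻¹) * cst (r : ℝ≥0∞) = 1 := by
  rw [← cst_mul, ENNReal.inv_mul_cancel, cst_one]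
  · simp; omega
  · exact ENNReal.natCast_ne_top r

/-- `1 + κ G` -/
noncomputable def G1 (r k W : ℕ) : PS := 1 + cst ((r : ℝ≥0∞)⁻¹) * Ks W * GG r k W

lemma Rr_le_Ns {r k W : ℕ} (hr : 1 ≤ r) (hW : 2 * r ≤ W) (hk : k ≤ r) {β : List St} (hβ : IsB β) :
    Rr r k β ≤ Ns W β * G1 r k W := by
  have h1 := mark_step r k W hW hk β (Rr r k) (fun u X => Rr_suf r k u X)
  have h2 := Rr_le_one_add r k β
  set S := fs (fun β' => ii ((IsB β' ∧ r ≤ wd β' ∧ wd β' < r + k) ∧ NCg β β') *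
      (xl β' * Rr r k β')) with hS
  have h3 : S ≤ cst ((r : ℝ≥0∞)⁻¹) * (Ns W β * (Ks W * GG r k W)) := by
    calc S = cst ((r : ℝ≥0∞)⁻¹) * (cst (r : ℝ≥0∞) * S) := by
          rw [← mul_assoc, cst_inv_mul hr, one_mul]
      _ ≤ _ := mul_le_mul' le_rfl h1
  calc Rr r k β ≤ 1 + S := h2
    _ ≤ Ns W β * 1 + cst ((r : ℝ≥0∞)⁻¹) * (Ns W β * (Ks W * GG r k W)) := by
        refine add_le_add ?_ h3
        rw [mul_one]; exact one_le_Ns W hβ
    _ = _ := by unfold G1; ring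

/-- one strand with both folds -/
noncomputable def ys (r l W : ℕ) : PS := fs (fun X => ii (IsB X ∧ wd X ≤ W) *
  (xl X * fs (fun β' => ii (IsBr (r + l) β' ∧ NCg X β') * (xl β' * Ns W β'))))

lemma GG_le {r k W : ℕ} (hr : 1 ≤ r) (hW : 2 * r ≤ W) (hk : k ≤ r) :
    GG r k W ≤ Us W + ∑ l ∈ Finset.range k, ys r l W * G1 r l W := by
  calc GG r k W = fs (fun X => ii (IsB X ∧ wd X ≤ W) * xl X + ∑ l ∈ Finset.range k,
          ii (IsB X ∧ wd X ≤ W) * (xl X * fs (fun β' => ii (IsBr (r + l) β' ∧ NCg X β') *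
      (xl β' * Rr r l β')))) := by
        unfold GG
        apply fs_congr
        intro X
        rw [Rr_eq, mul_add, mul_one, mul_add, Finset.mul_sum, Finset.mul_sum]
    _ ≤ fs (fun X => ii (IsB X ∧ wd X ≤ W) * xl X + ∑ l ∈ Finset.range k,
          (ii (IsB X ∧ wd X ≤ W) * (xl X * fs (fun β' => ii (IsBr (r + l) β' ∧ NCg X β') *
      (xl β' * Ns W β')))) * G1 r l W) := by
        apply fs_mono
        intro X
        refine add_le_add le_rfl (Finset.sum_le_sum ?_)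
        intro l hl
        rw [Finset.mem_range] at hl
        rw [mul_assoc, mul_assoc, fs_mul]
        gcongr
        apply fs_mono
        intro β'
        by_cases h : IsBr (r + l) β' ∧ NCg X β'
        · rw [ii_of h, one_mul, one_mul, mul_assoc]
          gcongr
          exact Rr_le_Ns hr hW (by omega) h.1.isB
        · rw [ii_not h, zero_mul, zero_mul, zero_mul]
    _ = _ := by
        rw [fs_add, fs_sum]
        congr 1
        apply Finset.sum_congr rfl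
        intro l _
        rw [← fs_mul]
        rfl

/-- the increments in the Gronwall inequality -/
noncomputable def as (r l W : ℕ) : PS := cst ((r : ℝ≥0∞)⁻¹) * Ks W * ys r l W

lemma G1_le {r k W : ℕ} (hr : 1 ≤ r) (hW : 2 * r ≤ W) (hk : k ≤ r) :
    G1 r k W ≤ (1 + cst ((r : ℝ≥0∞)⁻¹) * Ks W * Us W) +
      ∑ l ∈ Finset.range k, as r l W * G1 r l W := by
  calc G1 r k W = 1 + cst ((r : ℝ≥0∞)⁻¹) * Ks W * GG r k W := rfl
    _ ≤ 1 + cst ((r : ℝ≥0∞)⁻¹) * Ks W * (Us W + ∑ l ∈ Finset.range k, ys r l W * G1 r l W) := by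
        gcongr
        exact GG_le hr hW hk
    _ = _ := by
        rw [mul_add, Finset.mul_sum, ← add_assoc]
        congr 1
        apply Finset.sum_congr rfl
        intro l _
        unfold as; ring

lemma gronwall (G a : ℕ → PS) (c : PS) (r : ℕ)
    (h : ∀ k ≤ r, G k ≤ c + ∑ l ∈ Finset.range k, a l * G l) :
    ∀ k ≤ r, G k ≤ c * ∏ l ∈ Finset.range k, (1 + a l) := by
  have key : ∀ k, 1 + ∑ l ∈ Finset.range k, a l * ∏ i ∈ Finset.range l, (1 + a i) =
      ∏ l ∈ Finset.range k, (1 + a l) := by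
    intro k
    induction k with
    | zero => simp
    | succ k ih => rw [Finset.sum_range_succ, Finset.prod_range_succ, ← add_assoc, ih]; ring
  intro k
  induction k using Nat.strong_induction_on with
  | _ k ih =>
  intro hk
  refine (h k hk).trans ?_
  rw [← key, mul_add, mul_one, Finset.mul_sum]
  refine add_le_add le_rfl (Finset.sum_le_sum ?_)
  intro l hl
  rw [Finset.mem_range] at hl
  calc a l * G l ≤ a l * (c * ∏ i ∈ Finset.range l, (1 + a i)) := by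
        gcongr
        exact ih l hl (by omega)
    _ = c * (a l * ∏ i ∈ Finset.range l, (1 + a i)) := by ring

/-- truncated exponential -/
noncomputable def eb (k : ℕ) (A : PS) : PS :=
  ∑ j ∈ Finset.range (k + 1), cst ((j.factorial : ℝ≥0∞)⁻¹) * A ^ j

lemma binom_aux (A a : PS) (j : ℕ) : A ^ (j + 1) + cst ((j + 1 : ℕ) : ℝ≥0∞) * (a * A ^ j) ≤
    (A + a) ^ (j + 1) := by
  induction j with
  | zero => simp
  | succ j ih =>
    calc A ^ (j + 1 + 1) + cst ((j + 1 + 1 : ℕ) : ℝ≥0∞) * (a * A ^ (j + 1))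
        ≤ A ^ (j + 1 + 1) + cst ((j + 1 + 1 : ℕ) : ℝ≥0∞) * (a * A ^ (j + 1)) +
          a * (cst ((j + 1 : ℕ) : ℝ≥0∞) * (a * A ^ j)) := le_self_add
      _ = (A ^ (j + 1) + cst ((j + 1 : ℕ) : ℝ≥0∞) * (a * A ^ j)) * (A + a) := by
          have : cst ((j + 1 + 1 : ℕ) : ℝ≥0∞) = cst ((j + 1 : ℕ) : ℝ≥0∞) + 1 := by
            rw [← cst_one, ← cst_add]; congr 1; push_cast; ring
          rw [this]; ring
      _ ≤ (A + a) ^ (j + 1) * (A + a) := by gcongr
      _ = _ := (pow_succ _ _).symm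

lemma fact_aux (j : ℕ) : cst ((((j + 1).factorial : ℕ) : ℝ≥0∞)⁻¹) * cst ((j + 1 : ℕ) : ℝ≥0∞) =
    cst ((j.factorial : ℝ≥0∞)⁻¹) := by
  rw [← cst_mul]
  congr 1
  rw [Nat.factorial_succ, Nat.cast_mul, ENNReal.mul_inv, mul_comm, ← mul_assoc,
    ENNReal.mul_inv_cancel, one_mul]
  · simp; 
  · exact ENNReal.natCast_ne_top _
  · left
    exact_mod_cast (Nat.succ_ne_zero j)
  · left; exact ENNReal.natCast_ne_top _

lemma eb_step (k : ℕ) (A a : PS) : eb k A * (1 + a) ≤ eb (k + 1) (A + a) := by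
  have h0 : cst ((((0 : ℕ).factorial : ℕ) : ℝ≥0∞)⁻¹) = 1 := by simp
  unfold eb
  rw [Finset.sum_range_succ' _ (k + 1), mul_add, mul_one]
  have h1 : ∑ j ∈ Finset.range (k + 1), cst ((j.factorial : ℝ≥0∞)⁻¹) * A ^ j ≤
      ∑ j ∈ Finset.range (k + 1), cst (((j + 1).factorial : ℝ≥0∞)⁻¹) * A ^ (j + 1) + 1 := by
    rw [Finset.sum_range_succ' _ k]
    rw [h0, pow_zero, mul_one, Finset.sum_range_succ]
    exact add_le_add le_self_add le_rfl
  calc ∑ j ∈ Finset.range (k + 1), cst ((j.factorial : ℝ≥0∞)⁻¹) * A ^ j +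
        (∑ j ∈ Finset.range (k + 1), cst ((j.factorial : ℝ≥0∞)⁻¹) * A ^ j) * a
      ≤ (∑ j ∈ Finset.range (k + 1), cst (((j + 1).factorial : ℝ≥0∞)⁻¹) * A ^ (j + 1) + 1) +
        (∑ j ∈ Finset.range (k + 1), cst ((j.factorial : ℝ≥0∞)⁻¹) * A ^ j) * a := by gcongr
    _ = ∑ j ∈ Finset.range (k + 1), cst (((j + 1).factorial : ℝ≥0∞)⁻¹) *
        (A ^ (j + 1) + cst ((j + 1 : ℕ) : ℝ≥0∞) * (a * A ^ j)) + 1 := by
        rw [Finset.sum_mul, add_right_comm, ← Finset.sum_add_distrib]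
        congr 1
        apply Finset.sum_congr rfl
        intro j _
        rw [mul_add, ← mul_assoc (cst (((j + 1).factorial : ℝ≥0∞)⁻¹)), fact_aux]
        ring
    _ ≤ ∑ j ∈ Finset.range (k + 1), cst (((j + 1).factorial : ℝ≥0∞)⁻¹) * (A + a) ^ (j + 1) + 1 := by
        gcongr with j _
        exact binom_aux A a j
    _ = _ := by rw [h0, pow_zero, mul_one]

lemma prod_le_eb (a : ℕ → PS) (k : ℕ) :
    ∏ l ∈ Finset.range k, (1 + a l) ≤ eb k (∑ l ∈ Finset.range k, a l) := by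
  induction k with
  | zero => simp [eb]
  | succ k ih =>
    rw [Finset.prod_range_succ, Finset.sum_range_succ]
    calc _ ≤ eb k (∑ l ∈ Finset.range k, a l) * (1 + a k) := by gcongr
      _ ≤ _ := eb_step k _ _

lemma sum_pow_le_exp {c : ℝ} (hc : 0 ≤ c) (k : ℕ) :
    ∑ j ∈ Finset.range (k + 1), ((j.factorial : ℝ≥0∞)⁻¹) * (ENNReal.ofReal c) ^ j ≤
      ENNReal.ofReal (Real.exp c) := by
  have h1 : ∑ j ∈ Finset.range (k + 1), ((j.factorial : ℝ≥0∞)⁻¹) * (ENNReal.ofReal c) ^ j =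
      ENNReal.ofReal (∑ j ∈ Finset.range (k + 1), c ^ j / j.factorial) := by
    rw [ENNReal.ofReal_sum_of_nonneg (fun j _ => by positivity)]
    apply Finset.sum_congr rfl
    intro j _
    rw [ENNReal.ofReal_div_of_pos (by positivity), ENNReal.ofReal_pow hc, ENNReal.ofReal_natCast,
      ENNReal.div_eq_inv_mul]
  rw [h1]
  apply ENNReal.ofReal_le_ofReal
  exact Real.sum_le_exp_of_nonneg hc (k + 1)

lemma Nm_eb {c : ℝ} (hc : 0 ≤ c) {A : PS} (hA : Nm (ENNReal.ofReal c) A) (k : ℕ) :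
    Nm (ENNReal.ofReal (Real.exp c)) (eb k A) := by
  refine Nm.weaken ?_ (sum_pow_le_exp hc k)
  unfold eb
  exact Nm.sum _ fun j _ => (Nm_cst _).mul (hA.pow j)

lemma comb_sum (r k : ℕ) (P : List St → Prop) (g : List St → PS) :
    ∑ l ∈ Finset.range k, fs (fun β => ii (IsBr (r + l) β ∧ P β) * g β) ≤
    fs (fun β => ii ((IsB β ∧ r ≤ wd β ∧ wd β < r + k) ∧ P β) * g β) := by
  induction k with
  | zero => simp
  | succ k ih =>
    rw [Finset.sum_range_succ]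
    exact (add_le_add ih le_rfl).trans (comb_aux r k P g g fun _ => le_rfl)

lemma sum_ys_le {r k W : ℕ} (hW : 2 * r ≤ W) (hk : k ≤ r) :
    cst (r : ℝ≥0∞) * ∑ l ∈ Finset.range k, ys r l W ≤ Ks W * (Es W * Es W) := by
  calc cst (r : ℝ≥0∞) * ∑ l ∈ Finset.range k, ys r l W
      = fs (fun X => ii (IsB X ∧ wd X ≤ W) * (xl X * (cst (r : ℝ≥0∞) *
          ∑ l ∈ Finset.range k, fs (fun β' => ii (IsBr (r + l) β' ∧ NCg X β') *
            (xl β' * Ns W β'))))) := by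
        unfold ys
        rw [← fs_sum, mul_fs]
        apply fs_congr
        intro X
        rw [← Finset.mul_sum, ← Finset.mul_sum]; ring
    _ ≤ fs (fun X => ii (IsB X ∧ wd X ≤ W) * (xl X * (Ns W X * (Ks W * Es W)))) := by
        refine fs_mono fun X => mul_le_mul' le_rfl (mul_le_mul' le_rfl ?_)
        refine (mul_le_mul' le_rfl (comb_sum r k (NCg X) (fun β' => xl β' * Ns W β'))).trans ?_
        exact mark_step r k W hW hk X (Ns W) (fun u X => Ns_suf W u X)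
    _ = fs (fun X => (ii (IsB X ∧ wd X ≤ W) * (xl X * Ns W X)) * (Ks W * Es W)) := by
        apply fs_congr
        intro X
        ring
    _ = Es W * (Ks W * Es W) := by rw [← fs_mul]; rfl
    _ = _ := by ring

lemma sum_as_le {r k W : ℕ} (hr : 1 ≤ r) (hW : 2 * r ≤ W) (hk : k ≤ r) :
    ∑ l ∈ Finset.range k, as r l W ≤
      (cst ((r : ℝ≥0∞)⁻¹) * (Ks W * Es W)) * (cst ((r : ℝ≥0∞)⁻¹) * (Ks W * Es W)) := by
  have h1 := sum_ys_le hW hk
  have h2 : ∑ l ∈ Finset.range k, ys r l W ≤ cst ((r : ℝ≥0∞)⁻¹) * (Ks W * (Es W * Es W)) := by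
    calc _ = cst ((r : ℝ≥0∞)⁻¹) * (cst (r : ℝ≥0∞) * ∑ l ∈ Finset.range k, ys r l W) := by
          rw [← mul_assoc, cst_inv_mul hr, one_mul]
      _ ≤ _ := by gcongr
  calc ∑ l ∈ Finset.range k, as r l W
      = cst ((r : ℝ≥0∞)⁻¹) * Ks W * ∑ l ∈ Finset.range k, ys r l W := by
        unfold as; rw [Finset.mul_sum]
    _ ≤ cst ((r : ℝ≥0∞)⁻¹) * Ks W * (cst ((r : ℝ≥0∞)⁻¹) * (Ks W * (Es W * Es W))) := by gcongr
    _ = _ := by ring

/-- the bound at one dyadic scale -/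
theorem scale_bound {r : ℕ} (hr : 1 ≤ r) {c : ℝ} (hc : 0 ≤ c)
    (hE : Es (2 * r) ≤ cst (ENNReal.ofReal c) * Us (4 * r)) :
    Nm (ENNReal.ofReal ((2 * r + 1) * 5 * Real.exp (64 * c ^ 2))) (Rr r r []) := by
  have hr0 : (r : ℝ≥0∞) ≠ 0 := by simp; omega
  have hrt : (r : ℝ≥0∞) ≠ ⊤ := ENNReal.natCast_ne_top r
  have hrr : (0 : ℝ) < r := by exact_mod_cast hr
  -- KU
  have nKU : Nm 4 (cst ((r : ℝ≥0∞)⁻¹) * Ks (2 * r) * Us (2 * r)) := by
    have h1 := (Nm_cst ((r : ℝ≥0∞)⁻¹)).mul (Nm_KU (2 * r))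
    have e : cst ((r : ℝ≥0∞)⁻¹) * Ks (2 * r) * Us (2 * r) =
        cst ((r : ℝ≥0∞)⁻¹) * (Ks (2 * r) * Us (2 * r)) := by ring
    rw [e]
    refine h1.weaken ?_
    have : ((2 * (2 * r) : ℕ) : ℝ≥0∞) = r * 4 := by push_cast; ring
    rw [this, ← mul_assoc, ENNReal.inv_mul_cancel hr0 hrt, one_mul]
  -- KE
  have nKE : Nm (ENNReal.ofReal (8 * c)) (cst ((r : ℝ≥0∞)⁻¹) * (Ks (2 * r) * Es (2 * r))) := by
    have h1 : cst ((r : ℝ≥0∞)⁻¹) * (Ks (2 * r) * Es (2 * r)) ≤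
        cst ((r : ℝ≥0∞)⁻¹) * (cst (ENNReal.ofReal c) * (Ks (4 * r) * Us (4 * r))) := by
      calc _ ≤ cst ((r : ℝ≥0∞)⁻¹) * (Ks (4 * r) * (cst (ENNReal.ofReal c) * Us (4 * r))) := by
            gcongr
            exact Ks_mono (by omega)
        _ = _ := by ring
    refine Nm.mono ?_ h1
    have h2 := (Nm_cst ((r : ℝ≥0∞)⁻¹)).mul ((Nm_cst (ENNReal.ofReal c)).mul (Nm_KU (4 * r)))
    refine h2.weaken ?_
    have : ((2 * (4 * r) : ℕ) : ℝ≥0∞) = r * 8 := by push_cast; ring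
    rw [this, ENNReal.ofReal_mul (by norm_num)]
    have h8 : ENNReal.ofReal 8 = 8 := by norm_num
    rw [h8]
    calc (r : ℝ≥0∞)⁻¹ * (ENNReal.ofReal c * (r * 8))
        = ((r : ℝ≥0∞)⁻¹ * r) * (8 * ENNReal.ofReal c) := by ring
      _ = 8 * ENNReal.ofReal c := by rw [ENNReal.inv_mul_cancel hr0 hrt, one_mul]
      _ ≤ _ := le_rfl
  have nA : Nm (ENNReal.ofReal (64 * c ^ 2)) (∑ l ∈ Finset.range r, as r l (2 * r)) := by
    refine Nm.mono ?_ (sum_as_le hr le_rfl le_rfl)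
    refine (nKE.mul nKE).weaken ?_
    rw [← ENNReal.ofReal_mul (by positivity)]
    apply ENNReal.ofReal_le_ofReal
    nlinarith
  have nP : Nm (ENNReal.ofReal (Real.exp (64 * c ^ 2)))
      (∏ l ∈ Finset.range r, (1 + as r l (2 * r))) :=
    (Nm_eb (by positivity) nA r).mono (prod_le_eb _ r)
  have h1 : Rr r r [] ≤ Us (2 * r) * ((1 + cst ((r : ℝ≥0∞)⁻¹) * Ks (2 * r) * Us (2 * r)) *
      ∏ l ∈ Finset.range r, (1 + as r l (2 * r))) := by
    refine (Rr_le_Ns hr le_rfl le_rfl isB_nil).trans ?_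
    gcongr
    · exact Ns_nil_le _
    · exact gronwall (fun k => G1 r k (2 * r)) (fun l => as r l (2 * r)) _ r
        (fun k hk => G1_le hr le_rfl hk) r le_rfl
  refine Nm.mono ?_ h1
  refine ((Nm_U (2 * r)).mul ((Nm_one.add nKU).mul nP)).weaken ?_
  have e1 : ((2 * r + 1 : ℕ) : ℝ≥0∞) = ENNReal.ofReal (2 * r + 1) := by
    rw [← ENNReal.ofReal_natCast]; congr 1; push_cast; ring
  have e2 : (1 + 4 : ℝ≥0∞) = ENNReal.ofReal 5 := by norm_num
  rw [e1, e2, ← ENNReal.ofReal_mul (by norm_num), ← ENNReal.ofReal_mul (by positivity)]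
  apply ENNReal.ofReal_le_ofReal
  nlinarith [Real.exp_pos (64 * c ^ 2)]

lemma Rr_prod (M : ℕ) : Rr 1 (2 ^ M - 1) [] ≤ ∏ i ∈ Finset.range M, Rr (2 ^ i) (2 ^ i) [] := by
  induction M with
  | zero => simp [Rr]
  | succ M ih =>
    have h1 : 2 ^ (M + 1) - 1 = (2 ^ M - 1) + 2 ^ M := by
      have : 1 ≤ 2 ^ M := Nat.one_le_two_pow
      rw [pow_succ]; omega
    have h2 : 1 + (2 ^ M - 1) = 2 ^ M := by
      have : 1 ≤ 2 ^ M := Nat.one_le_two_pow
      omega
    rw [h1, Finset.prod_range_succ]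
    calc Rr 1 ((2 ^ M - 1) + 2 ^ M) [] ≤ Rr (1 + (2 ^ M - 1)) (2 ^ M) [] * Rr 1 (2 ^ M - 1) [] :=
          Rr_split 1 (2 ^ M - 1) (2 ^ M) []
      _ = Rr 1 (2 ^ M - 1) [] * Rr (2 ^ M) (2 ^ M) [] := by rw [h2]; ring
      _ ≤ _ := by gcongr

/-- the bound for all scales -/
theorem all_scales (c : ℕ → ℝ) (hc : ∀ i, 0 ≤ c i)
    (hE : ∀ i, Es (2 * 2 ^ i) ≤ cst (ENNReal.ofReal (c i)) * Us (4 * 2 ^ i)) (M : ℕ) :
    Nm (ENNReal.ofReal (∏ i ∈ Finset.range M, ((2 * 2 ^ i + 1) * 5 * Real.exp (64 * (c i) ^ 2))))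
      (Rr 1 (2 ^ M - 1) []) := by
  refine Nm.mono ?_ (Rr_prod M)
  rw [ENNReal.ofReal_prod_of_nonneg (fun i _ => by positivity)]
  apply Nm.prod
  intro i _
  have := scale_bound (r := 2 ^ i) Nat.one_le_two_pow (hc i) (hE i)
  push_cast at this
  exact this

end H982
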