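import Pool.Agent.H982R3.Unfold

/-!
Counting self-avoiding words; splitting into two half-plane words.
-/

set_option linter.unusedSectionVars false

namespace H982

variable [L : Lat]

open scoped ENNReal

/-- number of self-avoiding words of length `n`, as an extended nonnegative real -/
noncomputable def cc (n : ℕ) : ℝ≥0∞ := ∑' ω : List St, ind (Saw ω ∧ ω.length = n)

theorem cc_le (N : ℕ) : cc N ≤ ∑ k ∈ Finset.range (N + 1), hh (k + 1) * hh (N - k) := by
  have h1 : cc N ≤ ∑' q : ℕ × LL, ind ((q.1 < N + 1) ∧ ((Saw q.2.1 ∧ HP q.2.1 ∧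
      q.2.1.length = q.1 + 1) ∧ (Saw q.2.2 ∧ HP q.2.2 ∧ q.2.2.length = N - q.1))) * 1 := by
    have h0 : cc N = ∑' ω : List St, ind (Saw ω ∧ ω.length = N) * 1 := by simp [cc]
    rw [h0]
    refine tsum_cover _ _ _ _ (fun q : ℕ × LL => sg q.2.1.tail.reverse ++ q.2.2) ?_
    rintro ω ⟨hS, hN⟩
    obtain ⟨β, ρ, h2, h3, h4⟩ := exists_last_max (sg ω)
    have hω : ω = sg β ++ sg ρ := by
      have := congrArg sg h2
      simpa using this
    have hSβ : Saw β := by
      have : Saw (sg β) := hS.subw ⟨[], sg ρ, by simp [hω]⟩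
      simpa using this.sg
    have hSρ : Saw (sg ρ) := hS.subw ⟨sg β, [], by simp [hω]⟩
    have hlen : β.length + ρ.length = N := by
      rw [← hN, hω]; simp
    have key : ∀ u, u <+: St.E :: β.reverse → u ≠ [] → 0 < dx u := by
      intro u hu hu0
      rcases List.prefix_cons_iff.mp hu with h | ⟨v, rfl, hv⟩
      · exact absurd h hu0
      · have hs : v.reverse <:+ β := by
          rw [← List.reverse_prefix, List.reverse_reverse]; exact hv
        obtain ⟨s, hs⟩ := hs
        have h5 := h3 s ⟨_, hs⟩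
        rw [← hs] at h5
        simp at h5 ⊢
        omega
    refine ⟨(β.length, (St.E :: β.reverse, sg ρ)), ⟨by simp only; omega,
      ⟨⟨?_, ok_cons.mpr ⟨St.ok_E, ok_reverse.mpr hSβ.2⟩⟩, key, by simp⟩,
      hSρ, ?_, ?_⟩, ?_, le_rfl⟩
    · intro m hm h5 h6
      rcases List.infix_cons_iff.mp hm with h7 | h7
      · by_contra hne
        have := key m h7 hne
        omega
      · exact hSβ.reverse.1 m h7 h5 h6
    · intro v hv hv0
      have h5 : sg v <+: ρ := by
        have := hv.map St.sg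
        change H982.sg v <+: H982.sg (H982.sg ρ) at this
        rwa [sg_sg] at this
      have := h4 _ h5 (by simpa using hv0)
      simp at this; omega
    · simp; omega
    · simp [hω]
  refine h1.trans (le_of_eq ?_)
  rw [ENNReal.tsum_prod', tsum_eq_sum (s := Finset.range (N + 1))]
  · apply Finset.sum_congr rfl
    intro k hk
    rw [Finset.mem_range] at hk
    unfold hh
    rw [tsum_mul_tsum' (fun u => ind (Saw u ∧ HP u ∧ u.length = k + 1))
      (fun u => ind (Saw u ∧ HP u ∧ u.length = N - k))]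
    congr 1; ext p
    simp only
    rw [ind_and, ind_of hk, one_mul, mul_one, ind_and (_ ∧ _ ∧ _) (_ ∧ _ ∧ _)]
  · intro k hk
    rw [Finset.mem_range] at hk
    have : ∀ p : LL, ind ((k < N + 1) ∧ ((Saw p.1 ∧ HP p.1 ∧
      p.1.length = k + 1) ∧ (Saw p.2 ∧ HP p.2 ∧ p.2.length = N - k))) * 1 = 0 := by
      intro p; rw [ind_not (fun h => hk h.1), zero_mul]
    simp_rw [this]; simp

theorem cc_mul (m n : ℕ) : cc (m + n) ≤ cc m * cc n := by
  unfold cc
  rw [tsum_mul_tsum' (fun u => ind (Saw u ∧ u.length = m))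
      (fun u => ind (Saw u ∧ u.length = n))]
  have e1 : ∑' ω : List St, ind (Saw ω ∧ ω.length = m + n)
      = ∑' ω : List St, ind (Saw ω ∧ ω.length = m + n) * 1 := by simp
  have e2 : ∑' p : LL, ind (Saw p.1 ∧ p.1.length = m) * ind (Saw p.2 ∧ p.2.length = n)
      = ∑' p : LL, ind ((Saw p.1 ∧ p.1.length = m) ∧ (Saw p.2 ∧ p.2.length = n)) * 1 := by
    simp [ind_and]
  rw [e1, e2]
  refine tsum_inj _ _ _ _ (fun ω => (ω.take m, ω.drop m)) ?_ ?_ ?_
  · rintro u v - - h
    simp only [Prod.mk.injEq] at h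
    rw [← List.take_append_drop m u, ← List.take_append_drop m v, h.1, h.2]
  · rintro u ⟨h1, h2⟩
    refine ⟨⟨h1.subw (List.take_prefix _ _).isInfix, by simp [h2]⟩,
      ⟨h1.subw (List.drop_suffix _ _).isInfix, by simp [h2]⟩⟩
  · intro u _; exact le_rfl

lemma dx_replicate_E (k : ℕ) : dx (List.replicate k St.E) = k := by
  induction k with
  | zero => simp
  | succ k ih => rw [List.replicate_succ, dx_cons, ih]; simp; ring

lemma saw_replicate_E (n : ℕ) : Saw (List.replicate n St.E) := by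
  refine ⟨?_, fun s hs => by rw [List.eq_of_mem_replicate hs]; exact St.ok_E⟩
  intro m hm h1 _
  have h2 : ∀ s ∈ m, s = St.E := fun s hs => List.eq_of_mem_replicate (hm.subset hs)
  have h3 : m = List.replicate m.length St.E := List.eq_replicate_of_mem h2
  rw [h3, dx_replicate_E] at h1
  have : m.length = 0 := by exact_mod_cast h1
  exact List.length_eq_zero_iff.mp this

lemma one_le_cc (n : ℕ) : 1 ≤ cc n := by
  calc (1:ℝ≥0∞) = ind (Saw (List.replicate n St.E) ∧ (List.replicate n St.E).length = n) := by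
        rw [ind_of ⟨saw_replicate_E n, by simp⟩]
    _ ≤ _ := ENNReal.le_tsum (f := fun ω : List St => ind (Saw ω ∧ ω.length = n)) _

lemma cc_zero_le : cc 0 ≤ 1 := by
  unfold cc
  rw [tsum_eq_single []]
  · exact ind_le_one _
  · intro w hw
    exact ind_not (fun h => hw (List.length_eq_zero_iff.mp h.2))

lemma cc_one_ne_top : cc 1 ≠ ⊤ := by
  have h1 : cc 1 ≤ ∑' s : St, (1:ℝ≥0∞) := by
    have e1 : cc 1 = ∑' ω : List St, ind (Saw ω ∧ ω.length = 1) * 1 := by simp [cc]
    have e2 : ∑' s : St, (1:ℝ≥0∞) = ∑' s : St, ind True * 1 := by simp [ind]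
    rw [e1, e2]
    refine tsum_cover _ _ _ _ (fun s => [s]) ?_
    rintro w ⟨-, h⟩
    obtain ⟨s, rfl⟩ := List.length_eq_one_iff.mp h
    exact ⟨s, trivial, rfl, le_rfl⟩
  refine ne_top_of_le_ne_top ?_ h1
  rw [tsum_fintype]
  simp

lemma cc_ne_top (n : ℕ) : cc n ≠ ⊤ := by
  induction n with
  | zero => exact ne_top_of_le_ne_top ENNReal.one_ne_top cc_zero_le
  | succ n ih => exact ne_top_of_le_ne_top (ENNReal.mul_ne_top ih cc_one_ne_top) (cc_mul n 1)

lemma hh_le_cc (n : ℕ) : hh n ≤ cc n := by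
  unfold hh cc
  gcongr
  exact ind_mono fun h => ⟨h.1, h.2.2⟩

lemma hh_zero_le : hh 0 ≤ 1 := (hh_le_cc 0).trans cc_zero_le

/-- number of self-avoiding words of length `n`, as a real -/
noncomputable def cr' (n : ℕ) : ℝ := (cc n).toReal

lemma ofReal_cr' (n : ℕ) : ENNReal.ofReal (cr' n) = cc n := ENNReal.ofReal_toReal (cc_ne_top n)

lemma one_le_cr' (n : ℕ) : 1 ≤ cr' n := by
  have := ENNReal.toReal_mono (cc_ne_top n) (one_le_cc n)
  simpa [cr'] using this

lemma cr'_mul (m n : ℕ) : cr' (m + n) ≤ cr' m * cr' n := by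
  have := ENNReal.toReal_mono (ENNReal.mul_ne_top (cc_ne_top m) (cc_ne_top n)) (cc_mul m n)
  simpa [cr', ENNReal.toReal_mul] using this

lemma subadd : Subadditive (fun n => Real.log (cr' n)) := by
  intro m n
  have h1 := one_le_cr' m
  have h2 := one_le_cr' n
  have h3 := one_le_cr' (m + n)
  rw [← Real.log_mul (by linarith) (by linarith)]
  exact Real.log_le_log (by linarith) (cr'_mul m n)

lemma bddBelow_log : BddBelow (Set.range fun n : ℕ => Real.log (cr' n) / n) :=
  ⟨0, by
    rintro _ ⟨n, rfl⟩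
    exact div_nonneg (Real.log_nonneg (one_le_cr' n)) (Nat.cast_nonneg n)⟩

/-- connective constant -/
noncomputable def mu : ℝ := Real.exp subadd.lim

lemma mu_pos : 0 < mu := Real.exp_pos _

lemma lim_nonneg : 0 ≤ subadd.lim := by
  have := subadd.tendsto_lim bddBelow_log
  exact ge_of_tendsto' this fun n => div_nonneg (Real.log_nonneg (one_le_cr' n)) (Nat.cast_nonneg n)

lemma one_le_mu : 1 ≤ mu := by
  unfold mu; exact Real.one_le_exp lim_nonneg

lemma mu_pow_le (n : ℕ) : mu ^ n ≤ cr' n := by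
  rcases Nat.eq_zero_or_pos n with rfl | hn
  · simpa using one_le_cr' 0
  have h1 := subadd.lim_le_div bddBelow_log hn.ne'
  have hn' : (0:ℝ) < n := by exact_mod_cast hn
  rw [le_div_iff₀ hn'] at h1
  have h2 := one_le_cr' n
  calc mu ^ n = Real.exp (subadd.lim * n) := by
        unfold mu; rw [← Real.exp_nat_mul]; ring_nf
    _ ≤ Real.exp (Real.log (cr' n)) := Real.exp_le_exp.mpr h1
    _ = cr' n := Real.exp_log (by linarith)

lemma tendsto_root : Filter.Tendsto (fun n : ℕ => cr' n ^ (1 / (n:ℝ))) Filter.atTop (nhds mu) := by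
  have h1 := subadd.tendsto_lim bddBelow_log
  have h2 := (Real.continuous_exp.tendsto _).comp h1
  refine h2.congr ?_
  intro n
  have h3 := one_le_cr' n
  simp only [Function.comp]
  rw [Real.rpow_def_of_pos (by linarith)]
  congr 1; ring

/-- eventually `c_n ≤ r^n` for `r > mu` -/
lemma eventually_le {r : ℝ} (hr : mu < r) : ∀ᶠ n : ℕ in Filter.atTop, cr' n ≤ r ^ n := by
  have h1 := tendsto_root.eventually (gt_mem_nhds hr)
  filter_upwards [h1, Filter.eventually_gt_atTop 0] with n hn hn0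
  have h3 := one_le_cr' n
  have hn' : (n:ℝ) ≠ 0 := by positivity
  calc cr' n = (cr' n ^ (1 / (n:ℝ))) ^ n := by
        rw [← Real.rpow_natCast, ← Real.rpow_mul (by linarith)]
        rw [one_div, inv_mul_cancel₀ hn', Real.rpow_one]
    _ ≤ r ^ n := by
        apply pow_le_pow_left₀ (Real.rpow_nonneg (by linarith) _) hn.le

end H982
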