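import Pool.Agent.H982R3.FoldW

/-!
The sum over non-crossing pairs of bridges is bounded by the number of foldable cut levels.
-/

set_option linter.unusedSectionVars false

namespace H982

variable [L : Lat]

open scoped ENNReal
open PowerSeries
open H982F (BrSet mem_BrSet JA FL)

/-- letters with the same displacement are equal -/
lemma letter_inj {s t : St} (hs : s.ok) (ht : t.ok) (hx : s.x = t.x) (hy : s.y = t.y) : s = t := by
  unfold St.ok at hs ht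
  unfold St.y at hy
  cases hk : L.kind <;> simp only [hk] at hs ht hy <;> cases s <;> cases t <;>
    simp [St.x] at hx hy hs ht ⊢

lemma pf_inj {o : ℤ} (ho : o = 1 ∨ o = -1) {u v : List St} (hu : Ok u) (hv : Ok v)
    (hl : u.length = v.length) (h : pf o u = pf o v) : u = v := by
  apply List.ext_getElem hl
  intro i h1 h2
  have e1 := pf_succ o h1
  have e2 := pf_succ o h2
  rw [h] at e1
  have x1 := e1.1.symm.trans e2.1
  have x2 := e1.2.symm.trans e2.2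
  have a1 : (u[i]).x = (v[i]).x := by omega
  have a2 : (u[i]).y = (v[i]).y := by
    have a3 : o * sgm ^ i * (u[i]).y = o * sgm ^ i * (v[i]).y := by omega
    have a4 : o * sgm ^ i ≠ 0 := mul_ne_zero (o_ne ho) (sgm_pow_ne i)
    exact mul_left_cancel₀ a4 a3
  exact letter_inj (hu _ (List.getElem_mem h1)) (hv _ (List.getElem_mem h2)) a1 a2

/-- non-crossing pairs -/
def PE (W : ℕ) (p : LL) : Prop :=
  (IsB p.1 ∧ wd p.1 ≤ W) ∧ ((IsB p.2 ∧ wd p.2 ≤ W) ∧ NCg p.1 p.2)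

/-- non-crossing pairs of nonempty bridges, with orientation `o` passed upwards -/
def PU (o : ℤ) (W : ℕ) (p : LL) : Prop :=
  PE W p ∧ p.1 ≠ [] ∧ p.2 ≠ [] ∧ H982F.Up (pf o (p.1 ++ p.2)) p.1.length

lemma coeff_Es (W n : ℕ) : coeff n (Es W) =
    ∑' p : LL, ind (PE W p ∧ (p.1 ++ p.2).length = n) * 1 := by
  have h1 : Es W = fs (fun p : LL => ii (PE W p) * xl (p.1 ++ p.2)) := by
    unfold Es Ns PE
    rw [fs_prod]
    apply fs_congr
    intro X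
    rw [mul_fs, mul_fs]
    apply fs_congr
    intro Y
    simp only [xl_append]
    rw [ii_and (IsB X ∧ wd X ≤ W)]; ring
  rw [h1, coeff_fs]
  congr 1; ext p
  rw [coeff_ii_mul, coeff_xl, ind_and (PE W p), mul_one]

lemma JA_tsum (N W : ℕ) : ∑' q : (ℕ → ℤ × ℤ) × ℤ, ind (q.1 ∈ BrSet N W ∧ q.2 ∈ JA N W q.1) * 1 =
    ((∑ w ∈ BrSet N W, (JA N W w).card : ℕ) : ℝ≥0∞) := by
  classical
  rw [ENNReal.tsum_prod']
  have h1 : ∀ w, ∑' m : ℤ, ind (w ∈ BrSet N W ∧ m ∈ JA N W w) * 1 =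
      ind (w ∈ BrSet N W) * ((JA N W w).card : ℝ≥0∞) := by
    intro w
    rw [tsum_eq_sum (s := JA N W w)]
    · rw [Finset.sum_congr rfl (g := fun _ => ind (w ∈ BrSet N W))]
      · rw [Finset.sum_const, nsmul_eq_mul, mul_comm]
      · intro m hm
        rw [ind_and, ind_of hm, mul_one, mul_one]
    · intro m hm
      rw [ind_and, ind_not hm, mul_zero, zero_mul]
  simp only
  simp_rw [h1]
  rw [tsum_eq_sum (s := BrSet N W)]
  · push_cast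
    apply Finset.sum_congr rfl
    intro w hw
    rw [ind_of hw, one_mul]
  · intro w hw
    rw [ind_not hw, zero_mul]

lemma PU_le {o : ℤ} (ho : o = 1 ∨ o = -1) (N W : ℕ) :
    ∑' p : LL, ind (PU o W p ∧ (p.1 ++ p.2).length = N) * 1 ≤
    ((∑ w ∈ BrSet N (2 * W), (JA N (2 * W) w).card : ℕ) : ℝ≥0∞) := by
  classical
  rw [← JA_tsum]
  refine tsum_inj _ _ _ _ (fun p : LL => (pf o (p.1 ++ p.2), (wd p.1 : ℤ))) ?_ ?_ ?_
  · rintro ⟨X, Y⟩ ⟨X', Y'⟩ ⟨⟨⟨⟨a1, a2⟩, ⟨a3, a4⟩, a5⟩, a0, a6, a7⟩, a8⟩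
      ⟨⟨⟨⟨b1, b2⟩, ⟨b3, b4⟩, b5⟩, b0, b6, b7⟩, b8⟩ heq
    simp only at a1 a2 a3 a4 a5 a6 a7 a8 b1 b2 b3 b4 b5 b6 b7 b8 heq
    rw [Prod.mk.injEq] at heq
    obtain ⟨e1, e2⟩ := heq
    have e3 : X ++ Y = X' ++ Y' := pf_inj ho (ok_append.mpr ⟨a1.br.saw.2, a3.br.saw.2⟩)
      (ok_append.mpr ⟨b1.br.saw.2, b3.br.saw.2⟩) (a8.trans b8.symm) e1
    have e4 : wd X = wd X' := by exact_mod_cast e2
    have s1 : Spl (wd X) (X ++ Y) X Y := ⟨rfl, a1.br, a3⟩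
    have s2 : Spl (wd X) (X ++ Y) X' Y' := ⟨e3, by rw [e4]; exact b1.br, b3⟩
    obtain ⟨rfl, rfl⟩ := s1.unique s2
    rfl
  · rintro ⟨X, Y⟩ ⟨⟨⟨⟨a1, a2⟩, ⟨a3, a4⟩, a5⟩, hX0, a6, a7⟩, a8⟩
    simp only at a1 a2 a3 a4 a5 a6 a7 a8 hX0 ⊢
    have hcut := cut_pf o a1 a3 a6
    rw [a8] at hcut
    have hct := H982F.ct_eq hcut
    refine ⟨?_, ?_⟩
    · rw [mem_BrSet]
      have h1 := fbr_pf ho (a1.br.append a3.br)
      rw [a8] at h1
      refine ⟨h1, ?_⟩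
      rw [pf_ge o a8.le]
      simp only [dx_append]
      have := a1.wd_eq_dx
      have := a3.wd_eq_dx
      push_cast
      omega
    · unfold JA
      simp only [Finset.mem_filter, Finset.mem_Icc]
      have := a1.wd_pos hX0
      refine ⟨⟨by omega, by push_cast; omega⟩, ?_⟩
      unfold FL
      rw [hct]
      refine ⟨hcut, ?_, a7⟩
      rw [fl_pf o a1]
      have h1 := saw_pf ho (saw_fold a1 a3 a5)
      have h2 : (X ++ sg Y).length = N := by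
        rw [← a8]; simp
      rw [h2] at h1
      exact h1
  · intro p _
    exact le_rfl

lemma PE_split (N W : ℕ) : coeff N (Es W) ≤ 2 * coeff N (Us W) +
    2 * ((∑ w ∈ BrSet N (2 * W), (JA N (2 * W) w).card : ℕ) : ℝ≥0∞) := by
  rw [coeff_Es]
  have h1 : ∑' p : LL, ind ((p.1 = [] ∧ IsB p.2 ∧ wd p.2 ≤ W) ∧ (p.1 ++ p.2).length = N) * 1 ≤
      coeff N (Us W) := by
    rw [coeff_Us]
    refine tsum_inj _ _ _ _ (fun p : LL => p.2) ?_ ?_ ?_
    · rintro ⟨X, Y⟩ ⟨X', Y'⟩ ⟨⟨a1, a2, a3⟩, a4⟩ ⟨⟨b1, b2, b3⟩, b4⟩ h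
      simp only at a1 b1 h
      rw [a1, b1, h]
    · rintro ⟨X, Y⟩ ⟨⟨a1, a2, a3⟩, a4⟩
      simp only at a1 a2 a3 a4 ⊢
      rw [a1] at a4
      exact ⟨⟨a2, a3⟩, by simpa using a4⟩
    · intro p _
      exact le_rfl
  have h2 : ∑' p : LL, ind ((p.2 = [] ∧ IsB p.1 ∧ wd p.1 ≤ W) ∧ (p.1 ++ p.2).length = N) * 1 ≤
      coeff N (Us W) := by
    rw [coeff_Us]
    refine tsum_inj _ _ _ _ (fun p : LL => p.1) ?_ ?_ ?_
    · rintro ⟨X, Y⟩ ⟨X', Y'⟩ ⟨⟨a1, a2, a3⟩, a4⟩ ⟨⟨b1, b2, b3⟩, b4⟩ h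
      simp only at a1 b1 h
      rw [a1, b1, h]
    · rintro ⟨X, Y⟩ ⟨⟨a1, a2, a3⟩, a4⟩
      simp only at a1 a2 a3 a4 ⊢
      rw [a1] at a4
      exact ⟨⟨a2, a3⟩, by simpa using a4⟩
    · intro p _
      exact le_rfl
  have h3 := PU_le (o := 1) (Or.inl rfl) N W
  have h3' := PU_le (o := -1) (Or.inr rfl) N W
  calc ∑' p : LL, ind (PE W p ∧ (p.1 ++ p.2).length = N) * 1
      ≤ ∑' p : LL, ((ind ((p.1 = [] ∧ IsB p.2 ∧ wd p.2 ≤ W) ∧ (p.1 ++ p.2).length = N) * 1 +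
        ind ((p.2 = [] ∧ IsB p.1 ∧ wd p.1 ≤ W) ∧ (p.1 ++ p.2).length = N) * 1) +
        (ind (PU 1 W p ∧ (p.1 ++ p.2).length = N) * 1 +
        ind (PU (-1) W p ∧ (p.1 ++ p.2).length = N) * 1)) := by
        apply ENNReal.tsum_le_tsum
        intro p
        by_cases hp : PE W p ∧ (p.1 ++ p.2).length = N
        · rw [ind_of hp, one_mul]
          obtain ⟨⟨⟨a1, a2⟩, ⟨a3, a4⟩, a5⟩, a6⟩ := hp
          by_cases hX : p.1 = []
          · rw [ind_of (p := (p.1 = [] ∧ IsB p.2 ∧ wd p.2 ≤ W) ∧ (p.1 ++ p.2).length = N)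
              ⟨⟨hX, a3, a4⟩, a6⟩, one_mul, add_assoc]
            exact le_self_add
          · by_cases hY : p.2 = []
            · rw [ind_of (p := (p.2 = [] ∧ IsB p.1 ∧ wd p.1 ≤ W) ∧ (p.1 ++ p.2).length = N)
                ⟨⟨hY, a1, a2⟩, a6⟩, one_mul]
              exact le_trans le_add_self le_self_add
            · obtain ⟨o, ho, h4⟩ := up_cases a1 a3 hX hY a5
              rcases ho with rfl | rfl
              · rw [ind_of (p := PU 1 W p ∧ (p.1 ++ p.2).length = N)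
                  ⟨⟨⟨⟨a1, a2⟩, ⟨a3, a4⟩, a5⟩, hX, hY, h4⟩, a6⟩, one_mul]
                exact le_trans le_self_add le_add_self
              · rw [ind_of (p := PU (-1) W p ∧ (p.1 ++ p.2).length = N)
                  ⟨⟨⟨⟨a1, a2⟩, ⟨a3, a4⟩, a5⟩, hX, hY, h4⟩, a6⟩, one_mul]
                exact le_trans le_add_self le_add_self
        · rw [ind_not hp, zero_mul]; exact zero_le
    _ = (∑' p : LL, ind ((p.1 = [] ∧ IsB p.2 ∧ wd p.2 ≤ W) ∧ (p.1 ++ p.2).length = N) * 1 +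
        ∑' p : LL, ind ((p.2 = [] ∧ IsB p.1 ∧ wd p.1 ≤ W) ∧ (p.1 ++ p.2).length = N) * 1) +
        (∑' p : LL, ind (PU 1 W p ∧ (p.1 ++ p.2).length = N) * 1 +
        ∑' p : LL, ind (PU (-1) W p ∧ (p.1 ++ p.2).length = N) * 1) := by
        rw [ENNReal.tsum_add, ENNReal.tsum_add, ENNReal.tsum_add]
    _ ≤ (coeff N (Us W) + coeff N (Us W)) +
        (((∑ w ∈ BrSet N (2 * W), (JA N (2 * W) w).card : ℕ) : ℝ≥0∞) +
        ((∑ w ∈ BrSet N (2 * W), (JA N (2 * W) w).card : ℕ) : ℝ≥0∞)) :=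
        add_le_add (add_le_add h1 h2) (add_le_add h3 h3')
    _ = _ := by ring

end H982
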