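import Pool.Agent.H982R3.Lat

/-!
Self-avoiding walks as functions of time, for the three lattices.
-/

set_option linter.unusedSectionVars false

namespace H982F

open H982 (Kind)

variable [L : H982.Lat]

/-- Nearest neighbours (the honeycomb lattice is a subgraph of the square lattice, see `Al`). -/
def Adj (p q : ℤ × ℤ) : Prop :=
  match L.kind with
  | .tri => (q.1 = p.1 + 1 ∧ q.2 = p.2 + 1) ∨ (q.1 = p.1 + 1 ∧ q.2 = p.2 - 1) ∨
      (q.1 = p.1 - 1 ∧ q.2 = p.2 + 1) ∨ (q.1 = p.1 - 1 ∧ q.2 = p.2 - 1) ∨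
      (q.1 = p.1 ∧ q.2 = p.2 + 2) ∨ (q.1 = p.1 ∧ q.2 = p.2 - 2)
  | _ => (q.1 = p.1 + 1 ∧ q.2 = p.2) ∨ (q.1 = p.1 - 1 ∧ q.2 = p.2) ∨
      (q.1 = p.1 ∧ q.2 = p.2 + 1) ∨ (q.1 = p.1 ∧ q.2 = p.2 - 1)

/-- the pattern of the vertical steps (a condition only for the honeycomb lattice) -/
def Al (N : ℕ) (w : ℕ → ℤ × ℤ) : Prop :=
  match L.kind with
  | .hex => ∃ o : ℤ, (o = 1 ∨ o = -1) ∧ ∀ i, i < N →
      (w (i + 1)).2 - (w i).2 = 0 ∨ (w (i + 1)).2 - (w i).2 = o * (-1) ^ i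
  | _ => True

/-- parity condition for the vertices of the triangular lattice -/
def Par (p : ℤ × ℤ) : Prop := L.kind = .tri → (p.1 + p.2) % 2 = 0

/-- `w` is an `N`-step self-avoiding walk from the origin, extended by a constant after time `N`. -/
structure Saw (N : ℕ) (w : ℕ → ℤ × ℤ) : Prop where
  zero : w 0 = (0, 0)
  adj : ∀ i, i < N → Adj (w i) (w (i + 1))
  inj : ∀ i k, i ≤ N → k ≤ N → w i = w k → i = k
  const : ∀ i, N ≤ i → w i = w N
  al : Al N w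

theorem Al.congr {N : ℕ} {w v : ℕ → ℤ × ℤ} (h : Al N w) (hv : ∀ i, i ≤ N → (v i).2 = (w i).2) :
    Al N v := by
  unfold Al at *
  cases hk : L.kind with
  | sq => trivial
  | tri => trivial
  | hex =>
    simp only [hk] at h ⊢
    obtain ⟨o, ho, h⟩ := h
    refine ⟨o, ho, fun i hi => ?_⟩
    rw [hv i (by omega), hv (i + 1) (by omega)]
    exact h i hi

theorem Adj.abs_fst {p q : ℤ × ℤ} (h : Adj p q) : q.1 ≤ p.1 + 1 ∧ p.1 ≤ q.1 + 1 := by
  unfold Adj at h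
  cases hk : L.kind <;> simp only [hk] at h <;> omega

theorem Adj.abs_snd {p q : ℤ × ℤ} (h : Adj p q) : q.2 ≤ p.2 + 2 ∧ p.2 ≤ q.2 + 2 := by
  unfold Adj at h
  cases hk : L.kind <;> simp only [hk] at h <;> omega

theorem Adj.refl2 {p q : ℤ × ℤ} (h : Adj p q) (c : ℤ) :
    Adj (2 * c - p.1, p.2) (2 * c - q.1, q.2) := by
  unfold Adj at *
  cases hk : L.kind <;> simp only [hk] at h ⊢ <;> omega

theorem Adj.shift {p q : ℤ × ℤ} (h : Adj p q) (c : ℤ) :
    Adj (p.1 - 2 * c, p.2) (q.1 - 2 * c, q.2) := by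
  unfold Adj at *
  cases hk : L.kind <;> simp only [hk] at h ⊢ <;> omega

theorem Adj.par {p q : ℤ × ℤ} (h : Adj p q) (hp : Par p) : Par q := by
  intro hk
  have := hp hk
  unfold Adj at h
  simp only [hk] at h
  omega

/-- a step upwards in the same column or (triangular lattice) into a neighbouring column -/
theorem Adj.cases_up {p q : ℤ × ℤ} (h : Adj p q) (hu : p.2 < q.2) :
    (p.1 = q.1 ∧ ((L.kind = .tri ∧ q.2 = p.2 + 2) ∨ (L.kind ≠ .tri ∧ q.2 = p.2 + 1))) ∨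
    (L.kind = .tri ∧ q.2 = p.2 + 1 ∧ (p.1 = q.1 + 1 ∨ p.1 = q.1 - 1)) := by
  unfold Adj at h
  cases hk : L.kind <;> simp only [hk] at h <;> simp <;> omega

theorem Saw.par {N : ℕ} {w : ℕ → ℤ × ℤ} (h : Saw N w) (i : ℕ) : Par (w i) := by
  have key : ∀ i, i ≤ N → Par (w i) := by
    intro i
    induction i with
    | zero => intro _ _; rw [h.zero]; rfl
    | succ i ih => intro hi; exact (h.adj i hi).par (ih (by omega))
  rcases le_or_gt i N with hi | hi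
  · exact key i hi
  · rw [h.const i hi.le]; exact key N le_rfl

theorem Par.refl2 {p : ℤ × ℤ} (h : Par p) (c : ℤ) : Par (2 * c - p.1, p.2) := by
  intro hk
  have := h hk
  simp only
  omega

theorem Par.shift {p : ℤ × ℤ} (h : Par p) (c : ℤ) : Par (p.1 - 2 * c, p.2) := by
  intro hk
  have := h hk
  simp only
  omega

theorem Saw.bound {N : ℕ} {w : ℕ → ℤ × ℤ} (h : Saw N w) :
    ∀ i, i ≤ N → |(w i).1| ≤ 2 * i ∧ |(w i).2| ≤ 2 * i := by
  intro i
  induction i with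
  | zero => intro _; simp [h.zero]
  | succ n ih =>
    intro hn
    have h1 := ih (by omega)
    have h2 := (h.adj n (by omega)).abs_fst
    have h3 := (h.adj n (by omega)).abs_snd
    rw [abs_le, abs_le] at *
    push_cast
    omega

theorem saw_finite (N : ℕ) : {w : ℕ → ℤ × ℤ | Saw N w}.Finite := by
  -- inject into functions Fin (N+1) → box
  have hfin : (Set.univ.pi (fun _ : Fin (N+1) =>
      ((Finset.Icc (-(2 * N:ℤ)) (2 * N) ×ˢ Finset.Icc (-(2 * N:ℤ)) (2 * N) : Finset (ℤ × ℤ)) :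
        Set (ℤ × ℤ)))).Finite :=
    Set.Finite.pi (fun _ => Finset.finite_toSet _)
  refine Set.Finite.of_finite_image (f := fun w (i : Fin (N+1)) => w i) (hfin.subset ?_) ?_
  · rintro _ ⟨w, hw, rfl⟩
    intro i _
    have := hw.bound i (by omega)
    have hi : (i : ℕ) ≤ N := by omega
    rw [abs_le, abs_le] at this
    simp only [Finset.coe_product, Finset.coe_Icc, Set.mem_prod, Set.mem_Icc]
    omega
  · intro w hw w' hw' heq
    funext i
    have key : ∀ i, i ≤ N → w i = w' i := by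
      intro i hi
      have := congrFun heq ⟨i, by omega⟩
      simpa using this
    rcases le_or_gt i N with h | h
    · exact key i h
    · rw [hw.const i h.le, hw'.const i h.le]
      exact key N le_rfl

/-- The finite set of `N`-step self-avoiding walks from the origin. -/
noncomputable def SawSet (N : ℕ) : Finset (ℕ → ℤ × ℤ) := (saw_finite N).toFinset

theorem mem_SawSet {N : ℕ} {w : ℕ → ℤ × ℤ} : w ∈ SawSet N ↔ Saw N w := by
  simp [SawSet]

/-- `m` is a cut level of the walk `w`, crossed (only) at time `τ`. -/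
def Cut (N : ℕ) (w : ℕ → ℤ × ℤ) (m : ℤ) (τ : ℕ) : Prop :=
  τ < N ∧ (∀ i, i ≤ τ → (w i).1 ≤ m) ∧ (∀ i, τ < i → m + 1 ≤ (w i).1)

/-- Reflect the part of the walk after time `τ` in the line `x = m`. -/
def fl (w : ℕ → ℤ × ℤ) (m : ℤ) (τ : ℕ) : ℕ → ℤ × ℤ :=
  fun i => if i ≤ τ then w i else (2 * m - (w i).1, (w i).2)

/-- The Z-fold: keep `[0,t]`, reflect `(t,t']` in `x = j`, translate the rest by `-2(j'-j)`. -/
def zf (w : ℕ → ℤ × ℤ) (j j' : ℤ) (t t' : ℕ) : ℕ → ℤ × ℤ :=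
  fun i => if i ≤ t then w i else if i ≤ t' then (2 * j - (w i).1, (w i).2)
    else ((w i).1 - 2 * (j' - j), (w i).2)

/-- The walk arrives from below at time `t`, and if it arrives by a diagonal step (triangular
lattice) it also leaves upwards. -/
def Up (w : ℕ → ℤ × ℤ) (t : ℕ) : Prop :=
  1 ≤ t ∧ (w (t - 1)).2 < (w t).2 ∧ ((w (t - 1)).1 = (w t).1 ∨ (w t).2 < (w (t + 1)).2)

theorem Cut.spec {N : ℕ} {w : ℕ → ℤ × ℤ} {m : ℤ} {τ : ℕ} (hw : Saw N w) (h : Cut N w m τ) :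
    (w τ).1 = m ∧ (w (τ + 1)).1 = m + 1 := by
  obtain ⟨h1, h2, h3⟩ := h
  have a := (hw.adj τ h1).abs_fst
  have b := h2 τ le_rfl
  have c := h3 (τ + 1) (by omega)
  omega

theorem fl_le {w : ℕ → ℤ × ℤ} {m : ℤ} {τ i : ℕ} (h : i ≤ τ) : fl w m τ i = w i := by
  simp [fl, h]

theorem fl_gt {w : ℕ → ℤ × ℤ} {m : ℤ} {τ i : ℕ} (h : τ < i) :
    fl w m τ i = (2 * m - (w i).1, (w i).2) := by
  simp [fl, Nat.not_le.mpr h]

theorem zf_le {w : ℕ → ℤ × ℤ} {j j' : ℤ} {t t' i : ℕ} (h : i ≤ t) : zf w j j' t t' i = w i := by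
  simp [zf, h]

theorem zf_mid {w : ℕ → ℤ × ℤ} {j j' : ℤ} {t t' i : ℕ} (h : t < i) (h' : i ≤ t') :
    zf w j j' t t' i = (2 * j - (w i).1, (w i).2) := by
  simp [zf, Nat.not_le.mpr h, h']

theorem zf_gt {w : ℕ → ℤ × ℤ} {j j' : ℤ} {t t' i : ℕ} (h : t < i) (h' : t' < i) :
    zf w j j' t t' i = ((w i).1 - 2 * (j' - j), (w i).2) := by
  simp [zf, Nat.not_le.mpr h, Nat.not_le.mpr h']

/-- The last time at which the walk is at level at most `m`. -/
noncomputable def ct (N : ℕ) (w : ℕ → ℤ × ℤ) (m : ℤ) : ℕ :=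
  Nat.findGreatest (fun i => (w i).1 ≤ m) N

theorem ct_eq {N : ℕ} {w : ℕ → ℤ × ℤ} {m : ℤ} {τ : ℕ} (h : Cut N w m τ) : ct N w m = τ := by
  unfold ct
  rw [Nat.findGreatest_eq_iff]
  refine ⟨h.1.le, fun _ => h.2.1 τ le_rfl, fun n h1 _ h2 => ?_⟩
  have := h.2.2 n h1
  omega

/-- bridges, as functions -/
structure FBr (N : ℕ) (w : ℕ → ℤ × ℤ) : Prop where
  saw : Saw N w
  pos : ∀ i, 1 ≤ i → i ≤ N → 0 < (w i).1
  le : ∀ i, i ≤ N → (w i).1 ≤ (w N).1

open scoped Classical in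
/-- the set of `N`-step bridges of width at most `W` -/
noncomputable def BrSet (N W : ℕ) : Finset (ℕ → ℤ × ℤ) :=
  (SawSet N).filter (fun w => FBr N w ∧ (w N).1 ≤ W)

theorem mem_BrSet {N W : ℕ} {w : ℕ → ℤ × ℤ} : w ∈ BrSet N W ↔ FBr N w ∧ (w N).1 ≤ W := by
  classical
  unfold BrSet
  simp only [Finset.mem_filter, mem_SawSet]
  exact ⟨fun h => h.2, fun h => ⟨h.1.saw, h⟩⟩

/-- foldable cut levels -/
def FL (N : ℕ) (w : ℕ → ℤ × ℤ) (m : ℤ) : Prop :=
  Cut N w m (ct N w m) ∧ Saw N (fl w m (ct N w m)) ∧ Up w (ct N w m)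

open scoped Classical in
noncomputable def JA (N W : ℕ) (w : ℕ → ℤ × ℤ) : Finset ℤ :=
  (Finset.Icc (1 : ℤ) W).filter (fun m => FL N w m)

end H982F
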