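import Pool.Agent.H982R3.FDefs

/-!
Parity of the number of edges above a point: a discrete Jordan-curve substitute, for the square
and the triangular lattice.
-/

set_option linter.unusedSectionVars false

namespace H982F

open H982 (Kind)

variable [L : H982.Lat]

/-- Indicator that the edge `p q` joins the columns `x-1` and `x`, and has mean height bigger
than `y`. -/
def eInd (p q : ℤ × ℤ) (x y : ℤ) : ZMod 2 :=
  if 2 * y < p.2 + q.2 ∧ ((p.1 = x - 1 ∧ q.1 = x) ∨ (p.1 = x ∧ q.1 = x - 1)) then 1 else 0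

/-- Indicator that `p` lies in the column `x` above height `y`. -/
def sIn (p : ℤ × ℤ) (x y : ℤ) : ZMod 2 := if p.1 = x ∧ y < p.2 then 1 else 0

/-- Indicator that the edge `p q` is vertical in the column `x` and crosses the height `y`. -/
def vInd (p q : ℤ × ℤ) (x y : ℤ) : ZMod 2 :=
  if p.1 = x ∧ q.1 = x ∧ ((y < p.2 ∧ q.2 ≤ y) ∨ (y < q.2 ∧ p.2 ≤ y)) then 1 else 0

theorem eInd_gen {p q : ℤ × ℤ} (h : Adj p q) (hp : Par p) (x y : ℤ)
    (hav : L.kind = .tri → (x + y) % 2 = 0 → p ≠ (x, y) ∧ q ≠ (x, y)) :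
    eInd p q x y + eInd p q (x + 1) y = sIn p x y + sIn q x y + vInd p q x y := by
  obtain ⟨p1, p2⟩ := p
  obtain ⟨q1, q2⟩ := q
  simp only [ne_eq, Prod.mk.injEq] at hav
  cases hk : L.kind with
  | tri =>
    have hp' := hp hk
    have hav' := hav hk
    simp only [Adj, hk] at h
    simp only at hp'
    simp only [eInd, sIn, vInd]
    split_ifs <;> first | rfl | decide | (exfalso; omega)
  | sq =>
    simp only [Adj, hk] at h
    simp only [eInd, sIn, vInd]
    split_ifs <;> first | rfl | decide | (exfalso; omega)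
  | hex =>
    simp only [Adj, hk] at h
    simp only [eInd, sIn, vInd]
    split_ifs <;> first | rfl | decide | (exfalso; omega)

theorem vInd_avoid {p q : ℤ × ℤ} (h : Adj p q) (hp : Par p) (x y : ℤ)
    (hxy : L.kind = .tri → (x + y) % 2 = 0) (hp0 : p ≠ (x, y)) (hq0 : q ≠ (x, y)) :
    vInd p q x y = 0 := by
  obtain ⟨p1, p2⟩ := p
  obtain ⟨q1, q2⟩ := q
  simp only [ne_eq, Prod.mk.injEq] at hp0 hq0
  unfold vInd
  rw [if_neg]
  cases hk : L.kind with
  | tri =>
    have hp' := hp hk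
    have hxy' := hxy hk
    simp only [Adj, hk] at h
    simp only at hp' ⊢
    omega
  | sq =>
    simp only [Adj, hk] at h
    simp only
    omega
  | hex =>
    simp only [Adj, hk] at h
    simp only
    omega

theorem eInd_horiz {p q : ℤ × ℤ} (h : Adj p q) (hp : Par p) (x y : ℤ)
    (hxy : L.kind = .tri → (x + y) % 2 = 0) (hp0 : p ≠ (x, y)) (hq0 : q ≠ (x, y)) :
    eInd p q x y + eInd p q (x + 1) y = sIn p x y + sIn q x y := by
  rw [eInd_gen h hp x y (fun _ _ => ⟨hp0, hq0⟩), vInd_avoid h hp x y hxy hp0 hq0, add_zero]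

/-- Moving the point along an edge of the lattice which is vertical (square lattice). -/
theorem eInd_vert {p q : ℤ × ℤ} (h : Adj p q) (hp : Par p) {P Q : ℤ × ℤ} (hPQ : Adj P Q)
    (hP : Par P) (hx : P.1 = Q.1) (h1 : p ≠ P) (h2 : q ≠ P) (h3 : p ≠ Q) (h4 : q ≠ Q) :
    eInd p q P.1 P.2 = eInd p q Q.1 Q.2 := by
  obtain ⟨p1, p2⟩ := p
  obtain ⟨q1, q2⟩ := q
  obtain ⟨P1, P2⟩ := P
  obtain ⟨Q1, Q2⟩ := Q
  simp only [ne_eq, Prod.mk.injEq] at h1 h2 h3 h4 hx
  subst hx
  cases hk : L.kind with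
  | tri =>
    have hp' := hp hk
    have hP' := hP hk
    simp only [Adj, hk] at h hPQ
    simp only at hp' hP'
    simp only [eInd]
    split_ifs <;> first | rfl | decide | (exfalso; omega)
  | sq =>
    simp only [Adj, hk] at h hPQ
    simp only [eInd]
    split_ifs <;> first | rfl | decide | (exfalso; omega)
  | hex =>
    simp only [Adj, hk] at h hPQ
    simp only [eInd]
    split_ifs <;> first | rfl | decide | (exfalso; omega)

/-- Comparison of the heights of two adjacent points, in the gap between them. -/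
theorem eInd_diag {p q : ℤ × ℤ} (h : Adj p q) (hp : Par p) {P Q : ℤ × ℤ} (hPQ : Adj P Q)
    (hP : Par P) (hx : Q.1 = P.1 + 1) (h1 : p ≠ P) (h2 : q ≠ P) (h3 : p ≠ Q) (h4 : q ≠ Q) :
    eInd p q Q.1 P.2 = eInd p q Q.1 Q.2 := by
  obtain ⟨p1, p2⟩ := p
  obtain ⟨q1, q2⟩ := q
  obtain ⟨P1, P2⟩ := P
  obtain ⟨Q1, Q2⟩ := Q
  simp only [ne_eq, Prod.mk.injEq] at h1 h2 h3 h4 hx
  subst hx
  cases hk : L.kind with
  | tri =>
    have hp' := hp hk
    have hP' := hP hk
    simp only [Adj, hk] at h hPQ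
    simp only at hp' hP'
    simp only [eInd]
    split_ifs <;> first | rfl | decide | (exfalso; omega)
  | sq =>
    simp only [Adj, hk] at h hPQ
    simp only [eInd]
    split_ifs <;> first | rfl | decide | (exfalso; omega)
  | hex =>
    simp only [Adj, hk] at h hPQ
    simp only [eInd]
    split_ifs <;> first | rfl | decide | (exfalso; omega)

/-- Number mod 2 of edges of `γ[a..b]` between columns `x-1` and `x` above height `y`. -/
def U (γ : ℕ → ℤ × ℤ) (a b : ℕ) (x y : ℤ) : ZMod 2 :=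
  ∑ i ∈ Finset.Ico a b, eInd (γ i) (γ (i + 1)) x y

/-- Number mod 2 of vertical edges of `γ[a..b]` in the column `x` crossing the height `y`. -/
def Vc (γ : ℕ → ℤ × ℤ) (a b : ℕ) (x y : ℤ) : ZMod 2 :=
  ∑ i ∈ Finset.Ico a b, vInd (γ i) (γ (i + 1)) x y

theorem add_self_two (a : ZMod 2) : a + a = 0 := CharTwo.add_self_eq_zero a

theorem U_gen (γ : ℕ → ℤ × ℤ) (a b : ℕ) (hab : a ≤ b) (x y : ℤ)
    (hadj : ∀ i, a ≤ i → i < b → Adj (γ i) (γ (i + 1))) (hpar : ∀ i, a ≤ i → i ≤ b → Par (γ i))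
    (hav : ∀ i, a ≤ i → i ≤ b → L.kind = .tri → (x + y) % 2 = 0 → γ i ≠ (x, y)) :
    U γ a b x y + U γ a b (x + 1) y = sIn (γ a) x y + sIn (γ b) x y + Vc γ a b x y := by
  induction b, hab using Nat.le_induction with
  | base => simp [U, Vc, add_self_two]
  | succ b hab ih =>
    have ih' := ih (fun i h1 h2 => hadj i h1 (by omega)) (fun i h1 h2 => hpar i h1 (by omega))
      (fun i h1 h2 => hav i h1 (by omega))
    have h1 := eInd_gen (hadj b hab (by omega)) (hpar b hab (by omega)) x y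
      (fun h2 h3 => ⟨hav b hab (by omega) h2 h3, hav (b + 1) (by omega) le_rfl h2 h3⟩)
    simp only [U, Vc] at *
    rw [Finset.sum_Ico_succ_top hab, Finset.sum_Ico_succ_top hab, Finset.sum_Ico_succ_top hab]
    have : ∀ A B c d s t u V v : ZMod 2, A + B = s + t + V → c + d = t + u + v →
        A + c + (B + d) = s + u + (V + v) := by
      decide
    exact this _ _ _ _ _ _ _ _ _ ih' h1

theorem U_horiz (γ : ℕ → ℤ × ℤ) (a b : ℕ) (hab : a ≤ b) (x y : ℤ)
    (hadj : ∀ i, a ≤ i → i < b → Adj (γ i) (γ (i + 1))) (hpar : ∀ i, a ≤ i → i ≤ b → Par (γ i))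
    (hxy : L.kind = .tri → (x + y) % 2 = 0)
    (hav : ∀ i, a ≤ i → i ≤ b → γ i ≠ (x, y)) :
    U γ a b x y + U γ a b (x + 1) y = sIn (γ a) x y + sIn (γ b) x y := by
  rw [U_gen γ a b hab x y hadj hpar (fun i h1 h2 _ _ => hav i h1 h2)]
  have : Vc γ a b x y = 0 := by
    unfold Vc
    refine Finset.sum_eq_zero (fun i hi => ?_)
    rw [Finset.mem_Ico] at hi
    exact vInd_avoid (hadj i hi.1 hi.2) (hpar i hi.1 (by omega)) x y hxy (hav i hi.1 (by omega))
      (hav (i + 1) (by omega) (by omega))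
  rw [this, add_zero]

theorem eq_of_add_zero (a b : ZMod 2) (h : a + b = 0) : a = b := by
  revert a b; decide

/-- The parity is constant along a path avoiding `γ` and staying in columns which do not
contain endpoints of `γ`. -/
theorem U_const (γ δ : ℕ → ℤ × ℤ) (a b p q : ℕ) (lo hi : ℤ) (hab : a ≤ b) (hpq : p ≤ q)
    (hadj : ∀ i, a ≤ i → i < b → Adj (γ i) (γ (i + 1)))
    (hδ : ∀ k, p ≤ k → k < q → Adj (δ k) (δ (k + 1)))
    (hpar : ∀ i, a ≤ i → i ≤ b → Par (γ i)) (hpar' : ∀ k, p ≤ k → k ≤ q → Par (δ k))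
    (hcol : ∀ k, p ≤ k → k ≤ q → lo ≤ (δ k).1 ∧ (δ k).1 ≤ hi)
    (hav : ∀ k, p ≤ k → k ≤ q → ∀ i, a ≤ i → i ≤ b → γ i ≠ δ k)
    (ha : (γ a).1 < lo ∨ hi ≤ (γ a).1) (hb : (γ b).1 < lo ∨ hi ≤ (γ b).1) :
    U γ a b (δ p).1 (δ p).2 = U γ a b (δ q).1 (δ q).2 := by
  induction q, hpq using Nat.le_induction with
  | base => rfl
  | succ q hpq ih =>
    rw [ih (fun k h1 h2 => hδ k h1 (by omega)) (fun k h1 h2 => hpar' k h1 (by omega))
      (fun k h1 h2 => hcol k h1 (by omega)) (fun k h1 h2 => hav k h1 (by omega))]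
    have h0 := hδ q hpq (by omega)
    have hc := hcol q hpq (by omega)
    have hc' := hcol (q + 1) (by omega) le_rfl
    have av := hav q hpq (by omega)
    have av' := hav (q + 1) (by omega) le_rfl
    have hP := hpar' q hpq (by omega)
    have hQ := hpar' (q + 1) (by omega) le_rfl
    -- a step to the right
    have hright : ∀ (P Q : ℤ × ℤ), Adj P Q → Par P → Par Q → Q.1 = P.1 + 1 → lo ≤ P.1 → Q.1 ≤ hi →
        (∀ i, a ≤ i → i ≤ b → γ i ≠ P) → (∀ i, a ≤ i → i ≤ b → γ i ≠ Q) →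
        U γ a b P.1 P.2 = U γ a b Q.1 Q.2 := by
      intro P Q hA hP hQ hx h1 h2 avP avQ
      have e0 : U γ a b P.1 P.2 = U γ a b (P.1 + 1) P.2 := by
        apply eq_of_add_zero
        rw [U_horiz γ a b hab P.1 P.2 hadj hpar (fun hk => hP hk) (fun i h3 h4 => avP i h3 h4)]
        have e1 : sIn (γ a) P.1 P.2 = 0 := by
          unfold sIn; rw [if_neg]; omega
        have e2 : sIn (γ b) P.1 P.2 = 0 := by
          unfold sIn; rw [if_neg]; omega
        rw [e1, e2, add_zero]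
      rw [e0, ← hx]
      unfold U
      refine Finset.sum_congr rfl (fun i hi' => ?_)
      rw [Finset.mem_Ico] at hi'
      exact eInd_diag (hadj i hi'.1 hi'.2) (hpar i hi'.1 (by omega)) hA hP hx
        (avP i hi'.1 (by omega)) (avP (i + 1) (by omega) (by omega)) (avQ i hi'.1 (by omega))
        (avQ (i + 1) (by omega) (by omega))
    have hsymm : ∀ P Q : ℤ × ℤ, Adj P Q → Adj Q P := by
      intro P Q h
      unfold Adj at *
      cases hk : L.kind <;> simp only [hk] at h ⊢ <;> omega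
    have hx := h0.abs_fst
    rcases lt_trichotomy (δ q).1 (δ (q + 1)).1 with hlt | heq | hgt
    · exact hright _ _ h0 hP hQ (by omega) hc.1 hc'.2 av av'
    · unfold U
      refine Finset.sum_congr rfl (fun i hi' => ?_)
      rw [Finset.mem_Ico] at hi'
      exact eInd_vert (hadj i hi'.1 hi'.2) (hpar i hi'.1 (by omega)) h0 hP heq
        (av i hi'.1 (by omega)) (av (i + 1) (by omega) (by omega)) (av' i hi'.1 (by omega))
        (av' (i + 1) (by omega) (by omega))
    · exact (hright _ _ (hsymm _ _ h0) hQ hP (by omega) hc'.1 hc.2 av' av).symm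

theorem eInd_eq_zero {p q : ℤ × ℤ} {x y : ℤ} (h : p.1 ≠ x ∧ q.1 ≠ x ∨ p.1 ≠ x - 1 ∧ q.1 ≠ x - 1) :
    eInd p q x y = 0 := by
  unfold eInd
  rw [if_neg]
  omega

theorem U_eq_zero {γ : ℕ → ℤ × ℤ} {a b : ℕ} {x y : ℤ}
    (h : ∀ i, a ≤ i → i < b →
      ((γ i).1 ≠ x ∧ (γ (i + 1)).1 ≠ x) ∨ ((γ i).1 ≠ x - 1 ∧ (γ (i + 1)).1 ≠ x - 1)) :
    U γ a b x y = 0 := by
  unfold U
  refine Finset.sum_eq_zero (fun i hi => ?_)
  rw [Finset.mem_Ico] at hi
  exact eInd_eq_zero (h i hi.1 hi.2)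

theorem U_split (γ : ℕ → ℤ × ℤ) {a b c : ℕ} (hab : a ≤ b) (hbc : b ≤ c) (x y : ℤ) :
    U γ a c x y = U γ a b x y + U γ b c x y := by
  unfold U
  rw [Finset.sum_Ico_consecutive _ hab hbc]

/-- mirror identity for the parity count -/
theorem U_mirror (w γ : ℕ → ℤ × ℤ) (j : ℤ) (hγ : ∀ i, γ i = (2 * j - (w i).1, (w i).2))
    (a b : ℕ) (x y : ℤ) : U γ a b x y = U w a b (2 * j - x + 1) y := by
  unfold U
  refine Finset.sum_congr rfl (fun i _ => ?_)
  rw [hγ, hγ]
  simp only [eInd]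
  split_ifs <;> first | rfl | (exfalso; omega)

end H982F
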