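import Pool.Agent.H982R3.RDefs

/-!
Counting foldable cut levels.
-/

set_option linter.unusedSectionVars false

namespace H982R

open H982F (Saw Adj Cut Up fl zf ct SawSet mem_SawSet FBr BrSet mem_BrSet)

variable [L : H982.Lat]

lemma Cnt_isV {N W : ℕ} {l A B : ℤ} {w : Wk} {m : ℤ} (hw : w ∈ BrSet N W)
    (hm : m ∈ H982F.JA N W w) (h1 : A ≤ m) (h2 : m < A + l) (h3 : B ≤ (w N).1 - m)
    (h4 : (w N).1 - m < B + l) :
    IsV N l A B (rf w (ct N w m)) ∧ ct N w m < N ∧ Saw N w ∧ Cut N w m (ct N w m) ∧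
      (w (ct N w m)).1 = m := by
  classical
  rw [mem_BrSet] at hw
  unfold H982F.JA at hm
  simp only [Finset.mem_filter, Finset.mem_Icc] at hm
  obtain ⟨-, hcut, hsaw, hup⟩ := hm
  set j := ct N w m with hj
  have hwj : (w j).1 = m := (hcut.spec hw.1.saw).1
  have hCT : CT N w j := by
    unfold CT; rw [hwj]; exact hcut
  -- ta
  have hex : ∃ t, CT N w t ∧ A ≤ (w t).1 := ⟨j, hCT, by omega⟩
  set ta := Nat.find hex with hta
  have ta1 := Nat.find_spec hex
  rw [← hta] at ta1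
  have ta2 : ta ≤ j := Nat.find_min' hex ⟨hCT, by omega⟩
  -- td
  set td := Nat.findGreatest (fun t => CT N w t ∧ B ≤ (w N).1 - (w t).1) N with htd
  have hPj : CT N w j ∧ B ≤ (w N).1 - (w j).1 := ⟨hCT, by omega⟩
  have td1 : CT N w td ∧ B ≤ (w N).1 - (w td).1 :=
    Nat.findGreatest_spec (P := fun t => CT N w t ∧ B ≤ (w N).1 - (w t).1) hcut.1.le hPj
  have td2 : j ≤ td :=
    Nat.le_findGreatest (P := fun t => CT N w t ∧ B ≤ (w N).1 - (w t).1) hcut.1.le hPj
  have e1 : (w ta).1 ≤ m := by rw [← hwj]; exact hCT.2.1 ta ta2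
  have e2 : m ≤ (w td).1 := by rw [← hwj]; exact td1.1.2.1 j td2
  refine ⟨⟨w, ta, td, j, ?_, ?_, ?_, rfl⟩, hcut.1, hw.1.saw, hcut, hwj⟩
  · refine ⟨hw.1, ta1.1, td1.1, ta2.trans td2, ta1.2, by omega, ?_, td1.2, by omega, ?_⟩
    · intro t ht hAt
      exact Nat.find_min' hex ⟨ht, hAt⟩
    · intro t ht hBt
      exact Nat.le_findGreatest (P := fun t => CT N w t ∧ B ≤ (w N).1 - (w t).1) ht.1.le ⟨ht, hBt⟩
  · refine ⟨ta2, td2, hup, fun i hi => hCT.2.1 i hi, by omega, ?_⟩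
    intro i k hik hk _ heq
    unfold rf at heq
    rw [hwj] at heq
    have := hsaw.inj i k (by omega) hk heq
    omega
  · refine ⟨ta2, td2, hup, fun i hi => ?_, by omega, ?_⟩
    · have := hCT.2.2 i hi
      omega
    · intro i k hik hk _ heq
      unfold rf at heq
      rw [hwj] at heq
      have := hsaw.inj i k (by omega) hk heq
      omega

lemma Cnt_rf_fst {N : ℕ} {w : Wk} {m : ℤ} {j : ℕ} (hcut : Cut N w m j) (hwj : (w j).1 = m) :
    (rf w j j).1 = m ∧ (∀ i, i ≤ j → (rf w j i).1 ≤ m) ∧ (∀ i, j < i → (rf w j i).1 < m) := by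
  unfold rf
  refine ⟨?_, ?_, ?_⟩
  · rw [H982F.fl_le le_rfl]; exact hwj
  · intro i hi
    rw [H982F.fl_le hi]
    exact hcut.2.1 i hi
  · intro i hi
    rw [H982F.fl_gt hi, hwj]
    have := hcut.2.2 i hi
    simp only
    omega

/-- T8. Counting foldable cut levels. -/
theorem card_le_VV {N W : ℕ} {l A B : ℤ} (S : Finset (Wk × ℤ))
    (hS : ∀ p ∈ S, p.1 ∈ BrSet N W ∧ p.2 ∈ H982F.JA N W p.1 ∧ A ≤ p.2 ∧ p.2 < A + l ∧
      B ≤ (p.1 N).1 - p.2 ∧ (p.1 N).1 - p.2 < B + l) : S.card ≤ (VV N l A B).card := by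
  classical
  apply Finset.card_le_card_of_injOn (fun p : Wk × ℤ => rf p.1 (ct N p.1 p.2))
  · intro p hp
    obtain ⟨h1, h2, h3, h4, h5, h6⟩ := hS p hp
    obtain ⟨g1, g2, g3, g4, g5⟩ := Cnt_isV h1 h2 h3 h4 h5 h6
    simp only [VV, Finset.coe_filter, Set.mem_ofPred_eq, Finset.mem_image]
    refine ⟨⟨(p.1, ct N p.1 p.2), ?_, rfl⟩, g1⟩
    rw [Finset.mem_product]
    exact ⟨mem_SawSet.2 g3, Finset.mem_range.2 g2⟩
  · rintro ⟨w, m⟩ hp ⟨w', m'⟩ hp' heq
    obtain ⟨h1, h2, h3, h4, h5, h6⟩ := hS _ hp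
    obtain ⟨h1', h2', h3', h4', h5', h6'⟩ := hS _ hp'
    obtain ⟨g1, g2, g3, g4, g5⟩ := Cnt_isV h1 h2 h3 h4 h5 h6
    obtain ⟨g1', g2', g3', g4', g5'⟩ := Cnt_isV h1' h2' h3' h4' h5' h6'
    simp only at heq g1 g2 g3 g4 g5 g1' g2' g3' g4' g5'
    generalize ct N w m = j at heq g1 g2 g3 g4 g5
    generalize ct N w' m' = j' at heq g1' g2' g3' g4' g5'
    obtain ⟨a1, a2, a3⟩ := Cnt_rf_fst g4 g5
    obtain ⟨b1, b2, b3⟩ := Cnt_rf_fst g4' g5'
    have hle : ∀ i, (rf w j i).1 ≤ m := by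
      intro i
      rcases Nat.lt_or_ge j i with h | h
      · exact (a3 i h).le
      · exact a2 i h
    have hle' : ∀ i, (rf w' j' i).1 ≤ m' := by
      intro i
      rcases Nat.lt_or_ge j' i with h | h
      · exact (b3 i h).le
      · exact b2 i h
    have hmm : m = m' := by
      apply le_antisymm
      · have := hle' j
        rw [← heq, a1] at this
        exact this
      · have := hle j'
        rw [heq, b1] at this
        exact this
    subst hmm
    have hjj : j = j' := by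
      rcases lt_trichotomy j j' with h | h | h
      · have := a3 j' h
        rw [heq, b1] at this
        omega
      · exact h
      · have := b3 j h
        rw [← heq, a1] at this
        omega
    subst hjj
    congr 1
    funext i
    have hi := congrFun heq i
    unfold rf at hi
    rw [g5, g5'] at hi
    rcases Nat.lt_or_ge j i with h | h
    · rw [H982F.fl_gt h, H982F.fl_gt h, Prod.mk.injEq] at hi
      apply Prod.ext
      · omega
      · exact hi.2
    · rw [H982F.fl_le h, H982F.fl_le h] at hi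
      exact hi

theorem WW_width {N : ℕ} {l A B : ℤ} {w : Wk} (h : w ∈ WW N l A B) :
    FBr N w ∧ A + B ≤ (w N).1 ∧ (w N).1 < A + B + 5 * l := by
  classical
  unfold WW at h
  rw [Finset.mem_filter] at h
  obtain ⟨-, t, t', ⟨ta, td, hpq⟩, -, -⟩ := h
  have hom := hpq.om
  have e1 : (w ta).1 ≤ (w td).1 := hom.ctd.2.1 ta hom.le
  have e2 := hom.a1
  have e3 := hom.a2
  have e4 := hom.b1
  have e5 := hom.b2
  have e6 := hpq.gf.win
  have e7 := hpq.gb.win
  have e8 : (w ta).1 ≤ (w t).1 := hpq.gf.mx ta hpq.gf.h1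
  refine ⟨hom.br, by omega, ?_⟩
  rcases hpq.le.lt_or_eq with hlt | heq
  · have := hpq.c1 t' hlt le_rfl
    omega
  · rw [← heq] at e7
    omega

end H982R
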