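import Pool.Agent.H982R3.Chain
import Pool.Agent.H982R3.FPar

/-!
Words and functions.
-/

set_option linter.unusedSectionVars false

namespace H982

variable [L : Lat]

open scoped ENNReal
open PowerSeries

/-- the path of a word, with orientation `o = ±1` -/
def pf (o : ℤ) (w : List St) (i : ℕ) : ℤ × ℤ := (dx (w.take i), o * dy (w.take i))

lemma pf_zero (o : ℤ) (w : List St) : pf o w 0 = (0, 0) := by simp [pf]

lemma pf_succ (o : ℤ) {w : List St} {i : ℕ} (h : i < w.length) :
    (pf o w (i + 1)).1 = (pf o w i).1 + (w[i]).x ∧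
    (pf o w (i + 1)).2 = (pf o w i).2 + o * sgm ^ i * (w[i]).y := by
  unfold pf
  have h1 : w.take (i + 1) = w.take i ++ [w[i]] := List.take_succ_eq_append_getElem h
  have h2 : (w.take i).length = i := by rw [List.length_take]; omega
  rw [h1]
  constructor
  · rw [dx_append, dx_cons, dx_nil, add_zero]
  · rw [dy_append, dy_cons, dy_nil, mul_zero, add_zero, h2]; ring

lemma pf_ge (o : ℤ) {w : List St} {i : ℕ} (h : w.length ≤ i) : pf o w i = (dx w, o * dy w) := by
  unfold pf; rw [List.take_of_length_le h]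

omit L in
lemma infix_take_iff {w m : List St} :
    m <:+: w ↔ ∃ i j, i ≤ j ∧ j ≤ w.length ∧ w.take j = w.take i ++ m := by
  constructor
  · rintro ⟨s, t, rfl⟩
    refine ⟨s.length, s.length + m.length, by omega, by simp, ?_⟩
    have h1 : (s ++ m ++ t).take (s.length + m.length) = s ++ m := List.take_left' (by simp)
    have h2 : (s ++ m ++ t).take s.length = s := by
      rw [List.append_assoc]; exact List.take_left' rfl
    rw [h1, h2]
  · rintro ⟨i, j, -, -, h⟩
    refine ⟨w.take i, w.drop j, ?_⟩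
    rw [← h, List.take_append_drop]

lemma osg {o : ℤ} (ho : o = 1 ∨ o = -1) (i : ℕ) : o * sgm ^ i = 1 ∨ o * sgm ^ i = -1 := by
  rcases ho with h | h <;> rcases sgm_pow_cases i with h' | h' <;> rw [h, h'] <;> norm_num

/-- a letter is a step of the lattice -/
lemma adj_letter {e : ℤ} (he : e = 1 ∨ e = -1) {s : St} (hs : s.ok) {p q : ℤ × ℤ}
    (h1 : q.1 = p.1 + s.x) (h2 : q.2 = p.2 + e * s.y) : H982F.Adj p q := by
  unfold H982F.Adj
  unfold St.ok at hs
  unfold St.y at h2
  cases hk : L.kind with
  | sq =>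
    simp only [hk] at hs h2 ⊢
    rcases he with rfl | rfl <;> cases s <;> simp [St.x] at h1 h2 hs ⊢ <;> omega
  | tri =>
    simp only [hk] at hs h2 ⊢
    rcases he with rfl | rfl <;> cases s <;> simp [St.x] at h1 h2 hs ⊢ <;> omega
  | hex =>
    simp only [hk] at hs h2 ⊢
    rcases he with rfl | rfl <;> cases s <;> simp [St.x] at h1 h2 hs ⊢ <;> omega

lemma take_disp {w m : List St} {i j : ℕ} (hij : i ≤ j) (hj : j ≤ w.length)
    (h : w.take j = w.take i ++ m) :
    dx (w.take j) = dx (w.take i) + dx m ∧ dy (w.take j) = dy (w.take i) + sgm ^ i * dy m := by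
  have h2 : (w.take i).length = i := by rw [List.length_take]; omega
  rw [h, dx_append, dy_append, h2]
  exact ⟨rfl, rfl⟩

lemma o_ne {o : ℤ} (ho : o = 1 ∨ o = -1) : o ≠ 0 := by omega

lemma al_pf {o : ℤ} (ho : o = 1 ∨ o = -1) {w : List St} (h : Ok w) :
    H982F.Al w.length (pf o w) := by
  unfold H982F.Al
  cases hk : L.kind with
  | sq => trivial
  | tri => trivial
  | hex =>
    refine ⟨o, ho, fun i hi => ?_⟩
    have h1 := (pf_succ o hi).2
    have h2 := h (w[i]) (List.getElem_mem hi)
    have h3 : (sgm : ℤ) = -1 := by unfold sgm; rw [hk]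
    rw [h3] at h1
    unfold St.ok at h2
    unfold St.y at h1
    simp only [hk] at h1 h2
    revert h1 h2
    cases w[i] <;> intro h1 h2 <;> simp at h1 h2 <;> rw [h1] <;> simp

lemma saw_pf {o : ℤ} (ho : o = 1 ∨ o = -1) {w : List St} (h : Saw w) :
    H982F.Saw w.length (pf o w) := by
  refine ⟨pf_zero o w, ?_, ?_, ?_, al_pf ho h.2⟩
  · intro i hi
    obtain ⟨h1, h2⟩ := pf_succ o hi
    exact adj_letter (osg ho i) (h.2 _ (List.getElem_mem hi)) h1 h2
  · have key : ∀ i j : ℕ, i ≤ j → j ≤ w.length → pf o w i = pf o w j → i = j := by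
      intro i j hij hj hp
      have h1 : w.take j = w.take i ++ (w.drop i).take (j - i) := by
        rw [← List.take_add]; congr 1; omega
      have h2 : (w.drop i).take (j - i) <:+: w :=
        infix_take_iff.mpr ⟨i, j, hij, by omega, h1⟩
      obtain ⟨d1, d2⟩ := take_disp hij hj h1
      unfold pf at hp
      rw [Prod.mk.injEq] at hp
      have e1 : dx ((w.drop i).take (j - i)) = 0 := by omega
      have e2 : dy ((w.drop i).take (j - i)) = 0 := by
        have e3 : dy (w.take i) = dy (w.take j) := mul_left_cancel₀ (o_ne ho) hp.2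
        have e4 : (sgm : ℤ) ^ i * dy ((w.drop i).take (j - i)) = 0 := by omega
        exact (mul_eq_zero.mp e4).resolve_left (sgm_pow_ne i)
      have h3 := h.1 _ h2 e1 e2
      have h4 := congrArg List.length h3
      simp at h4
      omega
    intro i k hi hk hik
    rcases le_total i k with h1 | h1
    · exact key i k h1 hk hik
    · exact (key k i h1 hi hik.symm).symm
  · intro i hi
    rw [pf_ge o hi, pf_ge o le_rfl]

lemma fbr_pf {o : ℤ} (ho : o = 1 ∨ o = -1) {a : ℕ} {w : List St} (h : IsBr a w) :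
    H982F.FBr w.length (pf o w) := by
  refine ⟨saw_pf ho h.saw, ?_, ?_⟩
  · intro i h1 h2
    refine h.hp _ (List.take_prefix _ _) ?_
    intro h3
    have := congrArg List.length h3
    rw [List.length_take, List.length_nil] at this
    omega
  · intro i _
    rw [pf_ge o le_rfl]
    have := h.le (List.take_prefix i w)
    rw [h.dx]
    exact this

/-- every step of the lattice is a letter -/
lemma letter_surj {N : ℕ} {w : ℕ → ℤ × ℤ} (h : H982F.Saw N w) :
    ∃ o : ℤ, (o = 1 ∨ o = -1) ∧ ∀ i, i < N → ∃ s : St, s.ok ∧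
      (w (i + 1)).1 = (w i).1 + s.x ∧ (w (i + 1)).2 = (w i).2 + o * sgm ^ i * s.y := by
  have hal := h.al
  unfold H982F.Al at hal
  cases hk : L.kind with
  | sq =>
    refine ⟨1, Or.inl rfl, fun i hi => ?_⟩
    have h1 := h.adj i hi
    have hs : (sgm : ℤ) = 1 := by unfold sgm; rw [hk]
    unfold H982F.Adj at h1
    simp only [hk] at h1
    rw [hs]
    simp only [St.ok, St.y, hk, one_pow, mul_one, one_mul]
    rcases h1 with h1 | h1 | h1 | h1
    · exact ⟨.E, trivial, by simp only [St.x]; omega, by simp; omega⟩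
    · exact ⟨.W, trivial, by simp only [St.x]; omega, by simp; omega⟩
    · exact ⟨.N, trivial, by simp only [St.x]; omega, by simp; omega⟩
    · exact ⟨.S, trivial, by simp only [St.x]; omega, by simp; omega⟩
  | tri =>
    refine ⟨1, Or.inl rfl, fun i hi => ?_⟩
    have h1 := h.adj i hi
    have hs : (sgm : ℤ) = 1 := by unfold sgm; rw [hk]
    unfold H982F.Adj at h1
    simp only [hk] at h1
    rw [hs]
    simp only [St.ok, St.y, hk, one_pow, mul_one, one_mul]
    rcases h1 with h1 | h1 | h1 | h1 | h1 | h1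
    · exact ⟨.E, trivial, by simp only [St.x]; omega, by simp; omega⟩
    · exact ⟨.F, trivial, by simp only [St.x]; omega, by simp; omega⟩
    · exact ⟨.W, trivial, by simp only [St.x]; omega, by simp; omega⟩
    · exact ⟨.X, trivial, by simp only [St.x]; omega, by simp; omega⟩
    · exact ⟨.N, trivial, by simp only [St.x]; omega, by simp; omega⟩
    · exact ⟨.S, trivial, by simp only [St.x]; omega, by simp; omega⟩
  | hex =>
    simp only [hk] at hal
    obtain ⟨o, ho, hal⟩ := hal
    refine ⟨o, ho, fun i hi => ?_⟩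
    have h1 := h.adj i hi
    have h2 := hal i hi
    have hs : (sgm : ℤ) = -1 := by unfold sgm; rw [hk]
    unfold H982F.Adj at h1
    simp only [hk] at h1
    rw [hs]
    have h3 : o * (-1) ^ i = 1 ∨ o * (-1) ^ i = -1 := by
      have := osg ho i
      rwa [hs] at this
    generalize o * (-1) ^ i = e at h2 h3 ⊢
    simp only [St.ok, St.y, hk]
    rcases h1 with h1 | h1 | h1 | h1
    · exact ⟨.E, trivial, by simp only [St.x]; omega, by simp; omega⟩
    · exact ⟨.W, trivial, by simp only [St.x]; omega, by simp; omega⟩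
    · exact ⟨.N, trivial, by simp only [St.x]; omega, by simp only; omega⟩
    · exact ⟨.N, trivial, by simp only [St.x]; omega, by simp only; omega⟩

lemma exists_word {N : ℕ} {w : ℕ → ℤ × ℤ} (h : H982F.Saw N w) :
    ∃ (o : ℤ) (u : List St), (o = 1 ∨ o = -1) ∧ Ok u ∧ u.length = N ∧ pf o u = w := by
  obtain ⟨o, ho, hst0⟩ := letter_surj h
  have hst : ∀ i : ℕ, ∃ s : St, s.ok ∧ (i < N → ((w (i + 1)).1 = (w i).1 + s.x ∧
      (w (i + 1)).2 = (w i).2 + o * sgm ^ i * s.y)) := by
    intro i
    by_cases hi : i < N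
    · obtain ⟨s, h1, h2⟩ := hst0 i hi
      exact ⟨s, h1, fun _ => h2⟩
    · exact ⟨.E, St.ok_E, fun h => absurd h hi⟩
  choose f hf0 hf using hst
  refine ⟨o, (List.range N).map f, ho, ?_, by simp, ?_⟩
  · intro s hs
    rw [List.mem_map] at hs
    obtain ⟨i, -, rfl⟩ := hs
    exact hf0 i
  have key : ∀ i, i ≤ N → pf o ((List.range N).map f) i = w i := by
    intro i
    induction i with
    | zero => intro _; rw [pf_zero, h.zero]
    | succ i ih =>
      intro hi
      have h1 := ih (by omega)
      have h2 := pf_succ o (w := (List.range N).map f) (i := i) (by simp; omega)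
      have h3 : ((List.range N).map f)[i]'(by simp; omega) = f i := by simp
      rw [h3, h1] at h2
      have h4 := hf i (by omega)
      apply Prod.ext
      · rw [h2.1, h4.1]
      · rw [h2.2, h4.2]
  funext i
  rcases le_total i N with hi | hi
  · exact key i hi
  · have h5 := key N le_rfl
    have h6 : pf o ((List.range N).map f) N =
        (dx ((List.range N).map f), o * dy ((List.range N).map f)) := pf_ge o (by simp)
    rw [pf_ge o (by simpa using hi), ← h6, h5, h.const i hi]

lemma saw_of_pf {o : ℤ} {w : List St} (hok : Ok w) (h : H982F.Saw w.length (pf o w)) :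
    Saw w := by
  refine ⟨?_, hok⟩
  intro m hm h1 h2
  obtain ⟨i, j, hij, hj, h3⟩ := infix_take_iff.mp hm
  obtain ⟨d1, d2⟩ := take_disp hij hj h3
  rw [h1, add_zero] at d1
  rw [h2, mul_zero, add_zero] at d2
  have h4 : i = j := by
    apply h.inj i j (by omega) hj
    unfold pf
    rw [d1, d2]
  subst h4
  have := congrArg List.length h3
  simp at this
  exact this

lemma isBr_of_fbr {o : ℤ} {w : List St} (hok : Ok w) (h : H982F.FBr w.length (pf o w)) :
    IsBr (wd w) w ∧ (wd w : ℤ) = (pf o w w.length).1 := by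
  have hpre : ∀ u, u <+: w → u = w.take u.length := fun u hu => (List.prefix_iff_eq_take.mp hu)
  have h0 : 0 ≤ dx w := by
    have h1 := h.le 0 (by omega)
    rw [pf_zero, pf_ge o le_rfl] at h1
    exact h1
  have hw : (wd w : ℤ) = dx w := by unfold wd; omega
  refine ⟨⟨saw_of_pf hok h.saw, ?_, ?_, hw.symm⟩, by rw [pf_ge o le_rfl]; exact hw⟩
  · intro u hu hu0
    have hl := hu.length_le
    have hl0 : 0 < u.length := List.length_pos_iff.mpr hu0
    have := h.pos u.length (by omega) hl
    unfold pf at this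
    rw [← hpre u hu] at this
    exact this
  · intro u hu
    have := h.le u.length hu.length_le
    rw [pf_ge o le_rfl] at this
    unfold pf at this
    rw [← hpre u hu] at this
    rw [hw]; exact this

/-- the coefficient of the series of bridges -/
lemma coeff_Us (W n : ℕ) : coeff n (Us W) =
    ∑' u : List St, ind ((IsB u ∧ wd u ≤ W) ∧ u.length = n) * 1 := by
  unfold Us
  rw [coeff_fs]
  congr 1; ext u
  rw [coeff_ii_mul, coeff_xl, ind_and (_ ∧ _) (_ = _), mul_one]

open H982F (BrSet mem_BrSet) in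
lemma card_BrSet_le (N W : ℕ) : ((BrSet N W).card : ℝ≥0∞) ≤ 2 * coeff N (Us W) := by
  classical
  have h1 : ((BrSet N W).card : ℝ≥0∞) = ∑' w : ℕ → ℤ × ℤ, ind (w ∈ BrSet N W) * 1 := by
    rw [tsum_eq_sum (s := BrSet N W)]
    · rw [Finset.sum_congr rfl (g := fun _ => (1 : ℝ≥0∞))]
      · simp
      · intro w hw
        rw [ind_of hw, mul_one]
    · intro w hw
      rw [ind_not hw, zero_mul]
  have h2 : 2 * coeff N (Us W) = ∑' q : Bool × List St,
      ind ((IsB q.2 ∧ wd q.2 ≤ W) ∧ q.2.length = N) * 1 := by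
    rw [coeff_Us, ENNReal.tsum_prod', tsum_bool]
    simp only
    rw [two_mul]
  rw [h1, h2]
  refine tsum_cover _ _ _ _ (fun q : Bool × List St => pf (if q.1 then 1 else -1) q.2) ?_
  intro w hw
  rw [mem_BrSet] at hw
  obtain ⟨o, u, ho, hok, hu, rfl⟩ := exists_word hw.1.saw
  subst hu
  obtain ⟨h2, h3⟩ := isBr_of_fbr hok hw.1
  refine ⟨(decide (o = 1), u), ⟨⟨h2.isB, ?_⟩, rfl⟩, ?_, le_rfl⟩
  · have := hw.2
    simp only
    omega
  · simp only
    congr 1
    rcases ho with rfl | rfl <;> simp

/-! ### folds -/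

lemma saw_fold {X Y : List St} (hX : IsB X) (hY : IsB Y) (h : NCg X Y) : Saw (X ++ sg Y) := by
  refine ⟨?_, ok_append.mpr ⟨hX.br.saw.2, ok_sg.mpr hY.br.saw.2⟩⟩
  intro m hm h1 h2
  rcases infix_append_cases hm with h3 | h3 | ⟨m1, m2, h3, h4, h5, h6, rfl⟩
  · obtain ⟨a, hX⟩ := hX
    exact hX.saw.1 m h3 h1 h2
  · obtain ⟨a, hY⟩ := hY
    exact hY.saw.sg.1 m h3 h1 h2
  · exfalso
    have h7 : sg m2 <+: Y := by
      have := h4.map St.sg
      change sg m2 <+: sg (sg Y) at this
      rwa [sg_sg] at this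
    have := h m1 (sg m2) h3 h7 (by simp at h1 ⊢; omega) (by rw [dy_append] at h2; rw [dy_sg]; exact h2)
    exact h5 this.1

omit L in
lemma take_append_le {X Y : List St} {i : ℕ} (h : i ≤ X.length) : (X ++ Y).take i = X.take i := by
  rw [List.take_append_of_le_length h]

omit L in
lemma take_append_gt {X Y : List St} {i : ℕ} (h : X.length ≤ i) :
    (X ++ Y).take i = X ++ Y.take (i - X.length) := by
  obtain ⟨j, rfl⟩ := Nat.exists_eq_add_of_le h
  rw [List.take_length_add_append]
  congr 2; omega

omit L in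
lemma take_ne_nil {Y : List St} {j : ℕ} (hY : Y ≠ []) (hj : 0 < j) : Y.take j ≠ [] := by
  intro h
  have := congrArg List.length h
  have h2 : 0 < Y.length := List.length_pos_iff.mpr hY
  simp at this
  rcases this with h3 | h3
  · omega
  · exact hY h3

lemma cut_pf (o : ℤ) {X Y : List St} (hX : IsB X) (hY : IsB Y) (hY0 : Y ≠ []) :
    H982F.Cut (X ++ Y).length (pf o (X ++ Y)) (wd X) X.length := by
  have hw := hX.wd_eq_dx
  refine ⟨?_, ?_, ?_⟩
  · have : 0 < Y.length := List.length_pos_iff.mpr hY0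
    simp; exact this
  · intro i hi
    unfold pf
    rw [take_append_le hi]
    have := hX.br.le (List.take_prefix i X)
    exact this
  · intro i hi
    unfold pf
    rw [take_append_gt hi.le]
    simp only [dx_append]
    have h1 := hY.br.hp (Y.take (i - X.length)) (List.take_prefix _ _)
      (take_ne_nil hY0 (by omega))
    omega

lemma fl_pf (o : ℤ) {X Y : List St} (hX : IsB X) :
    H982F.fl (pf o (X ++ Y)) (wd X) X.length = pf o (X ++ sg Y) := by
  have hw := hX.wd_eq_dx
  funext i
  rcases Nat.lt_or_ge X.length i with h | h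
  · rw [H982F.fl_gt h]
    unfold pf
    rw [take_append_gt h.le, take_append_gt h.le]
    have h1 : (sg Y).take (i - X.length) = sg (Y.take (i - X.length)) := by
      unfold sg; rw [List.map_take]
    rw [h1]
    simp only [dx_append, dy_append, dx_sg, dy_sg, Prod.mk.injEq, and_true]
    omega
  · rw [H982F.fl_le h]
    unfold pf
    rw [take_append_le h, take_append_le h]

/-- the fold is passed upwards for one of the two orientations -/
lemma up_cases {X Y : List St} (hX : IsB X) (hY : IsB Y) (hX0 : X ≠ []) (hY0 : Y ≠ [])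
    (h : NCg X Y) : ∃ o : ℤ, (o = 1 ∨ o = -1) ∧ H982F.Up (pf o (X ++ Y)) X.length := by
  obtain ⟨X', s, rfl⟩ : ∃ X' s, X = X' ++ [s] := by
    rcases List.eq_nil_or_concat X with h1 | ⟨X', s, h1⟩
    · exact absurd h1 hX0
    · exact ⟨X', s, by simpa using h1⟩
  obtain ⟨q, Y', rfl⟩ : ∃ q Y', Y = q :: Y' := by
    cases Y with
    | nil => exact absurd rfl hY0
    | cons q Y' => exact ⟨q, Y', rfl⟩
  have hq : q.x = 1 := hY.br.hp.head_x
  have hsok : s.ok := hX.br.saw.2 s (by simp)
  have hqok : q.ok := hY.br.saw.2 q (by simp)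
  have hsx : s.x = 0 ∨ s.x = 1 := by
    have h1 := hX.br.le (List.prefix_append X' [s])
    have h2 := hX.wd_eq_dx
    rw [h2] at h1
    simp at h1
    have := s.x_le
    omega
  set w := X' ++ [s] ++ q :: Y' with hw
  set t := (X' ++ [s]).length with ht
  have ht' : t = X'.length + 1 := by rw [ht]; simp
  have hl1 : X'.length < w.length := by rw [hw]; simp
  have hl2 : t < w.length := by rw [hw, ht]; simp
  have g1 : w[X'.length] = s := by simp [hw]
  have g2 : w[t] = q := by
    simp only [ht', hw]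
    rw [List.getElem_append_right (by simp)]
    simp
  -- choose the orientation
  have hfin : ∀ o : ℤ, 0 < o * sgm ^ X'.length * s.y →
      (s.x = 0 ∨ 0 < o * sgm ^ t * q.y) → H982F.Up (pf o w) t := by
    intro o h1 h2
    have e1 := pf_succ o hl1
    have e2 := pf_succ o hl2
    rw [g1] at e1
    rw [g2] at e2
    have e3 : t - 1 = X'.length := by omega
    rw [← ht'] at e1
    refine ⟨by omega, ?_, ?_⟩
    · rw [e3, e1.2]; omega
    · rcases h2 with h2 | h2
      · left
        rw [e3, e1.1, h2]; ring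
      · right
        rw [e2.2]; omega
  rcases hsx with hsx | hsx
  · -- vertical arrival
    have hy : s.y ≠ 0 := by
      unfold St.ok at hsok
      unfold St.y
      cases hk : L.kind <;> simp only [hk] at hsok ⊢ <;> cases s <;> simp [St.x] at hsx hsok ⊢
    have h3 : (sgm : ℤ) ^ X'.length * s.y ≠ 0 := mul_ne_zero (sgm_pow_ne _) hy
    rcases lt_or_gt_of_ne h3 with h4 | h4
    · refine ⟨-1, Or.inr rfl, hfin (-1) ?_ (Or.inl hsx)⟩
      have : (-1 : ℤ) * sgm ^ X'.length * s.y = -(sgm ^ X'.length * s.y) := by ring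
      rw [this]; omega
    · refine ⟨1, Or.inl rfl, hfin 1 ?_ (Or.inl hsx)⟩
      rw [one_mul]; exact h4
  · -- diagonal arrival
    have h5 : s.y + sgm * q.y ≠ 0 := by
      intro h6
      have := h [s] [q] ⟨X', rfl⟩ ⟨Y', rfl⟩ (by simp [hsx, hq]) (by simpa using h6)
      simp at this
    cases hk : L.kind with
    | sq =>
      exfalso
      apply h5
      unfold St.ok at hsok hqok
      unfold St.y
      simp only [hk] at hsok hqok ⊢
      cases s <;> cases q <;> simp [St.x] at hsx hq hsok hqok ⊢
    | hex =>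
      exfalso
      apply h5
      unfold St.ok at hsok hqok
      unfold St.y
      simp only [hk] at hsok hqok ⊢
      cases s <;> cases q <;> simp [St.x] at hsx hq hsok hqok ⊢
    | tri =>
      have hs1 : (sgm : ℤ) = 1 := by unfold sgm; rw [hk]
      rw [hs1] at h5 hfin
      simp only [one_pow, mul_one] at hfin
      have h6 : (s.y = 1 ∧ q.y = 1) ∨ (s.y = -1 ∧ q.y = -1) := by
        unfold St.y at h5 ⊢
        simp only [hk] at h5 ⊢
        cases s <;> cases q <;> simp [St.x] at hsx hq h5 ⊢
      rcases h6 with ⟨h6, h7⟩ | ⟨h6, h7⟩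
      · exact ⟨1, Or.inl rfl, hfin 1 (by rw [h6]; norm_num) (Or.inr (by rw [h7]; norm_num))⟩
      · exact ⟨-1, Or.inr rfl, hfin (-1) (by rw [h6]; norm_num) (Or.inr (by rw [h7]; norm_num))⟩

end H982
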