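import Pool.Agent.H982R3.Chain
import Pool.Agent.H982R3.Count

/-!
Half-plane walks of length `N` are at most `exp (K N^ε)` times the bridges of length `N`.
-/

set_option linter.unusedSectionVars false

namespace H982

variable [L : Lat]

open scoped ENNReal
open PowerSeries

/-- number of bridges with `n` steps -/
noncomputable def bn (n : ℕ) : ℝ≥0∞ := coeff n Bs

lemma bn_eq (n : ℕ) : bn n = ∑' u : List St, ind (IsB u ∧ u.length = n) := by
  unfold bn Bs
  rw [coeff_fs]
  congr 1; ext u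
  rw [coeff_ii_mul, coeff_xl, ind_and]

lemma chain_fs (n : ℕ) : ∀ β : List St, fs (fun q : List ℕ × List St =>
    ii (Dec n q.1 ∧ HPc q.1 β q.2) * xl q.2) ≤ xl β * Rr 1 n β := by
  induction n with
  | zero =>
    intro β
    have h1 : fs (fun q : List ℕ × List St => ii (Dec 0 q.1 ∧ HPc q.1 β q.2) * xl q.2) ≤
        fs (fun q : Unit => ii True * xl β) := by
      refine fs_cover _ _ _ _ (fun _ => (([] : List ℕ), β)) ?_
      rintro ⟨α, ω⟩ ⟨h1, h2⟩
      cases α with
      | nil =>
        simp only [HPc] at h2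
        subst h2
        exact ⟨(), trivial, rfl, le_rfl⟩
      | cons A α =>
        obtain ⟨h3, h4, -⟩ := h1
        omega
    refine h1.trans ?_
    rw [fs_single _ () (fun j hj => absurd rfl hj), ii_of trivial, one_mul]
    simp [Rr]
  | succ n ih =>
    intro β
    have h1 : fs (fun q : List ℕ × List St => ii (Dec (n + 1) q.1 ∧ HPc q.1 β q.2) * xl q.2) ≤
        fs (fun q : List ℕ × List St => ii (Dec n q.1 ∧ HPc q.1 β q.2) * xl q.2 +
          ii (∃ α', q.1 = (n + 1) :: α' ∧ Dec n α' ∧ HPc q.1 β q.2) * xl q.2) := by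
      apply fs_mono
      rintro ⟨α, ω⟩
      by_cases h : Dec (n + 1) α ∧ HPc α β ω
      · rw [ii_of h, one_mul]
        by_cases h' : Dec n α
        · simp only
          rw [ii_of (p := Dec n α ∧ HPc α β ω) ⟨h', h.2⟩, one_mul]
          exact le_self_add
        · have : ∃ α', α = (n + 1) :: α' ∧ Dec n α' ∧ HPc α β ω := by
            obtain ⟨h1, h2⟩ := h
            cases α with
            | nil => exact absurd trivial h'
            | cons A α =>
              obtain ⟨h3, h4, h5⟩ := h1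
              have hA : A = n + 1 := by
                by_contra hne
                exact h' ⟨h3, by omega, h5⟩
              subst hA
              exact ⟨α, rfl, by simpa using h5, h2⟩
          simp only
          rw [ii_of this, one_mul]
          exact le_add_self
      · rw [ii_not h, zero_mul]; exact zero_le
    refine h1.trans ?_
    rw [fs_add]
    have h2 : fs (fun q : List ℕ × List St =>
          ii (∃ α', q.1 = (n + 1) :: α' ∧ Dec n α' ∧ HPc q.1 β q.2) * xl q.2) ≤
        fs (fun q : List St × (List ℕ × List St) => ii ((IsBr (1 + n) q.1 ∧ NCg β q.1) ∧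
          (Dec n q.2.1 ∧ HPc q.2.1 q.1 q.2.2)) * (xl β * xl q.2.2)) := by
      refine fs_cover _ _ _ _ (fun q => ((n + 1) :: q.2.1, β ++ sg q.2.2)) ?_
      rintro ⟨α, ω⟩ ⟨α', h3, h4, h5⟩
      simp only at h3 h5
      subst h3
      obtain ⟨β', ω', h6, h7, h8, h9⟩ := h5
      refine ⟨(β', (α', ω')), ⟨⟨by rw [add_comm]; exact h7, h8⟩, h4, h9⟩, ?_, ?_⟩
      · simp only; rw [h6]
      · simp only
        rw [h6, xl_append]
        unfold xl
        rw [length_sg]
    have h3 : fs (fun q : List St × (List ℕ × List St) => ii ((IsBr (1 + n) q.1 ∧ NCg β q.1) ∧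
          (Dec n q.2.1 ∧ HPc q.2.1 q.1 q.2.2)) * (xl β * xl q.2.2)) ≤
        xl β * fs (fun β' => ii (IsBr (1 + n) β' ∧ NCg β β') * (xl β' * Rr 1 n β')) := by
      rw [fs_prod, mul_fs]
      apply fs_mono
      intro β'
      calc fs (fun q : List ℕ × List St => ii ((IsBr (1 + n) β' ∧ NCg β β') ∧
            (Dec n q.1 ∧ HPc q.1 β' q.2)) * (xl β * xl q.2))
          = (ii (IsBr (1 + n) β' ∧ NCg β β') * xl β) * fs (fun q : List ℕ × List St =>
              ii (Dec n q.1 ∧ HPc q.1 β' q.2) * xl q.2) := by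
            rw [mul_fs]
            apply fs_congr
            intro q
            rw [ii_and (_ ∧ _) (_ ∧ _)]; ring
        _ ≤ (ii (IsBr (1 + n) β' ∧ NCg β β') * xl β) * (xl β' * Rr 1 n β') := by
            gcongr
            exact ih β'
        _ = _ := by ring
    calc _ ≤ xl β * Rr 1 n β +
          xl β * fs (fun β' => ii (IsBr (1 + n) β' ∧ NCg β β') * (xl β' * Rr 1 n β')) :=
          add_le_add (ih β) (h2.trans h3)
      _ = _ := by simp only [Rr]; ring

theorem hh_le_coeff {N : ℕ} (hN : N ≠ 0) : hh N ≤ coeff N (Rr 1 N []) := by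
  have h1 : fs (fun ω : List St => ii ((Saw ω ∧ HP ω) ∧ ω.length = N) * xl ω) ≤
      fs (fun q : (ℕ × List St) × (List ℕ × List St) =>
        ii ((q.1.1 < N ∧ IsBr (1 + q.1.1) q.1.2) ∧ (Dec q.1.1 q.2.1 ∧ HPc q.2.1 q.1.2 q.2.2)) *
          xl q.2.2) := by
    refine fs_cover _ _ _ _ (fun q : (ℕ × List St) × (List ℕ × List St) => q.2.2) ?_
    rintro ω ⟨⟨h1, h2⟩, h3⟩
    obtain ⟨A, α, β, g1, g2, g3, g4, g5, g6⟩ := exists_unfold _ ω rfl h1 h2 (by
      rintro rfl; simp at h3; exact hN h3.symm)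
    refine ⟨((A - 1, β), (α, ω)), ⟨⟨?_, ?_⟩, g3, g4⟩, rfl, le_rfl⟩
    · simp only; omega
    · simp only
      rw [show 1 + (A - 1) = A by omega]
      exact g1
  have h2 : fs (fun q : (ℕ × List St) × (List ℕ × List St) =>
        ii ((q.1.1 < N ∧ IsBr (1 + q.1.1) q.1.2) ∧ (Dec q.1.1 q.2.1 ∧ HPc q.2.1 q.1.2 q.2.2)) *
          xl q.2.2) ≤ Rr 1 N [] := by
    rw [fs_prod, fs_prod, Rr_eq]
    have h3 : ∀ l : ℕ, fs (fun β : List St => fs (fun q : List ℕ × List St =>
        ii ((l < N ∧ IsBr (1 + l) β) ∧ (Dec l q.1 ∧ HPc q.1 β q.2)) * xl q.2)) ≤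
        ii (l < N) * fs (fun β' => ii (IsBr (1 + l) β' ∧ NCg [] β') * (xl β' * Rr 1 l β')) := by
      intro l
      rw [mul_fs]
      apply fs_mono
      intro β
      calc fs (fun q : List ℕ × List St =>
            ii ((l < N ∧ IsBr (1 + l) β) ∧ (Dec l q.1 ∧ HPc q.1 β q.2)) * xl q.2)
          = ii (l < N) * ii (IsBr (1 + l) β) * fs (fun q : List ℕ × List St =>
            ii (Dec l q.1 ∧ HPc q.1 β q.2) * xl q.2) := by
            rw [mul_fs]
            apply fs_congr
            intro q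
            rw [ii_and (_ ∧ _) (_ ∧ _), ii_and (l < N)]; ring
        _ ≤ ii (l < N) * ii (IsBr (1 + l) β ∧ NCg [] β) * (xl β * Rr 1 l β) := by
            gcongr
            · exact ii_mono fun h => ⟨h, NCg_nil_left h.isB⟩
            · exact chain_fs l β
        _ = _ := by ring
    calc _ ≤ fs (fun l : ℕ => ii (l < N) *
          fs (fun β' => ii (IsBr (1 + l) β' ∧ NCg [] β') * (xl β' * Rr 1 l β'))) := fs_mono h3
      _ = ∑ l ∈ Finset.range N,
          fs (fun β' => ii (IsBr (1 + l) β' ∧ NCg [] β') * (xl β' * Rr 1 l β')) := by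
          ext n
          rw [coeff_fs, map_sum, tsum_eq_sum (s := Finset.range N)]
          · apply Finset.sum_congr rfl
            intro l hl
            rw [Finset.mem_range] at hl
            rw [ii_of hl, one_mul]
          · intro l hl
            rw [Finset.mem_range] at hl
            rw [ii_not hl, zero_mul, map_zero]
      _ ≤ _ := le_add_self
  have h3 := h1.trans h2 N
  refine le_trans (le_of_eq ?_) h3
  rw [coeff_fs]
  unfold hh
  congr 1; ext ω
  rw [coeff_ii_mul, coeff_xl, ← ind_and]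
  congr 1
  apply propext
  tauto

lemma one_le_Bs : 1 ≤ Bs := by
  calc (1 : PS) = ii (IsB []) * xl [] := by rw [ii_of isB_nil]; simp
    _ ≤ _ := le_fs (fun w => ii (IsB w) * xl w) []

lemma hh_le_of_Nm {N : ℕ} (hN : N ≠ 0) {M : ℕ} (hM : N ≤ 2 ^ M - 1) {c : ℝ≥0∞}
    (h : Nm c (Rr 1 (2 ^ M - 1) [])) : hh N ≤ c * bn N := by
  calc hh N ≤ coeff N (Rr 1 N []) := hh_le_coeff hN
    _ ≤ coeff N (Rr 1 (2 ^ M - 1) []) := Rr_mono 1 hM [] N
    _ ≤ coeff N (Rr 1 (2 ^ M - 1) [] * Bs) := by
        have : Rr 1 (2 ^ M - 1) [] * 1 ≤ Rr 1 (2 ^ M - 1) [] * Bs := by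
          gcongr
          exact one_le_Bs
        rw [mul_one] at this
        exact this N
    _ ≤ coeff N (cst c * Bs) := h N
    _ = _ := by rw [coeff_cst_mul]; rfl

end H982
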