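import Pool.Agent.H982R3.PS

/-!
Irreducible bridges; random marks; the renewal bound.
-/

set_option linter.unusedSectionVars false

namespace H982

variable [L : Lat]

open scoped ENNReal
open PowerSeries

/-- irreducible bridges -/
def Irr (w : List St) : Prop :=
  IsB w ∧ w ≠ [] ∧ ∀ c X1 X2, Spl c w X1 X2 → X1 = [] ∨ X2 = []

/-- all bridges -/
noncomputable def Bs : PS := fs (fun w => ii (IsB w) * xl w)

/-- bridges of width at most `W` -/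
noncomputable def Us (W : ℕ) : PS := fs (fun w => ii (IsB w ∧ wd w ≤ W) * xl w)

/-- irreducible bridges of width at most `W`, weighted by the width -/
noncomputable def Ks (W : ℕ) : PS :=
  fs (fun w => ii (Irr w ∧ wd w ≤ W) * (cst (wd w : ℝ≥0∞) * xl w))

lemma IsB.wd_eq_dx {w : List St} (h : IsB w) : (wd w : ℤ) = dx w := by
  obtain ⟨a, h⟩ := h
  rw [h.wd, h.dx]

lemma IsB.ne_nil_of_pos {w : List St} (h : 0 < wd w) : w ≠ [] := by
  rintro rfl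
  simp [wd] at h

lemma IsB.wd_pos {w : List St} (h : IsB w) (h0 : w ≠ []) : 0 < wd w := by
  obtain ⟨a, h⟩ := h
  rw [h.wd]
  by_contra hc
  have : a = 0 := by omega
  subst this
  exact h0 h.eq_nil

lemma triple_aux {X ι Y X' ι' Y' : List St} (hX : IsB X) (hι : Irr ι) (hY : IsB Y)
    (hX' : IsB X') (hι' : Irr ι') (hY' : IsB Y') (he : X ++ (ι ++ Y) = X' ++ (ι' ++ Y')) {m : ℕ}
    (h1 : m < wd X + wd ι) (h2 : wd X' ≤ m) : ¬ wd X < wd X' := by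
  intro hlt
  have s1 : Spl (wd X) (X ++ (ι ++ Y)) X (ι ++ Y) := ⟨rfl, hX.br, hι.1.append hY⟩
  have s2 : Spl (wd X') (X ++ (ι ++ Y)) X' (ι' ++ Y') := ⟨he, hX'.br, hι'.1.append hY'⟩
  have s3 : Spl (wd X + wd ι) (X ++ (ι ++ Y)) (X ++ ι) Y :=
    ⟨by simp, hX.br.append hι.1.br, hY⟩
  obtain ⟨M, e1, e2, e3⟩ := s1.refine s2 hlt.le
  obtain ⟨M2, f1, f2, f3⟩ := s2.refine s3 (by omega)
  have g1 : ι = M ++ M2 := by
    rw [e1, List.append_assoc] at f1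
    exact List.append_cancel_left f1
  have s4 : Spl (wd X' - wd X) ι M M2 := ⟨g1, e3, f3.isB⟩
  rcases hι.2.2 _ _ _ s4 with h | h
  · exact e3.ne_nil (by omega) h
  · have h5 := f3.wd
    rw [h] at h5
    simp [wd] at h5
    unfold wd at *
    omega

/-- uniqueness of the irreducible piece covering the mark `m` -/
lemma triple_unique {X ι Y X' ι' Y' : List St} (hX : IsB X) (hι : Irr ι) (hY : IsB Y)
    (hX' : IsB X') (hι' : Irr ι') (hY' : IsB Y') (he : X ++ (ι ++ Y) = X' ++ (ι' ++ Y')) {m : ℕ}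
    (h1 : wd X ≤ m) (h1' : m < wd X + wd ι) (h2 : wd X' ≤ m) (h2' : m < wd X' + wd ι') :
    X = X' ∧ ι = ι' ∧ Y = Y' := by
  have n1 := triple_aux hX hι hY hX' hι' hY' he h1' h2
  have n2 := triple_aux hX' hι' hY' hX hι hY he.symm h2' h1
  have hw : wd X = wd X' := by omega
  have s1 : Spl (wd X) (X ++ (ι ++ Y)) X (ι ++ Y) := ⟨rfl, hX.br, hι.1.append hY⟩
  have s2 : Spl (wd X) (X ++ (ι ++ Y)) X' (ι' ++ Y') :=
    ⟨he, by rw [hw]; exact hX'.br, hι'.1.append hY'⟩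
  obtain ⟨rfl, e2⟩ := s1.unique s2
  refine ⟨rfl, ?_⟩
  have t1 : Spl (wd ι) (ι ++ Y) ι Y := ⟨rfl, hι.1.br, hY⟩
  have t2 : Spl (wd ι') (ι ++ Y) ι' Y' := ⟨e2, hι'.1.br, hY'⟩
  have key : ∀ {a a' b b' : List St}, Irr a → Irr a' → Spl (wd a) (a ++ b) a b →
      Spl (wd a') (a ++ b) a' b' → wd a ≤ wd a' → a = a' ∧ b = b' := by
    intro a a' b b' ha ha' ta tb hle
    obtain ⟨M, e1, e2, e3⟩ := ta.refine tb hle
    have s4 : Spl (wd a) a' a M := ⟨e1, ha.1.br, e3.isB⟩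
    rcases ha'.2.2 _ _ _ s4 with h | h
    · exact absurd h ha.2.1
    · subst h
      simp at e1 e2
      exact ⟨e1.symm, e2⟩
  rcases le_total (wd ι) (wd ι') with h | h
  · exact key hι hι' t1 t2 h
  · have t1' : Spl (wd ι) (ι' ++ Y') ι Y := by rw [← e2]; exact t1
    have t2' : Spl (wd ι') (ι' ++ Y') ι' Y' := by rw [← e2]; exact t2
    obtain ⟨a, b⟩ := key hι' hι t2' t1' h
    exact ⟨a.symm, b.symm⟩

/-- existence of the irreducible piece covering the mark `m` -/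
lemma exists_triple {A m : ℕ} {β : List St} (hβ : IsBr A β) (hm : m < A) :
    ∃ X ι Y, β = X ++ (ι ++ Y) ∧ IsB X ∧ Irr ι ∧ IsB Y ∧ wd X ≤ m ∧ m < wd X + wd ι := by
  classical
  let Q : ℕ → Prop := fun c => ∃ X1 X2, Spl c β X1 X2
  have hQ0 : Q 0 := ⟨[], β, ⟨by simp, isBr_nil, hβ.isB⟩⟩
  have hQA : Q A := ⟨β, [], ⟨by simp, hβ, isB_nil⟩⟩
  -- the last level at most m
  set c := Nat.findGreatest Q m with hc
  have hQc : Q c := Nat.findGreatest_spec (P := Q) (Nat.zero_le m) hQ0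
  have hcm : c ≤ m := Nat.findGreatest_le m
  have hcmax : ∀ e, Q e → e ≤ m → e ≤ c := fun e he hle => Nat.le_findGreatest hle he
  -- the first level after m
  have hex : ∃ d, Q d ∧ m < d := ⟨A, hQA, hm⟩
  set d := Nat.find hex with hd
  obtain ⟨hQd, hmd⟩ := Nat.find_spec hex
  have hdmin : ∀ e, Q e → m < e → d ≤ e := fun e he hlt => Nat.find_min' hex ⟨he, hlt⟩
  obtain ⟨X, R, h1⟩ := hQc
  obtain ⟨D, Y, h2⟩ := hQd
  obtain ⟨M, e1, e2, e3⟩ := h1.refine h2 (by omega)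
  refine ⟨X, M, Y, by rw [h1.1, e2], h1.2.1.isB, ⟨e3.isB, e3.ne_nil (by omega), ?_⟩, h2.2.2,
    by rw [h1.2.1.wd]; exact hcm, by rw [h1.2.1.wd, e3.wd]; omega⟩
  intro e X1 X2 hs
  by_contra hcon
  push Not at hcon
  have hX1 : 0 < e := by
    have := (hs.2.1.isB).wd_pos hcon.1
    rwa [hs.2.1.wd] at this
  have hX2 : 0 < wd X2 := hs.2.2.wd_pos hcon.2
  have hlen : d - c = e + wd X2 := by
    rw [← e3.wd, hs.1, wd_append hs.2.1.isB hs.2.2, hs.2.1.wd]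
  have hQe : Q (c + e) := by
    refine ⟨X ++ X1, X2 ++ Y, ?_, h1.2.1.append hs.2.1, hs.2.2.append h2.2.2⟩
    rw [h1.1, e2, hs.1]; simp
  rcases Nat.lt_or_ge m (c + e) with h | h
  · have := hdmin _ hQe h
    omega
  · have := hcmax _ hQe h
    omega

abbrev L3 := List St × List St × List St

/-- total word of a triple -/
def cat3 (t : L3) : List St := t.1 ++ (t.2.1 ++ t.2.2)

/-- triples bridge, irreducible bridge, bridge -/
def IsT (t : L3) : Prop := IsB t.1 ∧ Irr t.2.1 ∧ IsB t.2.2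

lemma IsT.isB {t : L3} (h : IsT t) : IsB (cat3 t) := h.1.append (h.2.1.1.append h.2.2)

lemma IsT.wd {t : L3} (h : IsT t) : wd (cat3 t) = wd t.1 + (wd t.2.1 + wd t.2.2) := by
  unfold cat3
  rw [wd_append h.1 (h.2.1.1.append h.2.2), wd_append h.2.1.1 h.2.2]

/-- the mark lemma -/
theorem mark_le (r : ℕ) (P : List St → Prop) (Q : L3 → Prop) (g : List St → PS) (h : L3 → PS)
    (hP : ∀ β, P β → IsB β ∧ r ≤ wd β)
    (hPQ : ∀ t, IsT t → P (cat3 t) → Q t ∧ g (cat3 t) ≤ h t) :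
    cst (r : ℝ≥0∞) * fs (fun β => ii (P β) * g β) ≤
      fs (fun t : L3 => ii (IsT t ∧ Q t) * (cst (wd t.2.1 : ℝ≥0∞) * h t)) := by
  have h1 : cst (r : ℝ≥0∞) * fs (fun β => ii (P β) * g β) =
      fs (fun q : ℕ × List St => ii (q.1 < r ∧ P q.2) * g q.2) := by
    rw [cst_nat_eq, fs_mul_fs]
    congr 1; ext1 q
    rw [ii_and]; ring
  have h2 : fs (fun t : L3 => ii (IsT t ∧ Q t) * (cst (wd t.2.1 : ℝ≥0∞) * h t)) =
      fs (fun q : ℕ × L3 => ii (q.1 < wd q.2.2.1 ∧ (IsT q.2 ∧ Q q.2)) * h q.2) := by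
    conv_rhs => rw [fs_prod, fs_comm]
    apply fs_congr
    intro t
    rw [cst_nat_eq]
    simp only
    calc ii (IsT t ∧ Q t) * (fs (fun m => ii (m < wd t.2.1) * 1) * h t)
        = (ii (IsT t ∧ Q t) * h t) * fs (fun m => ii (m < wd t.2.1) * 1) := by ring
      _ = _ := by
        rw [mul_fs]
        congr 1; ext1 m
        rw [ii_and (m < wd t.2.1)]; ring
  rw [h1, h2]
  refine fs_cover _ _ _ _ (fun q : ℕ × L3 => (wd q.2.1 + q.1, cat3 q.2)) ?_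
  rintro ⟨m, β⟩ ⟨hm, hβ⟩
  simp only at hm hβ
  obtain ⟨hB, hr⟩ := hP β hβ
  obtain ⟨X, ι, Y, rfl, hX, hι, hY, h3, h4⟩ := exists_triple hB.br (m := m) (by omega)
  have hT : IsT (X, ι, Y) := ⟨hX, hι, hY⟩
  obtain ⟨h5, h6⟩ := hPQ _ hT hβ
  refine ⟨(m - wd X, (X, ι, Y)), ⟨?_, hT, h5⟩, ?_, h6⟩
  · simp only; omega
  · simp only [Prod.mk.injEq]
    exact ⟨by omega, rfl⟩

/-- `f` has norm at most `c` (with respect to multiplication of the series of all bridges) -/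
def Nm (c : ℝ≥0∞) (f : PS) : Prop := f * Bs ≤ cst c * Bs

lemma Nm.mul {a b : ℝ≥0∞} {f g : PS} (hf : Nm a f) (hg : Nm b g) : Nm (a * b) (f * g) := by
  unfold Nm at *
  calc f * g * Bs = f * (g * Bs) := by ring
    _ ≤ f * (cst b * Bs) := by gcongr
    _ = cst b * (f * Bs) := by ring
    _ ≤ cst b * (cst a * Bs) := by gcongr
    _ = cst (a * b) * Bs := by rw [cst_mul]; ring

lemma Nm.add {a b : ℝ≥0∞} {f g : PS} (hf : Nm a f) (hg : Nm b g) : Nm (a + b) (f + g) := by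
  unfold Nm at *
  calc (f + g) * Bs = f * Bs + g * Bs := by ring
    _ ≤ cst a * Bs + cst b * Bs := by gcongr
    _ = cst (a + b) * Bs := by rw [cst_add]; ring

lemma Nm.mono {c : ℝ≥0∞} {f g : PS} (hg : Nm c g) (h : f ≤ g) : Nm c f := by
  unfold Nm at *
  exact le_trans (by gcongr) hg

lemma Nm.weaken {c c' : ℝ≥0∞} {f : PS} (hf : Nm c f) (h : c ≤ c') : Nm c' f := by
  unfold Nm at *
  refine hf.trans ?_
  gcongr
  exact cst_le h

lemma Nm_cst (c : ℝ≥0∞) : Nm c (cst c) := le_refl _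

lemma Nm_one : Nm 1 1 := by
  have := Nm_cst 1
  rwa [cst_one] at this

lemma Nm.pow {c : ℝ≥0∞} {f : PS} (hf : Nm c f) (k : ℕ) : Nm (c ^ k) (f ^ k) := by
  induction k with
  | zero => simpa using Nm_one
  | succ k ih => rw [pow_succ, pow_succ]; exact ih.mul hf

lemma Nm.sum {ι : Type*} (s : Finset ι) {c : ι → ℝ≥0∞} {f : ι → PS} (h : ∀ i ∈ s, Nm (c i) (f i)) :
    Nm (∑ i ∈ s, c i) (∑ i ∈ s, f i) := by
  classical
  induction s using Finset.induction_on with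
  | empty =>
    have := Nm_cst 0
    simpa using this
  | insert a s ha ih =>
    rw [Finset.sum_insert ha, Finset.sum_insert ha]
    exact (h a (by simp)).add (ih fun i hi => h i (by simp [hi]))

lemma Nm.prod {ι : Type*} (s : Finset ι) {c : ι → ℝ≥0∞} {f : ι → PS} (h : ∀ i ∈ s, Nm (c i) (f i)) :
    Nm (∏ i ∈ s, c i) (∏ i ∈ s, f i) := by
  classical
  induction s using Finset.induction_on with
  | empty => simpa using Nm_one
  | insert a s ha ih =>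
    rw [Finset.prod_insert ha, Finset.prod_insert ha]
    exact (h a (by simp)).mul (ih fun i hi => h i (by simp [hi]))

/-- the renewal bound -/
theorem Nm_KU (W : ℕ) : Nm ((2 * W : ℕ) : ℝ≥0∞) (Ks W * Us W) := by
  unfold Nm
  have h1 : Ks W * Us W * Bs = fs (fun q : (List St × List St × List St) × ℕ =>
      ii ((((Irr q.1.1 ∧ wd q.1.1 ≤ W) ∧ (IsB q.1.2.1 ∧ wd q.1.2.1 ≤ W)) ∧ IsB q.1.2.2) ∧
        q.2 < wd q.1.1) * (xl q.1.1 * xl q.1.2.1 * xl q.1.2.2)) := by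
    unfold Ks Us Bs
    rw [mul_assoc, fs_mul_fs, fs_mul_fs, fs_prod (fun q : (List St × List St × List St) × ℕ => _)]
    congr 1; ext1 q
    simp only
    rw [cst_nat_eq]
    simp_rw [ii_and]
    calc _ = (ii (Irr q.1) * ii (wd q.1 ≤ W) * (ii (IsB q.2.1) * ii (wd q.2.1 ≤ W)) *
          ii (IsB q.2.2) * (xl q.1 * xl q.2.1 * xl q.2.2)) * fs (fun m => ii (m < wd q.1) * 1) := by
          ring
      _ = _ := by
        rw [mul_fs]
        congr 1; ext1 m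
        ring
  have h2 : cst ((2 * W : ℕ) : ℝ≥0∞) * Bs = fs (fun q : ℕ × List St =>
      ii (q.1 < 2 * W ∧ IsB q.2) * xl q.2) := by
    unfold Bs
    rw [cst_nat_eq, fs_mul_fs]
    congr 1; ext1 q
    rw [ii_and]; ring
  rw [h1, h2]
  refine fs_inj _ _ _ _ (fun q => (wd q.1.2.1 + q.2, q.1.2.1 ++ (q.1.1 ++ q.1.2.2))) ?_ ?_ ?_
  · rintro ⟨⟨ι, X, Y⟩, m⟩ ⟨⟨ι', X', Y'⟩, m'⟩ ⟨⟨⟨⟨a1, a2⟩, ⟨a3, a4⟩⟩, a5⟩, a6⟩
      ⟨⟨⟨⟨b1, b2⟩, ⟨b3, b4⟩⟩, b5⟩, b6⟩ heq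
    simp only at a1 a2 a3 a4 a5 a6 b1 b2 b3 b4 b5 b6 heq
    rw [Prod.mk.injEq] at heq
    obtain ⟨e1, e2⟩ := heq
    obtain ⟨rfl, rfl, rfl⟩ := triple_unique a3 a1 a5 b3 b1 b5 e2 (m := wd X + m) (by omega)
      (by omega) (by omega) (by omega)
    have : m = m' := by omega
    subst this
    rfl
  · rintro ⟨⟨ι, X, Y⟩, m⟩ ⟨⟨⟨⟨a1, a2⟩, ⟨a3, a4⟩⟩, a5⟩, a6⟩
    simp only at a1 a2 a3 a4 a5 a6 ⊢
    exact ⟨by omega, a3.append (a1.1.append a5)⟩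
  · rintro ⟨⟨ι, X, Y⟩, m⟩ -
    simp only
    rw [xl_append, xl_append]
    apply le_of_eq; ring

/-- trivial bound -/
theorem Nm_U (W : ℕ) : Nm ((W + 1 : ℕ) : ℝ≥0∞) (Us W) := by
  unfold Nm
  have h1 : Us W * Bs = fs (fun q : List St × List St =>
      ii ((IsB q.1 ∧ wd q.1 ≤ W) ∧ IsB q.2) * (xl q.1 * xl q.2)) := by
    unfold Us Bs
    rw [fs_mul_fs]
    congr 1; ext1 q
    rw [ii_and (_ ∧ _)]; ring
  have h2 : cst ((W + 1 : ℕ) : ℝ≥0∞) * Bs = fs (fun q : ℕ × List St =>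
      ii (q.1 < W + 1 ∧ IsB q.2) * xl q.2) := by
    unfold Bs
    rw [cst_nat_eq, fs_mul_fs]
    congr 1; ext1 q
    rw [ii_and]; ring
  rw [h1, h2]
  refine fs_inj _ _ _ _ (fun q => (wd q.1, q.1 ++ q.2)) ?_ ?_ ?_
  · rintro ⟨X, Y⟩ ⟨X', Y'⟩ ⟨⟨a1, a2⟩, a3⟩ ⟨⟨b1, b2⟩, b3⟩ heq
    simp only at a1 a2 a3 b1 b2 b3 heq
    rw [Prod.mk.injEq] at heq
    obtain ⟨e1, e2⟩ := heq
    have s1 : Spl (wd X) (X ++ Y) X Y := ⟨rfl, a1.br, a3⟩
    have s2 : Spl (wd X) (X ++ Y) X' Y' := ⟨e2, by rw [e1]; exact b1.br, b3⟩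
    obtain ⟨rfl, rfl⟩ := s1.unique s2
    rfl
  · rintro ⟨X, Y⟩ ⟨⟨a1, a2⟩, a3⟩
    simp only at a1 a2 a3 ⊢
    exact ⟨by omega, a1.append a3⟩
  · rintro ⟨X, Y⟩ -
    simp only
    rw [xl_append]

end H982
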