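import Mathlib

/-!
Words over the steps of the square, triangular and honeycomb lattices.

Coordinates (all three lattices live on `ℤ × ℤ`, the columns are mirror lines):
* square lattice: steps `(±1,0)`, `(0,±1)`;
* triangular lattice: steps `(±1,±1)`, `(0,±2)` (vertices with even coordinate sum);
* honeycomb lattice: brick wall, steps `(±1,0)` and one vertical step; its direction is up at even
  times and down at odd times (walks starting at a vertex of the first kind).
-/

namespace H982

/-- the three lattices -/
inductive Kind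
  | sq | tri | hex
deriving DecidableEq

/-- the ambient lattice -/
class Lat where
  kind : Kind

/-- letters: two steps to the right, two to the left, two vertical ones -/
inductive St
  | E | F | W | X | N | S
deriving DecidableEq, Inhabited

instance : Fintype St := ⟨{.E, .F, .W, .X, .N, .S}, by intro s; cases s <;> simp⟩

namespace St
/-- horizontal component of a step -/
def x : St → ℤ
  | E => 1
  | F => 1
  | W => -1
  | X => -1
  | N => 0
  | S => 0

/-- horizontal flip -/
def sg : St → St
  | E => W
  | F => X
  | W => E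
  | X => F
  | N => N
  | S => S

@[simp] lemma sg_sg (s : St) : s.sg.sg = s := by cases s <;> rfl
@[simp] lemma x_sg (s : St) : s.sg.x = -s.x := by cases s <;> rfl
lemma x_le (s : St) : s.x ≤ 1 := by cases s <;> decide
lemma le_x (s : St) : -1 ≤ s.x := by cases s <;> decide
lemma x_pos {s : St} (h : 0 < s.x) : s.x = 1 := by cases s <;> simp_all [x]
@[simp] lemma x_E : St.E.x = 1 := rfl
@[simp] lemma x_F : St.F.x = 1 := rfl
@[simp] lemma x_W : St.W.x = -1 := rfl
@[simp] lemma x_X : St.X.x = -1 := rfl
@[simp] lemma x_N : St.N.x = 0 := rfl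
@[simp] lemma x_S : St.S.x = 0 := rfl

variable [L : Lat]

/-- vertical component of a step (at even times) -/
def y (s : St) : ℤ :=
  match L.kind, s with
  | .sq, .N => 1
  | .sq, .S => -1
  | .sq, _ => 0
  | .tri, .E => 1
  | .tri, .F => -1
  | .tri, .W => 1
  | .tri, .X => -1
  | .tri, .N => 2
  | .tri, .S => -2
  | .hex, .N => 1
  | .hex, _ => 0

/-- the letters which are used in the lattice -/
def ok (s : St) : Prop :=
  match L.kind, s with
  | .sq, .F => False
  | .sq, .X => False
  | .sq, _ => True
  | .tri, _ => True
  | .hex, .F => False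
  | .hex, .X => False
  | .hex, .S => False
  | .hex, _ => True

/-- flip -/
@[simp] lemma y_sg (s : St) : s.sg.y = s.y := by
  unfold y
  cases L.kind <;> cases s <;> rfl

@[simp] lemma ok_sg (s : St) : s.sg.ok ↔ s.ok := by
  unfold ok
  cases L.kind <;> cases s <;> simp [sg]

lemma ok_E : St.E.ok := by
  unfold ok
  cases L.kind <;> trivial

end St

variable [L : Lat]

/-- the sign which is picked up by the heights in one step -/
def sgm : ℤ := match L.kind with
  | .sq => 1
  | .tri => 1
  | .hex => -1

lemma sgm_cases : (sgm : ℤ) = 1 ∨ (sgm : ℤ) = -1 := by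
  unfold sgm
  cases L.kind <;> simp

@[simp] lemma sgm_mul : (sgm * sgm : ℤ) = 1 := by
  rcases sgm_cases with h | h <;> rw [h] <;> norm_num

lemma sgm_ne : (sgm : ℤ) ≠ 0 := by
  rcases sgm_cases with h | h <;> rw [h] <;> norm_num

lemma sgm_pow_cases (n : ℕ) : (sgm ^ n : ℤ) = 1 ∨ (sgm ^ n : ℤ) = -1 := by
  induction n with
  | zero => simp
  | succ n ih =>
    rw [pow_succ]
    rcases ih with h | h <;> rcases sgm_cases with h' | h' <;> rw [h, h'] <;> norm_num

lemma sgm_pow_ne (n : ℕ) : (sgm ^ n : ℤ) ≠ 0 := pow_ne_zero n sgm_ne

/-- horizontal displacement of a word -/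
def dx (w : List St) : ℤ := (w.map St.x).sum

/-- vertical displacement of a word -/
def dy : List St → ℤ
  | [] => 0
  | s :: w => s.y + sgm * dy w

omit L in
@[simp] lemma dx_nil : dx [] = 0 := rfl
@[simp] lemma dy_nil : dy [] = 0 := rfl
omit L in
@[simp] lemma dx_cons (s : St) (w) : dx (s :: w) = s.x + dx w := by simp [dx]
@[simp] lemma dy_cons (s : St) (w) : dy (s :: w) = s.y + sgm * dy w := rfl
omit L in
@[simp] lemma dx_append (u w) : dx (u ++ w) = dx u + dx w := by simp [dx]
lemma dy_append (u w) : dy (u ++ w) = dy u + sgm ^ u.length * dy w := by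
  induction u with
  | nil => simp
  | cons s u ih =>
    rw [List.cons_append, dy_cons, ih, dy_cons, List.length_cons, pow_succ]
    ring
omit L in
@[simp] lemma dx_reverse (w : List St) : dx w.reverse = dx w := by
  induction w with
  | nil => rfl
  | cons s w ih => simp [ih]; ring

/-- `sgm ^ (length + 1)` times the displacement is invariant under reversal -/
lemma dy_reverse (w : List St) : dy w.reverse = sgm ^ (w.length + 1) * dy w := by
  induction w with
  | nil => simp
  | cons s w ih =>
    rw [List.reverse_cons, dy_append, ih, List.length_reverse, dy_cons, dy_nil, dy_cons,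
      List.length_cons, mul_zero, add_zero]
    have h : (sgm : ℤ) ^ (w.length + 1 + 1) = sgm ^ w.length := by
      rw [pow_succ, pow_succ, mul_assoc, sgm_mul, mul_one]
    rw [h, pow_succ]
    ring

lemma dy_reverse_zero {w : List St} (h : dy w.reverse = 0) : dy w = 0 := by
  rw [dy_reverse] at h
  exact (mul_eq_zero.mp h).resolve_left (sgm_pow_ne _)

/-- horizontal flip of a word -/
def sg (w : List St) : List St := w.map St.sg

omit L in
@[simp] lemma sg_nil : sg [] = [] := rfl
omit L in
@[simp] lemma sg_cons (s : St) (w) : sg (s :: w) = s.sg :: sg w := rfl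
omit L in
@[simp] lemma sg_append (u w) : sg (u ++ w) = sg u ++ sg w := by simp [sg]
omit L in
@[simp] lemma sg_sg (w) : sg (sg w) = w := by
  induction w with
  | nil => rfl
  | cons s w ih => simp [ih]
omit L in
@[simp] lemma sg_reverse (w) : sg w.reverse = (sg w).reverse := by simp [sg]
omit L in
@[simp] lemma length_sg (w) : (sg w).length = w.length := by simp [sg]
omit L in
@[simp] lemma dx_sg (w) : dx (sg w) = - dx w := by
  induction w with
  | nil => rfl
  | cons s w ih => simp [ih]; ring
@[simp] lemma dy_sg (w) : dy (sg w) = dy w := by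
  induction w with
  | nil => rfl
  | cons s w ih => simp [ih]
omit L in
@[simp] lemma sg_eq_nil (w) : sg w = [] ↔ w = [] := by simp [sg]
omit L in
lemma sg_injective : Function.Injective sg := fun a b h => by
  have := congrArg sg h; simpa using this

omit L in
lemma dx_le_length (w : List St) : dx w ≤ w.length := by
  induction w with
  | nil => simp
  | cons s w ih => simp; have := s.x_le; omega

/-- all letters belong to the lattice -/
def Ok (w : List St) : Prop := ∀ s ∈ w, s.ok

lemma ok_nil : Ok [] := by intro s hs; simp at hs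
lemma Ok.sub {w u : List St} (h : Ok w) (hu : ∀ s ∈ u, s ∈ w) : Ok u := fun s hs => h s (hu s hs)
lemma Ok.of_inf {w u : List St} (h : Ok w) (hu : u <:+: w) : Ok u := h.sub fun _ hs => hu.subset hs
lemma ok_append {u w : List St} : Ok (u ++ w) ↔ Ok u ∧ Ok w := by
  unfold Ok
  simp only [List.mem_append]
  exact ⟨fun h => ⟨fun s hs => h s (Or.inl hs), fun s hs => h s (Or.inr hs)⟩,
    fun h s hs => hs.elim (h.1 s) (h.2 s)⟩
lemma ok_cons {s : St} {w : List St} : Ok (s :: w) ↔ s.ok ∧ Ok w := by
  unfold Ok
  simp
lemma ok_reverse {w : List St} : Ok w.reverse ↔ Ok w := by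
  unfold Ok
  simp
lemma ok_sg {w : List St} : Ok (sg w) ↔ Ok w := by
  unfold Ok sg
  simp

end H982
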