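import Pool.Agent.H982R3.Lat

/-!
Self-avoiding words, half-plane words, bridges.
-/

set_option linter.unusedSectionVars false

namespace H982

/-! ### prefixes, infixes -/

lemma prefix_append_cases {α : Type*} {u a b : List α} (h : u <+: a ++ b) :
    u <+: a ∨ ∃ v, v <+: b ∧ v ≠ [] ∧ u = a ++ v := by
  obtain ⟨t, ht⟩ := h
  rcases List.append_eq_append_iff.mp ht with ⟨as, h1, h2⟩ | ⟨bs, h1, h2⟩
  · left; exact ⟨as, h1.symm⟩
  · by_cases hb : bs = []
    · left; subst hb; simp at h1; exact ⟨[], by simp [h1]⟩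
    · right; exact ⟨bs, ⟨t, h2.symm⟩, hb, h1⟩

lemma infix_append_cases {α : Type*} {m a b : List α} (h : m <:+: a ++ b) :
    m <:+: a ∨ m <:+: b ∨ ∃ m1 m2, m1 <:+ a ∧ m2 <+: b ∧ m1 ≠ [] ∧ m2 ≠ [] ∧ m = m1 ++ m2 := by
  obtain ⟨s, t, ht⟩ := h
  have hp : s ++ m <+: a ++ b := ⟨t, ht⟩
  rcases prefix_append_cases hp with h1 | ⟨v, hv, hv0, h1⟩
  · left
    obtain ⟨r, hr⟩ := h1
    exact ⟨s, r, hr⟩
  · rcases List.append_eq_append_iff.mp h1 with ⟨as, h2, h3⟩ | ⟨bs, h2, h3⟩
    · -- a = s ++ as, m = as ++ v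
      by_cases has : as = []
      · subst has
        right; left
        rw [h3]; simp
        exact hv.isInfix
      · right; right
        exact ⟨as, v, ⟨s, h2.symm⟩, hv, has, hv0, h3⟩
    · -- s = a ++ bs, v = bs ++ m
      right; left
      obtain ⟨r, hr⟩ := hv
      exact ⟨bs, r, by rw [← h3, hr]⟩

/-! ### self-avoiding words -/

variable [L : Lat]

/-- a word is self-avoiding iff no nonempty contiguous subword has zero displacement -/
def SA (w : List St) : Prop := ∀ m, m <:+: w → dx m = 0 → dy m = 0 → m = []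

/-- self-avoiding words of the lattice -/
def Saw (w : List St) : Prop := SA w ∧ Ok w

lemma SA.subw {w u : List St} (h : SA w) (hu : u <:+: w) : SA u :=
  fun m hm h1 h2 => h m (hm.trans hu) h1 h2

lemma Saw.subw {w u : List St} (h : Saw w) (hu : u <:+: w) : Saw u :=
  ⟨h.1.subw hu, h.2.of_inf hu⟩

lemma saw_nil : Saw [] := ⟨fun m hm _ _ => by simpa using hm, ok_nil⟩

lemma SA.reverse {w : List St} (h : SA w) : SA w.reverse := by
  intro m hm h1 h2
  have h3 : dy m.reverse = 0 := by rw [dy_reverse, h2, mul_zero]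
  have := h m.reverse (by rw [← List.reverse_infix]; simpa using hm) (by simpa using h1) h3
  simpa using this

lemma Saw.reverse {w : List St} (h : Saw w) : Saw w.reverse := ⟨h.1.reverse, ok_reverse.mpr h.2⟩

lemma SA.sg {w : List St} (h : SA w) : SA (sg w) := by
  intro m hm h1 h2
  have h3 : H982.sg m <:+: w := by
    have := hm.map St.sg
    change H982.sg m <:+: H982.sg (H982.sg w) at this
    simpa using this
  have := h _ h3 (by simpa using h1) (by simpa using h2)
  simpa using this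

lemma Saw.sg {w : List St} (h : Saw w) : Saw (sg w) := ⟨h.1.sg, ok_sg.mpr h.2⟩

/-- half-plane words : every nonempty initial segment has positive horizontal displacement -/
def HP (w : List St) : Prop := ∀ u, u <+: w → u ≠ [] → 0 < dx u

lemma HP.prew {w u : List St} (h : HP w) (hu : u <+: w) : HP u :=
  fun m hm h0 => h m (hm.trans hu) h0

lemma HP.dx_nonneg {w : List St} (h : HP w) : 0 ≤ dx w := by
  by_cases hw : w = []
  · simp [hw]
  · exact (h w (List.prefix_refl _) hw).le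

lemma HP.head_x {s : St} {w : List St} (h : HP (s :: w)) : s.x = 1 := by
  apply St.x_pos
  have := h [s] ⟨w, rfl⟩ (by simp)
  simpa using this

/-- the word `w` is a bridge of width `a` -/
def IsBr (a : ℕ) (w : List St) : Prop :=
  Saw w ∧ HP w ∧ (∀ u, u <+: w → dx u ≤ a) ∧ dx w = a

/-- bridges -/
def IsB (w : List St) : Prop := ∃ a, IsBr a w

/-- the width of a word -/
def wd (w : List St) : ℕ := (dx w).toNat

lemma IsBr.saw {a w} (h : IsBr a w) : Saw w := h.1
lemma IsBr.hp {a w} (h : IsBr a w) : HP w := h.2.1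
lemma IsBr.le {a w} (h : IsBr a w) {u} (hu : u <+: w) : dx u ≤ a := h.2.2.1 u hu
lemma IsBr.dx {a w} (h : IsBr a w) : dx w = a := h.2.2.2
lemma IsBr.wd {a w} (h : IsBr a w) : wd w = a := by simp [H982.wd, h.dx]
lemma IsBr.isB {a w} (h : IsBr a w) : IsB w := ⟨a, h⟩
lemma IsB.br {w} (h : IsB w) : IsBr (wd w) w := by
  obtain ⟨a, h⟩ := h; rw [h.wd]; exact h
lemma IsBr.eq {a a' w} (h : IsBr a w) (h' : IsBr a' w) : a = a' := by
  rw [← h.wd, h'.wd]
lemma isBr_iff {a w} : IsBr a w ↔ IsB w ∧ wd w = a :=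
  ⟨fun h => ⟨h.isB, h.wd⟩, fun h => by rw [← h.2]; exact h.1.br⟩

lemma isBr_nil : IsBr 0 [] :=
  ⟨saw_nil, fun u hu h0 => absurd (by simpa using hu) h0, fun u hu => by
    have : u = [] := by simpa using hu
    simp [this], by simp⟩

lemma isB_nil : IsB [] := ⟨0, isBr_nil⟩

lemma IsBr.eq_nil {w} (h : IsBr 0 w) : w = [] := by
  by_contra h0
  have := h.hp w (List.prefix_refl _) h0
  rw [h.dx] at this; simp at this

lemma IsBr.ne_nil {a w} (h : IsBr a w) (ha : 0 < a) : w ≠ [] := by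
  rintro rfl
  have := h.dx
  simp at this; omega

/-- suffixes of bridges have nonnegative displacement -/
lemma IsBr.suffix_nonneg {a w} (h : IsBr a w) {m} (hm : m <:+ w) : 0 ≤ H982.dx m := by
  obtain ⟨s, hs⟩ := hm
  have h1 := h.le ⟨m, hs⟩
  have h2 := h.dx
  rw [← hs] at h2; simp at h2
  omega

lemma IsBr.suffix_lt {a w} (h : IsBr a w) {m} (hm : m <:+ w) (hne : m ≠ w) : H982.dx m < a := by
  obtain ⟨s, hs⟩ := hm
  have hs0 : s ≠ [] := by rintro rfl; exact hne (by simpa using hs)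
  have h1 := h.hp s ⟨m, hs⟩ hs0
  have h2 := h.dx
  rw [← hs] at h2; simp at h2
  omega

lemma IsBr.append {a b u w} (hu : IsBr a u) (hw : IsBr b w) : IsBr (a + b) (u ++ w) := by
  refine ⟨⟨?_, ok_append.mpr ⟨hu.saw.2, hw.saw.2⟩⟩, ?_, ?_, ?_⟩
  · intro m hm h1 h2
    rcases infix_append_cases hm with h | h | ⟨m1, m2, h3, h4, h5, h6, rfl⟩
    · exact hu.saw.1 m h h1 h2
    · exact hw.saw.1 m h h1 h2
    · have := hu.suffix_nonneg h3
      have := hw.hp _ h4 h6
      simp at h1; omega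
  · intro m hm h0
    rcases prefix_append_cases hm with h | ⟨v, h3, h4, rfl⟩
    · exact hu.hp m h h0
    · have := hw.hp _ h3 h4
      have := hu.dx
      simp; omega
  · intro m hm
    rcases prefix_append_cases hm with h | ⟨v, h3, h4, rfl⟩
    · have := hu.le h; push_cast; omega
    · have := hw.le h3
      have := hu.dx
      simp; omega
  · simp [hu.dx, hw.dx]

lemma IsB.append {u w} (hu : IsB u) (hw : IsB w) : IsB (u ++ w) := by
  obtain ⟨a, hu⟩ := hu
  obtain ⟨b, hw⟩ := hw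
  exact ⟨_, hu.append hw⟩

lemma wd_append {u w} (hu : IsB u) (hw : IsB w) : wd (u ++ w) = wd u + wd w := by
  obtain ⟨a, hu⟩ := hu
  obtain ⟨b, hw⟩ := hw
  rw [(hu.append hw).wd, hu.wd, hw.wd]

/-- `X = X1 ++ X2` is a splitting of the bridge `X` at the renewal line `c` -/
def Spl (c : ℕ) (X X1 X2 : List St) : Prop := X = X1 ++ X2 ∧ IsBr c X1 ∧ IsB X2

lemma Spl.refine {c c' : ℕ} {X X1 X2 Y1 Y2 : List St} (h : Spl c X X1 X2) (h' : Spl c' X Y1 Y2)
    (hc : c ≤ c') : ∃ M, Y1 = X1 ++ M ∧ X2 = M ++ Y2 ∧ IsBr (c' - c) M := by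
  obtain ⟨rfl, h1, h2⟩ := h
  obtain ⟨h0, h3, h4⟩ := h'
  rcases List.append_eq_append_iff.mp h0 with ⟨M, h5, h6⟩ | ⟨M, h5, h6⟩
  · refine ⟨M, h5, h6, ?_, ?_, ?_, ?_⟩
    · exact h3.saw.subw ⟨X1, [], by simp [h5]⟩
    · obtain ⟨a, h2⟩ := h2
      exact h2.hp.prew ⟨Y2, h6.symm⟩
    · intro u hu
      have := h3.le (u := X1 ++ u) (by
        rw [h5]; exact (List.prefix_append_right_inj X1).mpr hu)
      have h7 := h1.dx
      simp at this; omega
    · have h7 := h1.dx
      have h8 := h3.dx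
      rw [h5] at h8; simp at h8; omega
  · obtain ⟨a, h4⟩ := h4
    have hM : M = [] := by
      by_contra hM
      have h7 := h4.hp M ⟨X2, h6.symm⟩ hM
      have h8 := h1.dx
      have h9 := h3.dx
      rw [h5] at h8; simp at h8; omega
    subst hM
    simp at h5 h6
    have h8 : c = c' := by
      have h8 := h1.dx
      have h9 := h3.dx
      rw [h5] at h8; omega
    subst h8
    exact ⟨[], by simp [h5], by simp [h6], by simpa using isBr_nil⟩

lemma Spl.unique {c : ℕ} {X X1 X2 Y1 Y2 : List St} (h : Spl c X X1 X2) (h' : Spl c X Y1 Y2) :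
    X1 = Y1 ∧ X2 = Y2 := by
  obtain ⟨M, h1, h2, h3⟩ := h.refine h' le_rfl
  have : M = [] := by
    apply IsBr.eq_nil
    simpa using h3
  subst this
  simp at h1 h2
  exact ⟨h1.symm, h2⟩


end H982
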