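import Pool.Agent.H982R3.Trunc
import Pool.Agent.H982R3.Final2

/-!
Quasi-polynomial bounds for self-avoiding walks, bridges and polygons on `ℤ²` from a polylogarithmic
bound for the folded pairs.
-/

set_option linter.unusedSectionVars false

namespace H982

variable [L : Lat]

open scoped ENNReal
open PowerSeries

/-- half-plane walks are at most `exp (K (1 + log (N+1))^m)` times the bridges -/
def RB (K : ℝ) (m : ℕ) : Prop :=
  ∀ N : ℕ, hh N ≤ ENNReal.ofReal (Real.exp (K * (1 + Real.log (N + 1)) ^ m)) * bn N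

lemma ell_ge_one (N : ℕ) : 1 ≤ 1 + Real.log ((N : ℝ) + 1) := by
  have : 0 ≤ Real.log ((N : ℝ) + 1) := Real.log_nonneg (by
    have : (0 : ℝ) ≤ N := Nat.cast_nonneg N
    linarith)
  linarith

lemma hh_small : ∃ K₁ : ℝ, 0 ≤ K₁ ∧ ∀ N : ℕ, N ≤ 1 →
    hh N ≤ ENNReal.ofReal (Real.exp K₁) * bn N := by
  have h0 := one_le_cr' 0
  have h1 := one_le_cr' 1
  refine ⟨cr' 0 + cr' 1, by linarith, fun N hN => ?_⟩
  have h2 : cr' N ≤ cr' 0 + cr' 1 := by
    have : N = 0 ∨ N = 1 := by omega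
    rcases this with rfl | rfl <;> linarith
  calc hh N ≤ cc N := hh_le_cc N
    _ = ENNReal.ofReal (cr' N) := (ofReal_cr' N).symm
    _ ≤ ENNReal.ofReal (Real.exp (cr' 0 + cr' 1)) := by
        apply ENNReal.ofReal_le_ofReal
        have := Real.add_one_le_exp (cr' 0 + cr' 1)
        linarith
    _ = ENNReal.ofReal (Real.exp (cr' 0 + cr' 1)) * 1 := (mul_one _).symm
    _ ≤ _ := by
        gcongr
        exact one_le_bn N

theorem RB_of_T {C : ℝ} (hC : 0 ≤ C) {k : ℕ} (hk : 1 ≤ k)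
    (H : ∀ N : ℕ, 2 ≤ N → ∀ W, 1 ≤ W → W ≤ 2 * N →
      LeT N (Es W) (cst (ENNReal.ofReal (C * Real.log N ^ k)) * Us (8 * W))) :
    ∃ K : ℝ, 0 ≤ K ∧ RB K (2 * k + 1) := by
  obtain ⟨K₁, hK₁, h1⟩ := hh_small
  refine ⟨K₁ + (28 + 4096 * C ^ 2), by positivity, fun N => ?_⟩
  set l : ℝ := 1 + Real.log ((N : ℝ) + 1) with hl
  have hl1 : 1 ≤ l := ell_ge_one N
  have hlm : 1 ≤ l ^ (2 * k + 1) := one_le_pow₀ hl1
  rcases Nat.lt_or_ge N 2 with hN | hN
  · refine (h1 N (by omega)).trans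
      (mul_le_mul' (ENNReal.ofReal_le_ofReal (Real.exp_le_exp.mpr ?_)) le_rfl)
    have h5 : 0 ≤ 28 + 4096 * C ^ 2 := by positivity
    calc K₁ ≤ (K₁ + (28 + 4096 * C ^ 2)) * 1 := by linarith
      _ ≤ _ := by gcongr
  · have hNr : (2 : ℝ) ≤ N := by exact_mod_cast hN
    have hlog0 : 0 ≤ Real.log N := Real.log_nonneg (by linarith)
    have hlogl : Real.log N ≤ l := by
      have : Real.log (N : ℝ) ≤ Real.log ((N : ℝ) + 1) :=
        Real.log_le_log (by linarith) (by linarith)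
      rw [hl]; linarith
    refine (hh_le_T hN (c := C * Real.log N ^ k) (by positivity) (H N hN)).trans
      (mul_le_mul' (ENNReal.ofReal_le_ofReal (Real.exp_le_exp.mpr ?_)) le_rfl)
    have e1 : l ^ 2 ≤ l ^ (2 * k + 1) := pow_le_pow_right₀ hl1 (by omega)
    calc 4 * Real.log N * (7 * Real.log N + 1024 * (C * Real.log N ^ k) ^ 2)
        ≤ 4 * l * (7 * l + 1024 * (C * l ^ k) ^ 2) := by gcongr
      _ = 28 * l ^ 2 + 4096 * C ^ 2 * l ^ (2 * k + 1) := by ring
      _ ≤ 28 * l ^ (2 * k + 1) + 4096 * C ^ 2 * l ^ (2 * k + 1) := by gcongr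
      _ = (28 + 4096 * C ^ 2) * l ^ (2 * k + 1) := by ring
      _ ≤ (K₁ + (28 + 4096 * C ^ 2)) * l ^ (2 * k + 1) :=
        mul_le_mul_of_nonneg_right (by linarith) (by positivity)

/-- all self-avoiding walks versus bridges with one more step -/
theorem cr'_le_of_RB {K : ℝ} {m : ℕ} (hK : 0 ≤ K) (h : RB K m) (N : ℕ) :
    cr' N ≤ (N + 1) * Real.exp (2 * K * (1 + Real.log ((N : ℝ) + 1 + 1)) ^ m) * br' (N + 1) := by
  set E : ℝ := (1 + Real.log ((N : ℝ) + 1 + 1)) ^ m with hE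
  have h1 : cc N ≤ ENNReal.ofReal ((N + 1) * Real.exp (2 * K * E) * br' (N + 1)) := by
    calc cc N ≤ ∑ k ∈ Finset.range (N + 1), hh (k + 1) * hh (N - k) := cc_le N
      _ ≤ ∑ k ∈ Finset.range (N + 1),
          ENNReal.ofReal (Real.exp (2 * K * E) * br' (N + 1)) := by
        apply Finset.sum_le_sum
        intro k hk
        rw [Finset.mem_range] at hk
        have e1 : ∀ j : ℕ, j ≤ N + 1 → hh j ≤
            ENNReal.ofReal (Real.exp (K * E)) * bn j := by
          intro j hj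
          refine (h j).trans ?_
          have hj' : (j : ℝ) ≤ N + 1 := by exact_mod_cast hj
          have h0 : (0 : ℝ) ≤ j := Nat.cast_nonneg j
          have h2 : 0 ≤ Real.log ((j : ℝ) + 1) := Real.log_nonneg (by linarith)
          have h3 : Real.log ((j : ℝ) + 1) ≤ Real.log ((N : ℝ) + 1 + 1) :=
            Real.log_le_log (by linarith) (by linarith)
          rw [hE]
          gcongr
        calc hh (k + 1) * hh (N - k) ≤
              (ENNReal.ofReal (Real.exp (K * E)) * bn (k + 1)) *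
              (ENNReal.ofReal (Real.exp (K * E)) * bn (N - k)) :=
              mul_le_mul' (e1 _ (by omega)) (e1 _ (by omega))
          _ = ENNReal.ofReal (Real.exp (2 * K * E)) *
              (bn (k + 1) * bn (N - k)) := by
              have : Real.exp (2 * K * E) = Real.exp (K * E) * Real.exp (K * E) := by
                rw [← Real.exp_add]; congr 1; ring
              rw [this, ENNReal.ofReal_mul (Real.exp_pos _).le]
              ring
          _ ≤ ENNReal.ofReal (Real.exp (2 * K * E)) * bn (N + 1) := by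
              gcongr
              have := bn_mul_le (k + 1) (N - k)
              have e2 : k + 1 + (N - k) = N + 1 := by omega
              rwa [e2] at this
          _ = _ := by rw [ENNReal.ofReal_mul (Real.exp_pos _).le, ofReal_br']
      _ = _ := by
        rw [Finset.sum_const, Finset.card_range, nsmul_eq_mul]
        have e3 : ((N + 1 : ℕ) : ℝ≥0∞) = ENNReal.ofReal ((N : ℝ) + 1) := by
          rw [← Nat.cast_succ, ENNReal.ofReal_natCast]
        rw [e3, ← ENNReal.ofReal_mul (by positivity)]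
        congr 1
        ring
  have h2 := ENNReal.toReal_mono ENNReal.ofReal_ne_top h1
  have h3 := one_le_br' (N + 1)
  rwa [ENNReal.toReal_ofReal (by positivity)] at h2

lemma aux_log {N : ℕ} (hN : 2 ≤ N) : 1 + Real.log ((N : ℝ) + 1 + 1) ≤ 4 * Real.log N := by
  have hNr : (2 : ℝ) ≤ N := by exact_mod_cast hN
  have h1 : Real.log ((N : ℝ) + 1 + 1) ≤ Real.log (2 * N) :=
    Real.log_le_log (by linarith) (by linarith)
  rw [Real.log_mul (by norm_num) (by linarith)] at h1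
  have h2 : Real.log 2 ≤ Real.log N := Real.log_le_log (by norm_num) hNr
  have := log_two_gt'
  linarith

lemma aux_numL {K : ℝ} {m : ℕ} (hm : 1 ≤ m) (hK : 0 ≤ K) : ∃ K' : ℝ, 0 ≤ K' ∧ ∀ N : ℕ, 2 ≤ N →
    ((N : ℝ) + 1) * Real.exp (2 * K * (1 + Real.log ((N : ℝ) + 1 + 1)) ^ m) * mu ≤
      Real.exp (K' * Real.log N ^ m) := by
  have hlmu := Real.log_nonneg one_le_mu
  refine ⟨(1 + 2 * K + Real.log mu) * 4 ^ m, by positivity, ?_⟩
  intro N hN
  have hNr : (2 : ℝ) ≤ N := by exact_mod_cast hN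
  have hN0 : (0 : ℝ) < N := by linarith
  have ha := aux_log hN
  set l : ℝ := 1 + Real.log ((N : ℝ) + 1 + 1) with hl
  have hlog : 0 ≤ Real.log ((N : ℝ) + 1 + 1) := Real.log_nonneg (by linarith)
  have hl1 : 1 ≤ l := by rw [hl]; linarith
  have hlm : 1 ≤ l ^ m := one_le_pow₀ hl1
  have hlm' : l ≤ l ^ m := by
    calc l = l ^ 1 := (pow_one l).symm
      _ ≤ l ^ m := pow_le_pow_right₀ hl1 hm
  have h2 : (N : ℝ) + 1 ≤ Real.exp (l ^ m) := by
    calc (N : ℝ) + 1 ≤ (N : ℝ) + 1 + 1 := by linarith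
      _ = Real.exp (Real.log ((N : ℝ) + 1 + 1)) := (Real.exp_log (by linarith)).symm
      _ ≤ _ := Real.exp_le_exp.mpr (by linarith)
  have h3 : mu ≤ Real.exp (Real.log mu * l ^ m) := by
    calc mu = Real.exp (Real.log mu) := (Real.exp_log mu_pos).symm
      _ ≤ _ := by
        apply Real.exp_le_exp.mpr
        nlinarith
  have h4 : l ^ m ≤ 4 ^ m * Real.log N ^ m := by
    rw [← mul_pow]
    exact pow_le_pow_left₀ (by linarith) ha m
  calc ((N : ℝ) + 1) * Real.exp (2 * K * l ^ m) * mu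
      ≤ Real.exp (l ^ m) * Real.exp (2 * K * l ^ m) * Real.exp (Real.log mu * l ^ m) := by
        have := mu_pos
        gcongr
    _ = Real.exp ((1 + 2 * K + Real.log mu) * l ^ m) := by
        rw [← Real.exp_add, ← Real.exp_add]; congr 1; ring
    _ ≤ _ := by
        apply Real.exp_le_exp.mpr
        calc (1 + 2 * K + Real.log mu) * l ^ m
            ≤ (1 + 2 * K + Real.log mu) * (4 ^ m * Real.log N ^ m) := by gcongr
          _ = _ := by ring

/-- **Theorem**: `c_n ≤ μ^n exp (K (log n)^m)` -/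
theorem cr'_upper_log {K : ℝ} {m : ℕ} (hm : 1 ≤ m) (hK : 0 ≤ K) (h : RB K m) :
    ∃ K' : ℝ, 0 ≤ K' ∧ ∀ N : ℕ, 2 ≤ N →
    cr' N ≤ mu ^ N * Real.exp (K' * Real.log N ^ m) := by
  obtain ⟨K', hK', h'⟩ := aux_numL hm hK
  refine ⟨K', hK', fun N hN => ?_⟩
  have h1 := cr'_le_of_RB hK h N
  have h2 := br'_le (N + 1)
  calc cr' N ≤ (N + 1) * Real.exp (2 * K * (1 + Real.log ((N : ℝ) + 1 + 1)) ^ m) * br' (N + 1) := h1
    _ ≤ (N + 1) * Real.exp (2 * K * (1 + Real.log ((N : ℝ) + 1 + 1)) ^ m) * mu ^ (N + 1) := by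
        gcongr
    _ = mu ^ N * ((N + 1) * Real.exp (2 * K * (1 + Real.log ((N : ℝ) + 1 + 1)) ^ m) * mu) := by ring
    _ ≤ _ := by
      have := mu_pos
      gcongr
      exact h' N hN

/-- **Theorem**: `b_n ≥ μ^n exp (- K (log n)^m)` -/
theorem br'_lower_log {K : ℝ} {m : ℕ} (hm : 1 ≤ m) (hK : 0 ≤ K) (h : RB K m) :
    ∃ K' : ℝ, 0 ≤ K' ∧ ∀ N : ℕ, 2 ≤ N →
    mu ^ N * Real.exp (- (K' * Real.log N ^ m)) ≤ br' N := by
  obtain ⟨K', hK', h'⟩ := aux_numL hm hK
  refine ⟨K', hK', fun N hN => ?_⟩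
  have h0 := h' N hN
  obtain ⟨n, rfl⟩ := Nat.exists_eq_succ_of_ne_zero (by omega : N ≠ 0)
  have h1 := cr'_le_of_RB hK h n
  have h2 := mu_pow_le n
  have hb := one_le_br' (n + 1)
  have hmu := one_le_mu
  have hmu0 := mu_pos
  have hn0 : (0 : ℝ) ≤ n := Nat.cast_nonneg n
  have hlog : 0 ≤ Real.log ((n : ℝ) + 1 + 1) := Real.log_nonneg (by linarith)
  have h4 : ((n : ℝ) + 1) * Real.exp (2 * K * (1 + Real.log ((n : ℝ) + 1 + 1)) ^ m) * mu ≤
      Real.exp (K' * Real.log ((n + 1 : ℕ) : ℝ) ^ m) := by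
    refine le_trans ?_ h0
    push_cast
    have e1 : (n : ℝ) + 1 ≤ (n : ℝ) + 1 + 1 := by linarith
    have e2 : Real.log ((n : ℝ) + 1 + 1) ≤ Real.log ((n : ℝ) + 1 + 1 + 1) :=
      Real.log_le_log (by linarith) (by linarith)
    gcongr
  rw [Real.exp_neg, ← div_eq_mul_inv, div_le_iff₀ (Real.exp_pos _)]
  calc mu ^ (n + 1) = mu ^ n * mu := pow_succ _ _
    _ ≤ ((n + 1) * Real.exp (2 * K * (1 + Real.log ((n : ℝ) + 1 + 1)) ^ m) * br' (n + 1)) * mu := by
        gcongr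
        exact h2.trans h1
    _ = br' (n + 1) *
        ((n + 1) * Real.exp (2 * K * (1 + Real.log ((n : ℝ) + 1 + 1)) ^ m) * mu) := by ring
    _ ≤ _ := by gcongr

end H982
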