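import Pool.Agent.H982R3.RPlan

/-!
T5: closure of the pairs of pivots under T-moves.
-/

set_option linter.unusedSectionVars false

namespace H982R

open H982F (Saw Adj Cut Up fl zf ct SawSet mem_SawSet FBr BrSet mem_BrSet)

variable [L : H982.Lat]

theorem rf_le {w : Wk} {t i : ℕ} (h : i ≤ t) : rf w t i = w i :=
  H982F.fl_le h

theorem rf_gt {w : Wk} {t i : ℕ} (h : t < i) :
    rf w t i = (2 * (w t).1 - (w i).1, (w i).2) :=
  H982F.fl_gt h

theorem tm_le {w : Wk} {t t' i : ℕ} (h : i ≤ t) : tm w t t' i = w i :=
  H982F.zf_le h

theorem tm_mid {w : Wk} {t t' i : ℕ} (h : t < i) (h' : i ≤ t') :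
    tm w t t' i = (2 * (w t).1 - (w i).1, (w i).2) :=
  H982F.zf_mid h h'

theorem tm_gt {w : Wk} {t t' i : ℕ} (h : t < i) (h' : t' < i) :
    tm w t t' i = ((w i).1 - 2 * ((w t').1 - (w t).1), (w i).2) :=
  H982F.zf_gt h h'

theorem rf_rf (w : Wk) (t : ℕ) : rf (rf w t) t = w := by
  funext i
  rcases le_or_gt i t with h | h
  · rw [rf_le h, rf_le h]
  · rw [rf_gt h, rf_gt h, rf_le le_rfl]
    ext <;> simp

theorem rf_tm_left {w : Wk} {t t' : ℕ} (h : t ≤ t') : rf (tm w t t') t = rf w t' := by
  funext i
  rcases le_or_gt i t with h1 | h1
  · rw [rf_le h1, tm_le h1, rf_le (h1.trans h)]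
  · rw [rf_gt h1, tm_le le_rfl]
    rcases le_or_gt i t' with h2 | h2
    · rw [tm_mid h1 h2, rf_le h2]
      ext <;> simp
    · rw [tm_gt h1 h2, rf_gt h2]
      ext
      · simp only; ring
      · rfl

theorem rf_tm_right {w : Wk} {t t' : ℕ} (h : t ≤ t') : rf (tm w t t') t' = rf w t := by
  funext i
  rcases le_or_gt i t' with h2 | h2
  · rw [rf_le h2]
    rcases le_or_gt i t with h1 | h1
    · rw [tm_le h1, rf_le h1]
    · rw [tm_mid h1 h2, rf_gt h1]
  · have h1 : t < i := by omega
    rw [rf_gt h2, tm_gt h1 h2, rf_gt h1]
    rcases Nat.eq_or_lt_of_le h with h3 | h3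
    · subst h3
      rw [tm_le le_rfl]
      ext
      · simp only; ring
      · rfl
    · rw [tm_mid h3 le_rfl]
      ext
      · simp only; ring
      · rfl

theorem tm_tm {w : Wk} {t t' : ℕ} (h : t ≤ t') : tm (tm w t t') t t' = w := by
  funext i
  rcases le_or_gt i t with h1 | h1
  · rw [tm_le h1, tm_le h1]
  · rcases le_or_gt i t' with h2 | h2
    · rw [tm_mid h1 h2, tm_mid h1 h2, tm_le le_rfl]
      ext <;> simp
    · rw [tm_gt h1 h2, tm_gt h1 h2, tm_le le_rfl]
      rcases Nat.eq_or_lt_of_le h with h3 | h3
      · subst h3
        rw [tm_le le_rfl]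
        ext
        · simp only; ring
        · rfl
      · rw [tm_mid h3 le_rfl]
        ext
        · simp only; ring
        · rfl

theorem tm_self (w : Wk) (t : ℕ) : tm w t t = w := by
  funext i
  rcases le_or_gt i t with h1 | h1
  · rw [tm_le h1]
  · rw [tm_gt h1 h1]
    ext <;> simp

theorem tm_PQ {N : ℕ} {l A B : ℤ} {ta td t t' : ℕ} {w : Wk} (hlA : l ≤ A) (hlB : l ≤ B)
    (h : PQ N l A B ta td w t t') : PQ N l A B ta td (tm w t t') t t' := by
  rcases Nat.eq_or_lt_of_le h.le with h0 | htt
  · subst h0
    rw [tm_self]
    exact h
  have hpl := fun hop => planar2 hlA hlB h htt hop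
  obtain ⟨om, gf, gb, -, hc1, hc2⟩ := h
  obtain ⟨br, cta, ctd, hle, a1, a2, amin, b1, b2, bmax⟩ := om
  obtain ⟨saw, bpos, ble⟩ := br
  obtain ⟨ctaN, cta1, cta2⟩ := cta
  obtain ⟨ctdN, ctd1, ctd2⟩ := ctd
  have g1 := gf.h1
  have g2 := gf.h2
  have g1' := gb.h1
  have g2' := gb.h2
  have hw0 : (w 0).1 = 0 := by rw [saw.zero]
  have ha0 : 0 ≤ (w ta).1 := by have := cta1 0 (by omega); omega
  -- values of the new walk
  obtain ⟨v, hv⟩ : ∃ v, v = tm w t t' := ⟨_, rfl⟩
  have vle : ∀ i, i ≤ t → v i = w i := fun i hi => by rw [hv, tm_le hi]
  have vmid : ∀ i, t < i → i ≤ t' → v i = (2 * (w t).1 - (w i).1, (w i).2) :=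
    fun i h1 h2 => by rw [hv, tm_mid h1 h2]
  have vgt : ∀ i, t' < i → v i = ((w i).1 - 2 * ((w t').1 - (w t).1), (w i).2) :=
    fun i h1 => by rw [hv, tm_gt (by omega) h1]
  have vtd : (v td).1 = (w td).1 - 2 * ((w t').1 - (w t).1) := by
    rcases Nat.eq_or_lt_of_le g2' with h1 | h1
    · rw [← h1, vmid t' htt le_rfl]; simp only; ring
    · rw [vgt td h1]
  have vN : (v N).1 = (w N).1 - 2 * ((w t').1 - (w t).1) := by rw [vgt N (by omega)]
  have hdX : (w td).1 ≤ (w N).1 := ble td (by omega)
  have hc2t := hc2 t le_rfl htt.le
  have hc1t := hc1 t' htt le_rfl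
  have hmn1 := gb.mn (t' + 1) (by omega)
  have hadj1 := saw.adj t' (by omega)
  have hup' := gb.up
  have hs1 : (w (t' + 1)).1 = (w t').1 + 1 := by
    have := hadj1.abs_fst; omega
  have vsnd : ∀ i, (v i).2 = (w i).2 := by
    intro i
    rcases le_or_gt i t with h1 | h1
    · rw [vle i h1]
    · rcases le_or_gt i t' with h2 | h2
      · rw [vmid i h1 h2]
      · rw [vgt i h2]
  have hsaw : Saw N v := by
    constructor
    · rw [vle 0 (by omega)]; exact saw.zero
    · intro i hi
      have ha := saw.adj i hi
      rcases lt_trichotomy i t with h1 | h1 | h1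
      · rw [vle i (by omega), vle (i + 1) (by omega)]; exact ha
      · subst h1
        rw [vle i (by omega), vmid (i + 1) (by omega) (by omega)]
        have h3 := ha.refl2 (w i).1
        have h4 : (2 * (w i).1 - (w i).1, (w i).2) = w i := by
          ext
          · simp only; ring
          · rfl
        rw [h4] at h3
        exact h3
      · rcases lt_trichotomy i t' with h2 | h2 | h2
        · rw [vmid i (by omega) (by omega), vmid (i + 1) (by omega) (by omega)]
          exact ha.refl2 _
        · subst h2
          rw [vmid i (by omega) (by omega), vgt (i + 1) (by omega)]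
          have h3 := ha.shift ((w i).1 - (w t).1)
          have h4 : ((w i).1 - 2 * ((w i).1 - (w t).1), (w i).2) =
              (2 * (w t).1 - (w i).1, (w i).2) := by
            ext
            · simp only; ring
            · rfl
          rw [h4] at h3
          exact h3
        · rw [vgt i (by omega), vgt (i + 1) (by omega)]
          exact ha.shift _
    · have main : ∀ i k, i < k → k ≤ N → v i ≠ v k := by
        intro i k hik hk heq
        rcases Nat.lt_or_ge t i with hi | hi
        · rcases Nat.lt_or_ge t' i with hi' | hi'
          · rw [vgt i hi', vgt k (by omega), Prod.mk.injEq] at heq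
            have : w i = w k := by ext <;> omega
            have := saw.inj i k (by omega) hk this
            omega
          · rcases Nat.lt_or_ge t' k with hk' | hk'
            · rw [vmid i hi hi', vgt k hk', Prod.mk.injEq] at heq
              refine gb.ls i k hik hk (Or.inl (by omega)) ?_
              rw [rf_le hi', rf_gt hk']
              ext <;> simp only <;> omega
            · rw [vmid i hi hi', vmid k (by omega) hk', Prod.mk.injEq] at heq
              have : w i = w k := by ext <;> omega
              have := saw.inj i k (by omega) hk this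
              omega
        · rcases Nat.lt_or_ge t k with hk1 | hk1
          · rcases Nat.lt_or_ge t' k with hk' | hk'
            · rw [vle i hi, vgt k hk'] at heq
              rcases lt_or_ge (w t).1 (w t').1 with hop | hop
              · exact hpl hop i k hi hk' hk heq
              · have h1 := gf.mx i hi
                have h2 := gb.mn k hk'
                have h3 := congrArg Prod.fst heq
                simp only at h3
                omega
            · rw [vle i hi, vmid k hk1 hk'] at heq
              refine gf.ls i k hik hk (Or.inr (by omega)) ?_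
              rw [rf_le hi, rf_gt hk1, heq]
          · rw [vle i hi, vle k hk1] at heq
            have := saw.inj i k (by omega) hk heq
            omega
      intro i k hi hk heq
      rcases lt_trichotomy i k with h | h | h
      · exact absurd heq (main i k h hk)
      · exact h
      · exact absurd heq.symm (main k i h hi)
    · intro i hi
      rw [vgt i (by omega), vgt N (by omega), saw.const i hi]
    · exact saw.al.congr (fun i _ => vsnd i)
  have hbr : FBr N v := by
    refine ⟨hsaw, ?_, ?_⟩
    · intro i hi1 hi2
      rcases le_or_gt i t with h1 | h1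
      · rw [vle i h1]; exact bpos i hi1 hi2
      · rcases le_or_gt i t' with h2 | h2
        · rw [vmid i h1 h2]
          have := hc1 i h1 h2
          simp only
          omega
        · rw [vgt i h2]
          have := gb.mn i h2
          simp only
          omega
    · intro i hi
      rw [vN]
      rcases le_or_gt i t with h1 | h1
      · rw [vle i h1]
        have := gf.mx i h1
        omega
      · rcases le_or_gt i t' with h2 | h2
        · rw [vmid i h1 h2]
          have := hc2 i h1.le h2
          simp only
          omega
        · rw [vgt i h2]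
          have := ble i hi
          simp only
          omega
  have hom : Om N l A B ta td v := by
    refine ⟨hbr, ⟨ctaN, ?_, ?_⟩, ⟨ctdN, ?_, ?_⟩, hle, ?_, ?_, ?_, ?_, ?_, ?_⟩
    · intro i hi
      rw [vle i (by omega), vle ta g1]
      exact cta1 i hi
    · intro i hi
      rw [vle ta g1]
      rcases le_or_gt i t with h1 | h1
      · rw [vle i h1]; exact cta2 i hi
      · rcases le_or_gt i t' with h2 | h2
        · rw [vmid i h1 h2]
          have := hc1 i h1 h2
          simp only
          omega
        · rw [vgt i h2]
          have := gb.mn i h2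
          simp only
          omega
    · intro i hi
      rw [vtd]
      rcases le_or_gt i t with h1 | h1
      · rw [vle i h1]
        have := gf.mx i h1
        omega
      · rcases le_or_gt i t' with h2 | h2
        · rw [vmid i h1 h2]
          have := hc2 i h1.le h2
          simp only
          omega
        · rw [vgt i h2]
          have := ctd1 i hi
          simp only
          omega
    · intro i hi
      rw [vtd, vgt i (by omega)]
      have := ctd2 i hi
      simp only
      omega
    · rw [vle ta g1]; exact a1
    · rw [vle ta g1]; exact a2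
    · rintro s ⟨hsN, hs1, hs2⟩ hsA
      by_contra hcon
      have hst : s < ta := by omega
      rw [vle s (by omega)] at hs1 hs2 hsA
      refine hcon (amin s ⟨hsN, ?_, ?_⟩ hsA)
      · intro i hi
        have := hs1 i hi
        rw [vle i (by omega)] at this
        exact this
      · intro i hi
        rcases le_or_gt i ta with h1 | h1
        · have := hs2 i hi
          rw [vle i (by omega)] at this
          exact this
        · have h2 := cta2 i h1
          have h3 := cta1 s hst.le
          omega
    · rw [vN, vtd]; omega
    · rw [vN, vtd]; omega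
    · rintro s ⟨hsN, hs1, hs2⟩ hsB
      by_contra hcon
      have hst : td < s := by omega
      rw [vgt s (by omega)] at hs1 hs2 hsB
      rw [vN] at hsB
      simp only at hs1 hs2 hsB
      refine hcon (bmax s ⟨hsN, ?_, ?_⟩ (by omega))
      · intro i hi
        rcases le_or_gt i td with h1 | h1
        · have h2 := ctd1 i h1
          have h3 := ctd2 s hst
          omega
        · have := hs1 i hi
          rw [vgt i (by omega)] at this
          simp only at this
          omega
      · intro i hi
        have := hs2 i hi
        rw [vgt i (by omega)] at this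
        simp only at this
        omega
  rw [← hv]
  refine ⟨hom, ⟨g1, g2, ?_, ?_, ?_, ?_⟩, ⟨g1', g2', ?_, ?_, ?_, ?_⟩, htt.le, ?_, ?_⟩
  · have := gf.up
    unfold Up at *
    rw [vsnd, vsnd, vsnd, vle t le_rfl, vle (t - 1) (by omega)]
    exact this
  · intro i hi
    rw [vle t le_rfl, vle i hi]
    exact gf.mx i hi
  · rw [vle t le_rfl, vle ta g1]; exact gf.win
  · rw [hv, rf_tm_left htt.le]; exact gb.ls
  · unfold Up at *
    refine ⟨hup'.1, ?_, ?_⟩
    · rw [vsnd, vsnd]; exact hup'.2.1
    · rw [vsnd, vsnd]
      rcases hup'.2.2 with h5 | h5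
      · left
        rw [vmid t' htt le_rfl]
        rcases Nat.eq_or_lt_of_le (show t ≤ t' - 1 by omega) with h1 | h1
        · rw [vle (t' - 1) (by omega), h5]
          have h2 : (w t).1 = (w t').1 := by rw [h1, h5]
          simp only; omega
        · rw [vmid (t' - 1) h1 (by omega)]
          simp only; omega
      · right; exact h5
  · intro i hi
    rw [vmid t' htt le_rfl, vgt i hi]
    have := gb.mn i hi
    simp only
    omega
  · rw [vtd, vmid t' htt le_rfl]
    have := gb.win
    simp only
    omega
  · rw [hv, rf_tm_right htt.le]; exact gf.ls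
  · intro i h1 h2
    rw [vmid i h1 h2, vle t le_rfl, vle ta g1]
    have := cta2 i (by omega)
    simp only
    omega
  · intro i h1 h2
    rw [vmid t' htt le_rfl, vtd]
    rcases Nat.eq_or_lt_of_le h1 with h3 | h3
    · subst h3
      rw [vle t le_rfl]
      have := ctd1 t (by omega)
      simp only
      omega
    · rw [vmid i h3 h2]
      have := ctd1 i (by omega)
      simp only
      omega

end H982R
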