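import Pool.Agent.H977R3.Ineq
import Pool.Agent.H977R3.Ferr
import Pool.Agent.H982R3.RClos
import Pool.Agent.H982R3.RCov

/-!
T7: the number of folded objects is at most polylogarithmic times the number of walks.
-/

set_option linter.unusedSectionVars false

namespace H982R

open H982F (Saw Adj Cut Up fl zf ct SawSet mem_SawSet FBr BrSet mem_BrSet)

variable [L : H982.Lat]

open Pool.Agent.H977R3 (abs_ineq Y_le)

namespace MainAux

theorem td_lt {N : ℕ} {l A B : ℤ} {ta td : ℕ} {w : Wk} (h : Om N l A B ta td w) : td < N :=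
  h.ctd.1

theorem QP.lt {N : ℕ} {l A B : ℤ} {w : Wk} {t t' : ℕ} (h : QP N l A B w t t') :
    t < N ∧ t' < N := by
  obtain ⟨⟨ta, td, hp⟩, _⟩ := h
  have h1 := td_lt hp.om
  exact ⟨lt_of_le_of_lt hp.gf.h2 h1, lt_of_le_of_lt hp.gb.h2 h1⟩

theorem QP.saw {N : ℕ} {l A B : ℤ} {w : Wk} {t t' : ℕ} (h : QP N l A B w t t') :
    w ∈ SawSet N := by
  obtain ⟨⟨ta, td, hp⟩, _⟩ := h
  exact mem_SawSet.mpr hp.om.br.saw

theorem mem_QQ {N : ℕ} {l A B : ℤ} {c : Wk × ℕ × ℕ} :
    c ∈ QQ N l A B ↔ QP N l A B c.1 c.2.1 c.2.2 := by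
  classical
  unfold QQ
  simp only [Finset.mem_filter, Finset.mem_product, Finset.mem_range]
  exact ⟨fun h => h.2, fun h => ⟨⟨QP.saw h, QP.lt h⟩, h⟩⟩

theorem mem_RR {N : ℕ} {l A B : ℤ} {w : Wk} {p : ℕ × ℕ} :
    p ∈ RR N l A B w ↔ QP N l A B w p.1 p.2 := by
  classical
  unfold RR
  simp only [Finset.mem_filter, Finset.mem_product, Finset.mem_range]
  exact ⟨fun h => h.2, fun h => ⟨QP.lt h, h⟩⟩

theorem mem_WW {N : ℕ} {l A B : ℤ} {w : Wk} :
    w ∈ WW N l A B ↔ ∃ t t', QP N l A B w t t' := by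
  classical
  unfold WW
  simp only [Finset.mem_filter]
  exact ⟨fun h => h.2, fun h => ⟨by obtain ⟨t, t', h⟩ := h; exact QP.saw h, h⟩⟩

theorem mem_VV {N : ℕ} {l A B : ℤ} {v : Wk} : v ∈ VV N l A B ↔ IsV N l A B v := by
  classical
  unfold VV
  simp only [Finset.mem_filter, Finset.mem_image, Finset.mem_product, Finset.mem_range]
  refine ⟨fun h => h.2, fun h => ⟨?_, h⟩⟩
  obtain ⟨w, ta, td, j, ho, hf, hb, rfl⟩ := h
  exact ⟨(w, j), ⟨mem_SawSet.mpr ho.br.saw, lt_of_le_of_lt hf.h2 (td_lt ho)⟩, rfl⟩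

/-- the sum over `QQ` as a double sum -/
theorem sum_QQ {N : ℕ} {l A B : ℤ} (f : Wk × ℕ × ℕ → ℝ) :
    ∑ c ∈ QQ N l A B, f c = ∑ w ∈ WW N l A B, ∑ p ∈ RR N l A B w, f (w, p) := by
  classical
  rw [Finset.sum_sigma']
  refine Finset.sum_nbij' (fun c => ⟨c.1, c.2⟩) (fun c => (c.1, c.2)) ?_ ?_ ?_ ?_ ?_
  · intro c hc
    rw [mem_QQ] at hc
    simp only [Finset.mem_sigma, mem_WW, mem_RR]
    exact ⟨⟨_, _, hc⟩, hc⟩
  · intro c hc
    simp only [Finset.mem_sigma, mem_WW, mem_RR] at hc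
    rw [mem_QQ]
    exact hc.2
  · intro c _; rfl
  · intro c _; rfl
  · intro c _; rfl

theorem sum_filter_QQ_left [DecidableEq Wk] {N : ℕ} {l A B : ℤ} (f : Wk × ℕ × ℕ → ℝ) (w : Wk)
    (t : ℕ) :
    ∑ c ∈ (QQ N l A B).filter (fun c => c.1 = w ∧ c.2.1 = t), f c =
      ∑ q ∈ (RR N l A B w).filter (fun q => q.1 = t), f (w, q) := by
  classical
  refine Finset.sum_nbij' (fun c => c.2) (fun q => (w, q)) ?_ ?_ ?_ ?_ ?_
  · intro c hc
    rw [Finset.mem_filter, mem_QQ] at hc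
    obtain ⟨h1, h2, h3⟩ := hc
    rw [Finset.mem_filter, mem_RR]
    rw [h2] at h1
    exact ⟨h1, h3⟩
  · intro q hq
    rw [Finset.mem_filter, mem_RR] at hq
    rw [Finset.mem_filter, mem_QQ]
    exact ⟨hq.1, rfl, hq.2⟩
  · intro c hc
    rw [Finset.mem_filter] at hc
    exact Prod.ext hc.2.1.symm rfl
  · intro q _; rfl
  · intro c hc
    rw [Finset.mem_filter] at hc
    obtain ⟨c1, c2⟩ := c
    simp only at hc ⊢
    rw [hc.2.1]

theorem sum_filter_QQ_right [DecidableEq Wk] {N : ℕ} {l A B : ℤ} (f : Wk × ℕ × ℕ → ℝ) (w : Wk)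
    (t : ℕ) :
    ∑ c ∈ (QQ N l A B).filter (fun c => c.1 = w ∧ c.2.2 = t), f c =
      ∑ q ∈ (RR N l A B w).filter (fun q => q.2 = t), f (w, q) := by
  classical
  refine Finset.sum_nbij' (fun c => c.2) (fun q => (w, q)) ?_ ?_ ?_ ?_ ?_
  · intro c hc
    rw [Finset.mem_filter, mem_QQ] at hc
    obtain ⟨h1, h2, h3⟩ := hc
    rw [Finset.mem_filter, mem_RR]
    rw [h2] at h1
    exact ⟨h1, h3⟩
  · intro q hq
    rw [Finset.mem_filter, mem_RR] at hq
    rw [Finset.mem_filter, mem_QQ]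
    exact ⟨hq.1, rfl, hq.2⟩
  · intro c hc
    rw [Finset.mem_filter] at hc
    exact Prod.ext hc.2.1.symm rfl
  · intro q _; rfl
  · intro c hc
    rw [Finset.mem_filter] at hc
    obtain ⟨c1, c2⟩ := c
    simp only at hc ⊢
    rw [hc.2.1]

theorem QP_tm {N : ℕ} {l A B : ℤ} (hlA : l ≤ A) (hlB : l ≤ B) {w : Wk} {t t' : ℕ}
    (h : QP N l A B w t t') : QP N l A B (tm w t t') t t' := by
  obtain ⟨⟨ta, td, hp⟩, h1, h2⟩ := h
  refine ⟨⟨ta, td, tm_PQ hlA hlB hp⟩, ?_, ?_⟩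
  · rw [rf_tm_left hp.le]; exact h2
  · rw [rf_tm_right hp.le]; exact h1

theorem QP.lee {N : ℕ} {l A B : ℤ} {w : Wk} {t t' : ℕ} (h : QP N l A B w t t') : t ≤ t' := by
  obtain ⟨⟨ta, td, hp⟩, _⟩ := h
  exact hp.le

/-- the diagonal pair of a folded object -/
theorem QP_diag {N : ℕ} {l A B : ℤ} {w : Wk} {ta td j : ℕ} (ho : Om N l A B ta td w)
    (hf : GF N l ta td w j) (hb : GB N l ta td w j) : QP N l A B w j j := by
  have hV : IsV N l A B (rf w j) := ⟨w, ta, td, j, ho, hf, hb, rfl⟩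
  refine ⟨⟨ta, td, ho, hf, hb, le_rfl, fun i h1 h2 => absurd h1 (by omega), ?_⟩, hV, hV⟩
  intro i h1 h2
  have hij : i = j := le_antisymm h2 h1
  subst hij
  have : (w i).1 ≤ (w td).1 := by
    have h3 := ho.ctd.2.1 i hf.h2
    exact h3
  linarith

end MainAux

open MainAux in
/-- T7 (Main.lean). The number of folded objects. -/
theorem card_VV_le {N : ℕ} {l A B : ℤ} (hN : 1 ≤ N) (hlA : l ≤ A) (hlB : l ≤ B) :
    ((VV N l A B).card : ℝ) ≤
      4 * (Nat.log 2 l.toNat + 2) ^ 2 * (1 + 3 * Real.log N) * ((WW N l A B).card : ℝ) := by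
  classical
  have hNr : (1:ℝ) ≤ N := by exact_mod_cast hN
  obtain ⟨g, hg1, hg2⟩ := abs_ineq (QQ N l A B) (fun c => (tm c.1 c.2.1 c.2.2, c.2.1, c.2.2)) rf
    (VV N l A B)
    (fun c hc => by
      rw [mem_QQ] at hc ⊢
      exact QP_tm hlA hlB hc)
    (fun c hc => by
      rw [mem_QQ] at hc
      simp only
      rw [tm_tm (QP.lee hc)])
    (fun c hc => rfl)
    (fun c hc => by
      rw [mem_QQ] at hc
      exact rf_tm_left (QP.lee hc))
    (fun c hc => by
      rw [mem_QQ] at hc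
      rw [mem_VV]
      exact hc.2.1)
    (fun v hv => by
      rw [mem_VV] at hv
      obtain ⟨w, ta, td, j, ho, hf, hb, rfl⟩ := hv
      exact ⟨w, j, mem_QQ.mpr (QP_diag ho hf hb), rfl⟩)
    (fun c hc c' hc' h1 h2 => by
      have h3 : c.2.1 = c'.2.1 := by rw [h2]
      rw [h3] at h1
      have h4 := congrArg (fun v => rf v c'.2.1) h1
      simp only [rf_rf] at h4
      exact Prod.ext h4 h2)
    ((N:ℝ) ^ 2)
    (fun v hv => by
      have hinj : Set.InjOn (fun c : Wk × ℕ × ℕ => c.2)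
          ((QQ N l A B).filter (fun c => rf c.1 c.2.1 = v) : Set (Wk × ℕ × ℕ)) := by
        intro c hc c' hc' h2
        simp only [Finset.coe_filter, Set.mem_ofPred_eq] at hc hc'
        have h2' : c.2 = c'.2 := h2
        have h3 : c.2.1 = c'.2.1 := by rw [h2']
        have h1 := hc.2.trans hc'.2.symm
        rw [h3] at h1
        have h4 := congrArg (fun v => rf v c'.2.1) h1
        simp only [rf_rf] at h4
        exact Prod.ext h4 h2'
      have hsub : ((QQ N l A B).filter (fun c => rf c.1 c.2.1 = v)).image (fun c => c.2) ⊆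
          Finset.range N ×ˢ Finset.range N := by
        intro p hp
        rw [Finset.mem_image] at hp
        obtain ⟨c, hc, rfl⟩ := hp
        rw [Finset.mem_filter, mem_QQ] at hc
        rw [Finset.mem_product, Finset.mem_range, Finset.mem_range]
        exact QP.lt hc.1
      have := Finset.card_le_card hsub
      rw [Finset.card_image_of_injOn hinj, Finset.card_product, Finset.card_range] at this
      rw [sq]
      exact_mod_cast this)
  refine hg2.trans ?_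
  rw [sum_QQ]
  have hterm : ∀ w ∈ WW N l A B, ∑ p ∈ RR N l A B w,
      g (rf (w, p).1 (w, p).2.1) * g (rf (w, p).1 (w, p).2.2) /
        ((∑ c' ∈ (QQ N l A B).filter (fun c' => c'.1 = (w, p).1 ∧ c'.2.1 = (w, p).2.1),
            g (rf c'.1 c'.2.2)) *
         (∑ c' ∈ (QQ N l A B).filter (fun c' => c'.1 = (w, p).1 ∧ c'.2.2 = (w, p).2.2),
            g (rf c'.1 c'.2.1))) ≤
      4 * (Nat.log 2 l.toNat + 2) ^ 2 * (1 + 3 * Real.log N) := by
    intro w hw
    obtain ⟨col, hcol⟩ := cover N l A B w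
    have hY := Y_le (RR N l A B w) col (fun t => g (rf w t)) (fun t => g (rf w t)) N ((N:ℝ) ^ 2)
      (by nlinarith [one_le_pow₀ hNr (n := 2)])
      (fun p hp => by rw [mem_RR] at hp; exact (QP.lt hp).1)
      (fun p hp => by rw [mem_RR] at hp; exact hg1 _ (mem_VV.mpr hp.2.1))
      (fun p hp => by rw [mem_RR] at hp; exact (hg1 _ (mem_VV.mpr hp.2.2)).1)
      hcol
    refine le_trans (le_of_eq ?_) (hY.trans (le_of_eq ?_))
    · apply Finset.sum_congr rfl
      intro p _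
      simp only
      rw [sum_filter_QQ_left (fun c' => g (rf c'.1 c'.2.2)),
        sum_filter_QQ_right (fun c' => g (rf c'.1 c'.2.1))]
    · have hl : Real.log ((N:ℝ) * (N:ℝ) ^ 2) = 3 * Real.log N := by
        rw [← pow_succ', Real.log_pow]; norm_num
      rw [hl]
      simp only [Fintype.card_prod, Fintype.card_fin, Fintype.card_bool]
      push_cast
      ring
  refine (Finset.sum_le_sum hterm).trans (le_of_eq ?_)
  rw [Finset.sum_const, nsmul_eq_mul]
  ring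

end H982R
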