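import Pool.Agent.H982R3.RSum

/-!
The polylogarithmic bound on the number of foldable cut levels, with a lower bound for the widths.
-/

set_option linter.unusedSectionVars false

namespace H982R

open H982F (Saw Adj Cut Up fl zf ct SawSet mem_SawSet FBr BrSet mem_BrSet)
open scoped ENNReal

variable [L : H982.Lat]

/-- bridges of width at least `κ / c` -/
noncomputable def BrK (N W : ℕ) (c κ : ℤ) : Finset Wk :=
  (BrSet N W).filter (fun w => κ ≤ c * (w N).1)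

lemma mem_BrK {N W : ℕ} {c κ : ℤ} {w : Wk} :
    w ∈ BrK N W c κ ↔ w ∈ BrSet N W ∧ κ ≤ c * (w N).1 := by
  unfold BrK
  rw [Finset.mem_filter]

/-- pairs with width at least `κ` -/
noncomputable def Sum_pairsK (N W : ℕ) (κ : ℤ) : Finset (Wk × ℤ) :=
  (Sum_pairs N W).filter (fun p => κ ≤ (p.1 N).1)

lemma Sum_pairsK_card (N W : ℕ) (κ : ℤ) :
    (Sum_pairsK N W κ).card = ∑ w ∈ BrK N W 1 κ, (H982F.JA N W w).card := by
  classical
  have h : Sum_pairsK N W κ =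
      (BrK N W 1 κ ×ˢ Finset.Icc (1 : ℤ) W).filter (fun p => p.2 ∈ H982F.JA N W p.1) := by
    ext p
    unfold Sum_pairsK Sum_pairs
    simp only [Finset.mem_filter, Finset.mem_product, mem_BrK, one_mul]
    tauto
  rw [h, Finset.card_filter, Finset.sum_product]
  apply Finset.sum_congr rfl
  intro w _
  rw [← Finset.card_filter]
  congr 1
  ext m
  rw [Finset.mem_filter]
  constructor
  · exact fun h => h.2
  · intro h
    refine ⟨?_, h⟩
    unfold H982F.JA at h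
    exact (Finset.mem_filter.1 h).1

/-- for fixed scale the classes overlap at most five times -/
lemma Sum_overlapK {N W : ℕ} {κ : ℤ} {l : ℤ} (hl : 0 < l) (T : Finset ℕ)
    (hT : ∀ b ∈ T, 1 ≤ b ∧ l + l * (b : ℤ) ≤ W ∧ κ ≤ 2 * (l + l * (b : ℤ))) (A B : ℕ → ℤ)
    (hAB : ∀ b ∈ T, A b + B b = l + l * (b : ℤ)) :
    ∑ b ∈ T, (WW N l (A b) (B b)).card ≤ 5 * (BrK N (4 * W) 2 κ).card := by
  classical
  apply Sum_double
  · intro b hb w hw
    obtain ⟨h1, h2, h3⟩ := WW_width hw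
    rw [hAB b hb] at h2 h3
    obtain ⟨h4, h5, h5'⟩ := hT b hb
    rw [mem_BrK, mem_BrSet]
    have h6 : (1 : ℤ) ≤ b := by exact_mod_cast h4
    have h7 : l ≤ l * (b : ℤ) := by nlinarith
    refine ⟨⟨h1, ?_⟩, by omega⟩
    push_cast
    omega
  · intro w _
    have h8 : ((Finset.Icc ((w N).1 / l - 5) ((w N).1 / l - 1)).card) ≤ 5 := by
      rw [Int.card_Icc]
      omega
    refine le_trans (Finset.card_le_card_of_injOn (fun b : ℕ => (b : ℤ)) ?_
      (fun a _ b _ h => Int.ofNat_inj.1 h)) h8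
    intro b hb
    rw [Finset.mem_coe, Finset.mem_filter] at hb
    obtain ⟨hb, hw⟩ := hb
    obtain ⟨h1, h2, h3⟩ := WW_width hw
    rw [hAB b hb] at h2 h3
    rw [Finset.coe_Icc, Set.mem_Icc]
    have e1 : (b : ℤ) + 1 ≤ (w N).1 / l := by
      rw [Int.le_ediv_iff_mul_le hl]
      nlinarith
    have e2 : (w N).1 / l < (b : ℤ) + 6 := by
      rw [Int.ediv_lt_iff_lt_mul hl]
      nlinarith
    refine ⟨?_, ?_⟩
    · show (w N).1 / l - 5 ≤ (b : ℤ)
      omega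
    · show (b : ℤ) ≤ (w N).1 / l - 1
      omega

/-- index set for the second coordinate -/
def Sum_TK (W g : ℕ) (κ : ℤ) : Finset ℕ :=
  (Sum_T W g).filter (fun b => κ ≤ 2 ^ g * (b : ℤ) + 3 * 2 ^ g)

lemma Sum_stepK (N W : ℕ) (κ : ℤ) : (Sum_pairsK N W κ).card ≤
    ∑ g ∈ Finset.range (Nat.log 2 W + 1), ∑ b ∈ Sum_TK W g κ,
      ((VV N (2 ^ g) (2 ^ g) (2 ^ g * (b : ℤ))).card +
       (VV N (2 ^ g) (2 ^ g * (b : ℤ)) (2 ^ g)).card) := by
  classical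
  set SL : ℕ → ℕ → Finset (Wk × ℤ) := fun g b => (Sum_pairsK N W κ).filter (fun p =>
    (2 : ℤ) ^ g ≤ p.2 ∧ p.2 < 2 ^ g + 2 ^ g ∧ 2 ^ g * (b : ℤ) ≤ (p.1 N).1 - p.2 ∧
      (p.1 N).1 - p.2 < 2 ^ g * (b : ℤ) + 2 ^ g) with hSL
  set SR : ℕ → ℕ → Finset (Wk × ℤ) := fun g b => (Sum_pairsK N W κ).filter (fun p =>
    (2 : ℤ) ^ g * (b : ℤ) ≤ p.2 ∧ p.2 < 2 ^ g * (b : ℤ) + 2 ^ g ∧ 2 ^ g ≤ (p.1 N).1 - p.2 ∧
      (p.1 N).1 - p.2 < 2 ^ g + 2 ^ g) with hSR
  have hmem : ∀ p ∈ Sum_pairsK N W κ, p.1 ∈ BrSet N W ∧ p.2 ∈ H982F.JA N W p.1 := by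
    intro p hp
    unfold Sum_pairsK Sum_pairs at hp
    rw [Finset.mem_filter, Finset.mem_filter, Finset.mem_product] at hp
    exact ⟨hp.1.1.1, hp.1.2⟩
  have hmemκ : ∀ p ∈ Sum_pairsK N W κ, κ ≤ (p.1 N).1 := by
    intro p hp
    unfold Sum_pairsK at hp
    rw [Finset.mem_filter] at hp
    exact hp.2
  have hL : ∀ g b, (SL g b).card ≤ (VV N (2 ^ g) (2 ^ g) (2 ^ g * (b : ℤ))).card := by
    intro g b
    apply card_le_VV (W := W)
    intro p hp
    rw [hSL] at hp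
    simp only [Finset.mem_filter] at hp
    obtain ⟨h1, h2⟩ := hmem p hp.1
    exact ⟨h1, h2, hp.2.1, hp.2.2.1, hp.2.2.2.1, hp.2.2.2.2⟩
  have hR : ∀ g b, (SR g b).card ≤ (VV N (2 ^ g) (2 ^ g * (b : ℤ)) (2 ^ g)).card := by
    intro g b
    apply card_le_VV (W := W)
    intro p hp
    rw [hSR] at hp
    simp only [Finset.mem_filter] at hp
    obtain ⟨h1, h2⟩ := hmem p hp.1
    exact ⟨h1, h2, hp.2.1, hp.2.2.1, hp.2.2.2.1, hp.2.2.2.2⟩
  have hcov : Sum_pairsK N W κ ⊆ (Finset.range (Nat.log 2 W + 1)).biUnion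
      (fun g => (Sum_TK W g κ).biUnion (fun b => SL g b ∪ SR g b)) := by
    intro p hp
    obtain ⟨h1, h2⟩ := hmem p hp
    have hκ := hmemκ p hp
    have h2' := h2
    unfold H982F.JA at h2'
    simp only [Finset.mem_filter, Finset.mem_Icc] at h2'
    obtain ⟨⟨h3, h4⟩, h5⟩ := h2'
    rw [mem_BrSet] at h1
    have hN : p.2 + 1 ≤ (p.1 N).1 := h5.1.2.2 N h5.1.1
    set X := (p.1 N).1 with hX
    rw [Finset.mem_biUnion]
    -- general tool: scale of a positive integer at most W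
    have hscale : ∀ y : ℤ, 1 ≤ y → y ≤ W → ∃ g, g ∈ Finset.range (Nat.log 2 W + 1) ∧
        (2 : ℤ) ^ g ≤ y ∧ y < 2 ^ g + 2 ^ g := by
      intro y hy1 hy2
      refine ⟨Nat.log 2 y.toNat, ?_, ?_, ?_⟩
      · rw [Finset.mem_range]
        have : Nat.log 2 y.toNat ≤ Nat.log 2 W := Nat.log_mono_right (by omega)
        omega
      · have := Nat.pow_log_le_self 2 (x := y.toNat) (by omega)
        zify at this
        rw [Int.toNat_of_nonneg (by omega)] at this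
        exact this
      · have := Nat.lt_pow_succ_log_self (b := 2) (by norm_num) y.toNat
        zify at this
        rw [Int.toNat_of_nonneg (by omega), pow_succ] at this
        omega
    -- second coordinate
    have hb : ∀ (l y x : ℤ), 0 < l → l ≤ y → l ≤ x → x + y ≤ W → ∃ b : ℕ, 1 ≤ b ∧ b ≤ W ∧
        l + l * (b : ℤ) ≤ W ∧ l * (b : ℤ) ≤ y ∧ y < l * (b : ℤ) + l := by
      intro l y x hl hly hlx hxy
      have hq0 : 0 ≤ y / l := Int.ediv_nonneg (by omega) hl.le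
      have hq : l * (y / l) ≤ y := Int.mul_ediv_self_le hl.ne'
      have hq2 : y < l * (y / l) + l := Int.lt_mul_ediv_self_add hl
      have hq1 : 1 ≤ y / l := by
        rw [Int.le_ediv_iff_mul_le hl]; omega
      refine ⟨(y / l).toNat, ?_, ?_, ?_, ?_, ?_⟩
      · omega
      · have : y / l ≤ l * (y / l) := by nlinarith
        omega
      · rw [Int.toNat_of_nonneg hq0]; omega
      · rw [Int.toNat_of_nonneg hq0]; exact hq
      · rw [Int.toNat_of_nonneg hq0]; exact hq2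
    rcases le_total (2 * p.2) X with h6 | h6
    · obtain ⟨g, hg, hg1, hg2⟩ := hscale p.2 h3 h4
      have hl : (0 : ℤ) < 2 ^ g := by positivity
      obtain ⟨b, b1, b2, b3, b4, b5⟩ := hb (2 ^ g) (X - p.2) p.2 hl (by omega) hg1 (by omega)
      refine ⟨g, hg, ?_⟩
      rw [Finset.mem_biUnion]
      refine ⟨b, ?_, ?_⟩
      · unfold Sum_TK Sum_T
        rw [Finset.mem_filter, Finset.mem_filter, Finset.mem_Icc]
        refine ⟨⟨⟨b1, b2⟩, ?_⟩, ?_⟩
        · exact_mod_cast b3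
        · omega
      · rw [Finset.mem_union]
        left
        rw [hSL]
        simp only [Finset.mem_filter]
        exact ⟨hp, hg1, hg2, b4, b5⟩
    · obtain ⟨g, hg, hg1, hg2⟩ := hscale (X - p.2) (by omega) (by omega)
      have hl : (0 : ℤ) < 2 ^ g := by positivity
      obtain ⟨b, b1, b2, b3, b4, b5⟩ := hb (2 ^ g) p.2 (X - p.2) hl (by omega) hg1 (by omega)
      refine ⟨g, hg, ?_⟩
      rw [Finset.mem_biUnion]
      refine ⟨b, ?_, ?_⟩
      · unfold Sum_TK Sum_T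
        rw [Finset.mem_filter, Finset.mem_filter, Finset.mem_Icc]
        refine ⟨⟨⟨b1, b2⟩, ?_⟩, ?_⟩
        · exact_mod_cast b3
        · omega
      · rw [Finset.mem_union]
        right
        rw [hSR]
        simp only [Finset.mem_filter]
        exact ⟨hp, b4, b5, hg1, hg2⟩
  refine (Finset.card_le_card hcov).trans (Finset.card_biUnion_le.trans ?_)
  apply Finset.sum_le_sum
  intro g _
  refine Finset.card_biUnion_le.trans ?_
  apply Finset.sum_le_sum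
  intro b _
  exact (Finset.card_union_le _ _).trans (add_le_add (hL g b) (hR g b))

theorem sum_JA_polylogK_of
    (h7 : ∀ (N : ℕ) (l A B : ℤ), 1 ≤ N → l ≤ A → l ≤ B → ((VV N l A B).card : ℝ) ≤
      4 * (Nat.log 2 l.toNat + 2) ^ 2 * (1 + 3 * Real.log N) * ((WW N l A B).card : ℝ))
    (N W : ℕ) (κ : ℤ) :
    ((∑ w ∈ BrK N W 1 κ, (H982F.JA N W w).card : ℕ) : ℝ) ≤
      40 * (Nat.log 2 W + 2) ^ 3 * (1 + 3 * Real.log N) * ((BrK N (4 * W) 2 κ).card : ℝ) := by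
  classical
  rcases Nat.eq_zero_or_pos N with hN | hN
  · subst hN
    have h0 : ∑ w ∈ BrK 0 W 1 κ, (H982F.JA 0 W w).card = 0 := by
      apply Finset.sum_eq_zero
      intro w _
      rw [Finset.card_eq_zero]
      unfold H982F.JA
      apply Finset.filter_false_of_mem
      intro m _ hFL
      exact absurd hFL.1.1 (by omega)
    rw [h0]
    simp only [Nat.cast_zero, Real.log_zero]
    positivity
  rw [← Sum_pairsK_card]
  have hlogN : 0 ≤ Real.log N := Real.log_natCast_nonneg N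
  set K : ℝ := 1 + 3 * Real.log N with hK
  have hK0 : 0 ≤ K := by positivity
  have hg : ∀ g ∈ Finset.range (Nat.log 2 W + 1), ((∑ b ∈ Sum_TK W g κ,
      ((VV N (2 ^ g) (2 ^ g) (2 ^ g * (b : ℤ))).card +
       (VV N (2 ^ g) (2 ^ g * (b : ℤ)) (2 ^ g)).card) : ℕ) : ℝ) ≤
      40 * (Nat.log 2 W + 2) ^ 2 * K * ((BrK N (4 * W) 2 κ).card : ℝ) := by
    intro g hgm
    have hgW : (g : ℝ) ≤ (Nat.log 2 W : ℝ) := by
      have := Finset.mem_range.1 hgm
      exact_mod_cast (by omega : g ≤ Nat.log 2 W)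
    have hlog : Nat.log 2 ((2 : ℤ) ^ g).toNat = g := by
      have : ((2 : ℤ) ^ g).toNat = 2 ^ g := by
        have h1 : ((2 : ℤ) ^ g) = ((2 ^ g : ℕ) : ℤ) := by push_cast; rfl
        rw [h1, Int.toNat_natCast]
      rw [this, Nat.log_pow (by norm_num)]
    have hl : (0 : ℤ) < 2 ^ g := by positivity
    have hT : ∀ b ∈ Sum_TK W g κ, 1 ≤ b ∧ (2 : ℤ) ^ g + 2 ^ g * (b : ℤ) ≤ W ∧
        κ ≤ 2 * (2 ^ g + 2 ^ g * (b : ℤ)) := by
      intro b hb
      unfold Sum_TK Sum_T at hb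
      rw [Finset.mem_filter, Finset.mem_filter, Finset.mem_Icc] at hb
      have hb1 : (1 : ℤ) ≤ b := by exact_mod_cast hb.1.1.1
      refine ⟨hb.1.1.1, ?_, ?_⟩
      · exact_mod_cast hb.1.2
      · have h9 : (2 : ℤ) ^ g ≤ 2 ^ g * (b : ℤ) := by nlinarith
        have h10 := hb.2
        omega
    have o1 := Sum_overlapK (κ := κ) (N := N) (W := W) hl (Sum_TK W g κ) hT (fun _ => 2 ^ g)
      (fun b => 2 ^ g * (b : ℤ)) (fun b _ => rfl)
    have o2 := Sum_overlapK (κ := κ) (N := N) (W := W) hl (Sum_TK W g κ) hT (fun b => 2 ^ g * (b : ℤ))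
      (fun _ => 2 ^ g) (fun b _ => by ring)
    have hcoef : 4 * ((g : ℝ) + 2) ^ 2 ≤ 4 * ((Nat.log 2 W : ℝ) + 2) ^ 2 := by
      have : (0 : ℝ) ≤ g := Nat.cast_nonneg g
      nlinarith
    calc ((∑ b ∈ Sum_TK W g κ, ((VV N (2 ^ g) (2 ^ g) (2 ^ g * (b : ℤ))).card +
          (VV N (2 ^ g) (2 ^ g * (b : ℤ)) (2 ^ g)).card) : ℕ) : ℝ)
        = ∑ b ∈ Sum_TK W g κ, (((VV N (2 ^ g) (2 ^ g) (2 ^ g * (b : ℤ))).card : ℝ) +
          ((VV N (2 ^ g) (2 ^ g * (b : ℤ)) (2 ^ g)).card : ℝ)) := by push_cast; rfl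
      _ ≤ ∑ b ∈ Sum_TK W g κ, (4 * ((g : ℝ) + 2) ^ 2 * K *
            ((WW N (2 ^ g) (2 ^ g) (2 ^ g * (b : ℤ))).card : ℝ) +
          4 * ((g : ℝ) + 2) ^ 2 * K * ((WW N (2 ^ g) (2 ^ g * (b : ℤ)) (2 ^ g)).card : ℝ)) := by
          apply Finset.sum_le_sum
          intro b hb
          have hb1 : (1 : ℤ) ≤ b := by exact_mod_cast (hT b hb).1
          have hlb : (2 : ℤ) ^ g ≤ 2 ^ g * (b : ℤ) := by nlinarith
          have a1 := h7 N (2 ^ g) (2 ^ g) (2 ^ g * (b : ℤ)) hN le_rfl hlb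
          have a2 := h7 N (2 ^ g) (2 ^ g * (b : ℤ)) (2 ^ g) hN hlb le_rfl
          rw [hlog] at a1 a2
          exact add_le_add a1 a2
      _ = 4 * ((g : ℝ) + 2) ^ 2 * K *
            ((∑ b ∈ Sum_TK W g κ, (WW N (2 ^ g) (2 ^ g) (2 ^ g * (b : ℤ))).card : ℕ) : ℝ) +
          4 * ((g : ℝ) + 2) ^ 2 * K *
            ((∑ b ∈ Sum_TK W g κ, (WW N (2 ^ g) (2 ^ g * (b : ℤ)) (2 ^ g)).card : ℕ) : ℝ) := by
          rw [Finset.sum_add_distrib, ← Finset.mul_sum, ← Finset.mul_sum]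
          push_cast; rfl
      _ ≤ 4 * ((g : ℝ) + 2) ^ 2 * K * (5 * ((BrK N (4 * W) 2 κ).card : ℝ)) +
          4 * ((g : ℝ) + 2) ^ 2 * K * (5 * ((BrK N (4 * W) 2 κ).card : ℝ)) := by
          have o1' : ((∑ b ∈ Sum_TK W g κ, (WW N (2 ^ g) (2 ^ g) (2 ^ g * (b : ℤ))).card : ℕ) : ℝ) ≤
              5 * ((BrK N (4 * W) 2 κ).card : ℝ) := by exact_mod_cast o1
          have o2' : ((∑ b ∈ Sum_TK W g κ, (WW N (2 ^ g) (2 ^ g * (b : ℤ)) (2 ^ g)).card : ℕ) : ℝ) ≤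
              5 * ((BrK N (4 * W) 2 κ).card : ℝ) := by exact_mod_cast o2
          exact add_le_add (mul_le_mul_of_nonneg_left o1' (by positivity))
            (mul_le_mul_of_nonneg_left o2' (by positivity))
      _ = (4 * ((g : ℝ) + 2) ^ 2) * (K * (10 * ((BrK N (4 * W) 2 κ).card : ℝ))) := by ring
      _ ≤ (4 * ((Nat.log 2 W : ℝ) + 2) ^ 2) * (K * (10 * ((BrK N (4 * W) 2 κ).card : ℝ))) :=
          mul_le_mul_of_nonneg_right hcoef (by positivity)
      _ = _ := by ring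
  calc ((Sum_pairsK N W κ).card : ℝ) ≤ ((∑ g ∈ Finset.range (Nat.log 2 W + 1), ∑ b ∈ Sum_TK W g κ,
      ((VV N (2 ^ g) (2 ^ g) (2 ^ g * (b : ℤ))).card +
       (VV N (2 ^ g) (2 ^ g * (b : ℤ)) (2 ^ g)).card) : ℕ) : ℝ) := by
        exact_mod_cast Sum_stepK N W κ
    _ = ∑ g ∈ Finset.range (Nat.log 2 W + 1), ((∑ b ∈ Sum_TK W g κ,
      ((VV N (2 ^ g) (2 ^ g) (2 ^ g * (b : ℤ))).card +
       (VV N (2 ^ g) (2 ^ g * (b : ℤ)) (2 ^ g)).card) : ℕ) : ℝ) := by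
        rw [Nat.cast_sum]
    _ ≤ ∑ _g ∈ Finset.range (Nat.log 2 W + 1),
        40 * ((Nat.log 2 W : ℝ) + 2) ^ 2 * K * ((BrK N (4 * W) 2 κ).card : ℝ) :=
        Finset.sum_le_sum hg
    _ = ((Nat.log 2 W : ℝ) + 1) *
        (40 * ((Nat.log 2 W : ℝ) + 2) ^ 2 * K * ((BrK N (4 * W) 2 κ).card : ℝ)) := by
        rw [Finset.sum_const, Finset.card_range, nsmul_eq_mul]; push_cast; ring
    _ ≤ ((Nat.log 2 W : ℝ) + 2) *
        (40 * ((Nat.log 2 W : ℝ) + 2) ^ 2 * K * ((BrK N (4 * W) 2 κ).card : ℝ)) :=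
        mul_le_mul_of_nonneg_right (by linarith) (by positivity)
    _ = _ := by ring

theorem sum_JA_polylogK (N W : ℕ) (κ : ℤ) :
    ((∑ w ∈ BrK N W 1 κ, (H982F.JA N W w).card : ℕ) : ℝ) ≤
      40 * (Nat.log 2 W + 2) ^ 3 * (1 + 3 * Real.log N) * ((BrK N (4 * W) 2 κ).card : ℝ) :=
  sum_JA_polylogK_of (fun _ _ _ _ hN h1 h2 => card_VV_le hN h1 h2) N W κ

end H982R
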