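import Mathlib

/-!
Generic lemmas about sums in `ℝ≥0∞` with indicators.
-/

namespace H982

open scoped ENNReal

open Classical in
/-- indicator of a proposition -/
noncomputable def ind (p : Prop) : ℝ≥0∞ := if p then 1 else 0

lemma ind_of {p : Prop} (h : p) : ind p = 1 := by simp [ind, h]
lemma ind_not {p : Prop} (h : ¬ p) : ind p = 0 := by simp [ind, h]
lemma ind_le_one (p : Prop) : ind p ≤ 1 := by
  by_cases h : p <;> simp [ind, h]
lemma ind_mono {p q : Prop} (h : p → q) : ind p ≤ ind q := by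
  by_cases hp : p
  · simp [ind, hp, h hp]
  · simp [ind, hp]
lemma ind_and (p q : Prop) : ind (p ∧ q) = ind p * ind q := by
  by_cases hp : p <;> by_cases hq : q <;> simp [ind, hp, hq]

theorem tsum_gen {α β : Type*} (P : α → Prop) (Q : β → Prop) (g : α → ℝ≥0∞) (h : β → ℝ≥0∞)
    (f : {a // P a} → β) (hinj : Function.Injective f) (hQ : ∀ a, Q (f a))
    (hg : ∀ a, g a.1 ≤ h (f a)) :
    ∑' a, ind (P a) * g a ≤ ∑' b, ind (Q b) * h b := by
  have h1 : ∑' a, ind (P a) * g a = ∑' a : {a // P a}, g a.1 := by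
    have := tsum_subtype {a | P a} g
    change _ = ∑' (x : ({a | P a} : Set α)), g ↑x
    rw [this]
    congr 1
    ext a
    by_cases ha : P a
    · simp [ind, ha]
    · simp [ind, ha]
  rw [h1]
  calc ∑' a : {a // P a}, g a.1 ≤ ∑' a : {a // P a}, (fun b => ind (Q b) * h b) (f a) := by
        apply ENNReal.tsum_le_tsum
        intro a
        simp only [ind_of (hQ a), one_mul]
        exact hg a
    _ ≤ ∑' b, ind (Q b) * h b :=
        ENNReal.tsum_comp_le_tsum_of_injective hinj _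

theorem tsum_inj {α β : Type*} (P : α → Prop) (Q : β → Prop) (g : α → ℝ≥0∞) (h : β → ℝ≥0∞)
    (f : α → β) (hinj : ∀ a b, P a → P b → f a = f b → a = b) (hQ : ∀ a, P a → Q (f a))
    (hg : ∀ a, P a → g a ≤ h (f a)) :
    ∑' a, ind (P a) * g a ≤ ∑' b, ind (Q b) * h b := by
  refine tsum_gen P Q g h (fun a => f a.1) ?_ (fun a => hQ a.1 a.2) (fun a => hg a.1 a.2)
  intro a b hab
  exact Subtype.ext (hinj _ _ a.2 b.2 hab)

theorem tsum_cover {α β : Type*} (P : α → Prop) (Q : β → Prop) (g : α → ℝ≥0∞) (h : β → ℝ≥0∞)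
    (π : β → α) (hc : ∀ a, P a → ∃ b, Q b ∧ π b = a ∧ g a ≤ h b) :
    ∑' a, ind (P a) * g a ≤ ∑' b, ind (Q b) * h b := by
  choose f h1 h2 h3 using hc
  refine tsum_gen P Q g h (fun a => f a.1 a.2) ?_ (fun a => h1 a.1 a.2) (fun a => h3 a.1 a.2)
  intro a b hab
  apply Subtype.ext
  have hab' : f a.1 a.2 = f b.1 b.2 := hab
  rw [← h2 a.1 a.2, ← h2 b.1 b.2, hab']

theorem tsum_mul_tsum' {α β : Type*} (f : α → ℝ≥0∞) (g : β → ℝ≥0∞) :
    (∑' a, f a) * (∑' b, g b) = ∑' p : α × β, f p.1 * g p.2 := by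
  rw [ENNReal.tsum_prod', ← ENNReal.tsum_mul_right]
  congr 1
  ext a
  exact ENNReal.tsum_mul_left.symm

theorem two_mul_le (a b : ℝ≥0∞) : 2 * (a * b) ≤ a * a + b * b := by
  wlog h : a ≤ b generalizing a b
  · have := this b a (le_of_not_ge h)
    rw [mul_comm a b, add_comm]; exact this
  obtain ⟨c, rfl⟩ := exists_add_of_le h
  have : a * a + (a + c) * (a + c) = 2 * (a * (a + c)) + c * c := by ring
  rw [this]
  exact le_self_add

theorem cauchy_schwarz {α : Type*} (f g : α → ℝ≥0∞) :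
    (∑' a, f a * g a) * (∑' a, f a * g a) ≤ (∑' a, f a * f a) * (∑' a, g a * g a) := by
  have h2 : 2 * ((∑' a, f a * g a) * (∑' a, f a * g a))
      ≤ 2 * ((∑' a, f a * f a) * (∑' a, g a * g a)) := by
    calc 2 * ((∑' a, f a * g a) * (∑' a, f a * g a))
        = ∑' p : α × α, 2 * ((f p.1 * g p.2) * (f p.2 * g p.1)) := by
          rw [tsum_mul_tsum', ← ENNReal.tsum_mul_left]
          congr 1; ext p; ring
      _ ≤ ∑' p : α × α, ((f p.1 * g p.2) * (f p.1 * g p.2) + (f p.2 * g p.1) * (f p.2 * g p.1)) :=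
          ENNReal.tsum_le_tsum fun p => two_mul_le _ _
      _ = (∑' p : α × α, (f p.1 * f p.1) * (g p.2 * g p.2))
          + ∑' p : α × α, (g p.1 * g p.1) * (f p.2 * f p.2) := by
          rw [← ENNReal.tsum_add]
          congr 1; ext p; ring
      _ = 2 * ((∑' a, f a * f a) * (∑' a, g a * g a)) := by
          rw [← tsum_mul_tsum' (fun a => f a * f a) (fun a => g a * g a),
            ← tsum_mul_tsum' (fun a => g a * g a) (fun a => f a * f a)]
          ring
  have h3 : (2:ℝ≥0∞) ≠ 0 := by norm_num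
  have h4 : (2:ℝ≥0∞) ≠ ⊤ := by norm_num
  exact (ENNReal.mul_le_mul_iff_right h3 h4).mp h2

end H982
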