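import Pool.Agent.H982R3.NCg
import Pool.Agent.H982R3.PS

/-!
Unfolding of half-plane self-avoiding words into chains of bridges of decreasing widths.
-/

set_option linter.unusedSectionVars false

namespace H982

variable [L : Lat]

open scoped ENNReal

/-- strictly decreasing lists of positive integers, all at most `n` -/
def Dec : ℕ → List ℕ → Prop
  | _, [] => True
  | n, A :: α => 1 ≤ A ∧ A ≤ n ∧ Dec (A - 1) α

lemma Dec.mono {n m : ℕ} (h : n ≤ m) {α : List ℕ} (hα : Dec n α) : Dec m α := by
  cases α with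
  | nil => trivial
  | cons A α => exact ⟨hα.1, hα.2.1.trans h, hα.2.2⟩

/-- `ω` is the folded walk with first bridge `β` and remaining widths `α` -/
def HPc : List ℕ → List St → List St → Prop
  | [], β, ω => ω = β
  | A' :: α, β, ω => ∃ β' ω', ω = β ++ sg ω' ∧ IsBr A' β' ∧ NCg β β' ∧ HPc α β' ω'

lemma exists_last_max (ω : List St) : ∃ β ρ, ω = β ++ ρ ∧ (∀ u, u <+: β → dx u ≤ dx β) ∧
    (∀ v, v <+: ρ → v ≠ [] → dx v < 0) := by
  induction ω with
  | nil => exact ⟨[], [], rfl, fun u hu => by simp at hu; simp [hu], fun v hv h => by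
      simp at hv; exact absurd hv h⟩
  | cons s w ih =>
    obtain ⟨β, ρ, rfl, h1, h2⟩ := ih
    by_cases hs : 0 ≤ s.x + dx β
    · refine ⟨s :: β, ρ, rfl, ?_, h2⟩
      intro u hu
      rcases List.prefix_cons_iff.mp hu with rfl | ⟨t, rfl, ht⟩
      · simpa using hs
      · have := h1 t ht
        simp; omega
    · refine ⟨[], s :: (β ++ ρ), rfl, fun u hu => by simp at hu; simp [hu], ?_⟩
      intro v hv hv0
      rcases List.prefix_cons_iff.mp hv with rfl | ⟨t, rfl, ht⟩
      · exact absurd rfl hv0
      · rcases prefix_append_cases ht with h3 | ⟨v', h3, h4, rfl⟩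
        · have := h1 t h3
          simp; omega
        · have := h2 v' h3 h4
          simp; omega

theorem exists_unfold : ∀ n (ω : List St), ω.length = n → Saw ω → HP ω → ω ≠ [] →
    ∃ A α β, IsBr A β ∧ 1 ≤ A ∧ Dec (A - 1) α ∧ HPc α β ω ∧ A + α.sum ≤ ω.length ∧ β <+: ω := by
  intro n
  induction n using Nat.strong_induction_on with
  | _ n ih =>
  intro ω hn hS hH h0
  obtain ⟨β, ρ, hω, h1, h2⟩ := exists_last_max ω
  have hβ0 : β ≠ [] := by
    rintro rfl
    simp at hω
    subst hω
    have := h2 ω (List.prefix_refl _) h0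
    have := hH ω (List.prefix_refl _) h0
    omega
  have hpre : β <+: ω := ⟨ρ, hω.symm⟩
  have hpos := hH β hpre hβ0
  obtain ⟨A, hA⟩ : ∃ A : ℕ, dx β = A := ⟨(dx β).toNat, by omega⟩
  have hbr : IsBr A β := ⟨hS.subw hpre.isInfix, hH.prew hpre, fun u hu => by
    have := h1 u hu; omega, hA⟩
  have hlen := dx_le_length β
  by_cases hρ : ρ = []
  · subst hρ
    refine ⟨A, [], β, hbr, by omega, trivial, by simpa [HPc] using hω, ?_, hpre⟩
    rw [hω]; simp; omega
  · set ω' := sg ρ with hω'
    have hρ' : ρ = sg ω' := by simp [hω']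
    have hS' : Saw ω' := (hS.subw (w := ω) ⟨β, [], by simp [hω]⟩ : Saw ρ).sg
    have hH' : HP ω' := by
      intro v hv hv0
      have h3 : sg v <+: ρ := by
        have := hv.map St.sg
        change H982.sg v <+: H982.sg (H982.sg ρ) at this
        rwa [sg_sg] at this
      have := h2 _ h3 (by simpa using hv0)
      simp at this; omega
    have hl : ω'.length < n := by
      rw [← hn, hω]
      have : 0 < β.length := List.length_pos_iff.mpr hβ0
      simp [hω']; exact this
    obtain ⟨A', α', β', g1, g2, g3, g4, g5, g6⟩ :=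
      ih ω'.length hl ω' rfl hS' hH' (by simpa [hω'] using hρ)
    have hpre' : β ++ sg β' <+: ω := by
      obtain ⟨t, ht⟩ := g6
      exact ⟨sg t, by rw [hω, hρ', ← ht]; simp⟩
    have hAA : A' < A := by
      have := hH _ hpre' (by simp [hβ0])
      simp [hA, g1.dx] at this; omega
    refine ⟨A, A' :: α', β, hbr, by omega, ⟨g2, by omega, g3⟩, ?_, ?_, hpre⟩
    · refine ⟨β', ω', by rw [hω, ← hρ'], g1, ?_, g4⟩
      intro m m' hm hm' e1 e2
      have hin : m ++ sg m' <:+: ω := by
        obtain ⟨s, hs⟩ := hm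
        obtain ⟨t, ht⟩ := hm'
        obtain ⟨r, hr⟩ := hpre'
        exact ⟨s, sg t ++ r, by rw [← hr, ← hs, ← ht]; simp⟩
      have := hS.1 _ hin (by simp; omega) (by rw [dy_append, dy_sg]; exact e2)
      simpa using this
    · rw [hω]
      simp
      have : ω'.length = ρ.length := by simp [hω']
      rw [this] at g5
      omega

/-- the number of half-plane self-avoiding words of length `n` -/
noncomputable def hh (n : ℕ) : ℝ≥0∞ := ∑' ω : List St, ind (Saw ω ∧ HP ω ∧ ω.length = n)

end H982
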