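import Pool.Agent.H982R3.RSumK

/-!
General self-avoiding walks: the maximum of the horizontal coordinate against its final value.
-/

set_option linter.unusedSectionVars false

namespace H982

variable [L : Lat]

open scoped ENNReal
open PowerSeries
open H982F (BrSet mem_BrSet JA FL)

/-! ### pairs of bridges, with a lower bound for the width -/

/-- bridges with `2 * width ≥ κ` -/
noncomputable def bK (N : ℕ) (κ : ℤ) : ℝ≥0∞ :=
  ∑' u : List St, ind ((IsB u ∧ κ ≤ 2 * dx u) ∧ u.length = N) * 1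

/-- folded pairs of bridges, the width of the first at least `κ` -/
noncomputable def pK (N : ℕ) (κ : ℤ) : ℝ≥0∞ :=
  ∑' p : LL, ind (((IsB p.1 ∧ IsB p.2) ∧ NCg p.1 p.2 ∧ κ ≤ dx p.1) ∧ (p.1 ++ p.2).length = N) * 1

lemma card_BrK_le (N W : ℕ) (κ : ℤ) : ((H982R.BrK N W 2 κ).card : ℝ≥0∞) ≤ 2 * bK N κ := by
  classical
  have h1 : ((H982R.BrK N W 2 κ).card : ℝ≥0∞) =
      ∑' w : ℕ → ℤ × ℤ, ind (w ∈ H982R.BrK N W 2 κ) * 1 := by
    rw [tsum_eq_sum (s := H982R.BrK N W 2 κ)]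
    · rw [Finset.sum_congr rfl (g := fun _ => (1 : ℝ≥0∞))]
      · simp
      · intro w hw
        rw [ind_of hw, mul_one]
    · intro w hw
      rw [ind_not hw, zero_mul]
  have h2 : 2 * bK N κ = ∑' q : Bool × List St,
      ind ((IsB q.2 ∧ κ ≤ 2 * dx q.2) ∧ q.2.length = N) * 1 := by
    unfold bK
    rw [ENNReal.tsum_prod', tsum_bool]
    simp only
    rw [two_mul]
  rw [h1, h2]
  refine tsum_cover _ _ _ _ (fun q : Bool × List St => pf (if q.1 then 1 else -1) q.2) ?_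
  intro w hw
  rw [H982R.mem_BrK, mem_BrSet] at hw
  obtain ⟨o, u, ho, hok, hu, rfl⟩ := exists_word hw.1.1.saw
  subst hu
  obtain ⟨h2, h3⟩ := isBr_of_fbr hok hw.1.1
  refine ⟨(decide (o = 1), u), ⟨⟨h2.isB, ?_⟩, rfl⟩, ?_, le_rfl⟩
  · have h4 := hw.2
    have h5 := h2.dx
    simp only
    rw [← h3] at h4
    rw [h5]
    exact h4
  · simp only
    congr 1
    rcases ho with rfl | rfl <;> simp

lemma JA_tsumS (N W : ℕ) (S : Finset (ℕ → ℤ × ℤ)) :
    ∑' q : (ℕ → ℤ × ℤ) × ℤ, ind (q.1 ∈ S ∧ q.2 ∈ JA N W q.1) * 1 =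
    ((∑ w ∈ S, (JA N W w).card : ℕ) : ℝ≥0∞) := by
  classical
  rw [ENNReal.tsum_prod']
  have h1 : ∀ w, ∑' m : ℤ, ind (w ∈ S ∧ m ∈ JA N W w) * 1 =
      ind (w ∈ S) * ((JA N W w).card : ℝ≥0∞) := by
    intro w
    rw [tsum_eq_sum (s := JA N W w)]
    · rw [Finset.sum_congr rfl (g := fun _ => ind (w ∈ S))]
      · rw [Finset.sum_const, nsmul_eq_mul, mul_comm]
      · intro m hm
        rw [ind_and, ind_of hm, mul_one, mul_one]
    · intro m hm
      rw [ind_and, ind_not hm, mul_zero, zero_mul]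
  simp only
  simp_rw [h1]
  rw [tsum_eq_sum (s := S)]
  · push_cast
    apply Finset.sum_congr rfl
    intro w hw
    rw [ind_of hw, one_mul]
  · intro w hw
    rw [ind_not hw, zero_mul]

lemma PU_leK {o : ℤ} (ho : o = 1 ∨ o = -1) (N W : ℕ) (κ : ℤ) :
    ∑' p : LL, ind ((PU o W p ∧ κ ≤ dx (p.1 ++ p.2)) ∧ (p.1 ++ p.2).length = N) * 1 ≤
    ((∑ w ∈ H982R.BrK N (2 * W) 1 κ, (JA N (2 * W) w).card : ℕ) : ℝ≥0∞) := by
  classical
  rw [← JA_tsumS]
  refine tsum_inj _ _ _ _ (fun p : LL => (pf o (p.1 ++ p.2), (wd p.1 : ℤ))) ?_ ?_ ?_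
  · rintro ⟨X, Y⟩ ⟨X', Y'⟩ ⟨⟨⟨⟨⟨a1, a2⟩, ⟨a3, a4⟩, a5⟩, a0, a6, a7⟩, -⟩, a8⟩
      ⟨⟨⟨⟨⟨b1, b2⟩, ⟨b3, b4⟩, b5⟩, b0, b6, b7⟩, -⟩, b8⟩ heq
    simp only at a1 a2 a3 a4 a5 a6 a7 a8 b1 b2 b3 b4 b5 b6 b7 b8 heq
    rw [Prod.mk.injEq] at heq
    obtain ⟨e1, e2⟩ := heq
    have e3 : X ++ Y = X' ++ Y' := pf_inj ho (ok_append.mpr ⟨a1.br.saw.2, a3.br.saw.2⟩)
      (ok_append.mpr ⟨b1.br.saw.2, b3.br.saw.2⟩) (a8.trans b8.symm) e1
    have e4 : wd X = wd X' := by exact_mod_cast e2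
    have s1 : Spl (wd X) (X ++ Y) X Y := ⟨rfl, a1.br, a3⟩
    have s2 : Spl (wd X) (X ++ Y) X' Y' := ⟨e3, by rw [e4]; exact b1.br, b3⟩
    obtain ⟨rfl, rfl⟩ := s1.unique s2
    rfl
  · rintro ⟨X, Y⟩ ⟨⟨⟨⟨⟨a1, a2⟩, ⟨a3, a4⟩, a5⟩, hX0, a6, a7⟩, a9⟩, a8⟩
    simp only at a1 a2 a3 a4 a5 a6 a7 a8 a9 hX0 ⊢
    have hcut := cut_pf o a1 a3 a6
    rw [a8] at hcut
    have hct := H982F.ct_eq hcut
    refine ⟨?_, ?_⟩
    · rw [H982R.mem_BrK, mem_BrSet]
      have h1 := fbr_pf ho (a1.br.append a3.br)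
      rw [a8] at h1
      rw [pf_ge o a8.le]
      simp only [dx_append] at a9 ⊢
      have := a1.wd_eq_dx
      have := a3.wd_eq_dx
      refine ⟨⟨h1, ?_⟩, by omega⟩
      push_cast
      omega
    · unfold JA
      simp only [Finset.mem_filter, Finset.mem_Icc]
      have := a1.wd_pos hX0
      refine ⟨⟨by omega, by push_cast; omega⟩, ?_⟩
      unfold FL
      rw [hct]
      refine ⟨hcut, ?_, a7⟩
      rw [fl_pf o a1]
      have h1 := saw_pf ho (saw_fold a1 a3 a5)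
      have h2 : (X ++ sg Y).length = N := by
        rw [← a8]; simp
      rw [h2] at h1
      exact h1
  · intro p _
    exact le_rfl

lemma neg_length_le_dx (w : List St) : -(w.length : ℤ) ≤ dx w := by
  induction w with
  | nil => simp
  | cons s w ih =>
    have := s.le_x
    simp only [dx_cons, List.length_cons]
    push_cast
    omega

lemma pK_split (N : ℕ) (κ : ℤ) : pK N κ ≤ 2 * bK N κ +
    2 * ((∑ w ∈ H982R.BrK N (2 * N) 1 κ, (JA N (2 * N) w).card : ℕ) : ℝ≥0∞) := by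
  have h1 : ∑' p : LL, ind ((p.1 = [] ∧ IsB p.2 ∧ κ ≤ 0) ∧ (p.1 ++ p.2).length = N) * 1 ≤
      bK N κ := by
    unfold bK
    refine tsum_inj _ _ _ _ (fun p : LL => p.2) ?_ ?_ ?_
    · rintro ⟨X, Y⟩ ⟨X', Y'⟩ ⟨⟨a1, a2, a3⟩, a4⟩ ⟨⟨b1, b2, b3⟩, b4⟩ h
      simp only at a1 b1 h
      rw [a1, b1, h]
    · rintro ⟨X, Y⟩ ⟨⟨a1, a2, a3⟩, a4⟩
      simp only at a1 a2 a3 a4 ⊢
      rw [a1] at a4
      have := a2.br.hp.dx_nonneg
      exact ⟨⟨a2, by omega⟩, by simpa using a4⟩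
    · intro p _
      exact le_rfl
  have h2 : ∑' p : LL, ind ((p.2 = [] ∧ IsB p.1 ∧ κ ≤ dx p.1) ∧ (p.1 ++ p.2).length = N) * 1 ≤
      bK N κ := by
    unfold bK
    refine tsum_inj _ _ _ _ (fun p : LL => p.1) ?_ ?_ ?_
    · rintro ⟨X, Y⟩ ⟨X', Y'⟩ ⟨⟨a1, a2, a3⟩, a4⟩ ⟨⟨b1, b2, b3⟩, b4⟩ h
      simp only at a1 b1 h
      rw [a1, b1, h]
    · rintro ⟨X, Y⟩ ⟨⟨a1, a2, a3⟩, a4⟩
      simp only at a1 a2 a3 a4 ⊢
      rw [a1] at a4
      have := a2.br.hp.dx_nonneg
      exact ⟨⟨a2, by omega⟩, by simpa using a4⟩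
    · intro p _
      exact le_rfl
  have h3 := PU_leK (o := 1) (Or.inl rfl) N N κ
  have h3' := PU_leK (o := -1) (Or.inr rfl) N N κ
  unfold pK
  calc ∑' p : LL, ind (((IsB p.1 ∧ IsB p.2) ∧ NCg p.1 p.2 ∧ κ ≤ dx p.1) ∧
        (p.1 ++ p.2).length = N) * 1
      ≤ ∑' p : LL, ((ind ((p.1 = [] ∧ IsB p.2 ∧ κ ≤ 0) ∧ (p.1 ++ p.2).length = N) * 1 +
        ind ((p.2 = [] ∧ IsB p.1 ∧ κ ≤ dx p.1) ∧ (p.1 ++ p.2).length = N) * 1) +
        (ind ((PU 1 N p ∧ κ ≤ dx (p.1 ++ p.2)) ∧ (p.1 ++ p.2).length = N) * 1 +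
        ind ((PU (-1) N p ∧ κ ≤ dx (p.1 ++ p.2)) ∧ (p.1 ++ p.2).length = N) * 1)) := by
        apply ENNReal.tsum_le_tsum
        intro p
        by_cases hp : ((IsB p.1 ∧ IsB p.2) ∧ NCg p.1 p.2 ∧ κ ≤ dx p.1) ∧ (p.1 ++ p.2).length = N
        · rw [ind_of hp, one_mul]
          obtain ⟨⟨⟨a1, a3⟩, a5, a7⟩, a6⟩ := hp
          have d1 := a1.br.hp.dx_nonneg
          have d2 := a3.br.hp.dx_nonneg
          have l1 := dx_le_length p.1
          have l2 := dx_le_length p.2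
          have l3 : p.1.length + p.2.length = N := by simpa using a6
          have e1 := a1.wd_eq_dx
          have e2 := a3.wd_eq_dx
          have a2 : wd p.1 ≤ N := by omega
          have a4 : wd p.2 ≤ N := by omega
          by_cases hX : p.1 = []
          · have hκ : κ ≤ 0 := by rw [hX] at a7; simpa using a7
            rw [ind_of (p := (p.1 = [] ∧ IsB p.2 ∧ κ ≤ 0) ∧ (p.1 ++ p.2).length = N)
              ⟨⟨hX, a3, hκ⟩, a6⟩, one_mul, add_assoc]
            exact le_self_add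
          · by_cases hY : p.2 = []
            · rw [ind_of (p := (p.2 = [] ∧ IsB p.1 ∧ κ ≤ dx p.1) ∧ (p.1 ++ p.2).length = N)
                ⟨⟨hY, a1, a7⟩, a6⟩, one_mul]
              exact le_trans le_add_self le_self_add
            · obtain ⟨o, ho, h4⟩ := up_cases a1 a3 hX hY a5
              have h5 : κ ≤ dx (p.1 ++ p.2) := by rw [dx_append]; omega
              rcases ho with rfl | rfl
              · rw [ind_of (p := (PU 1 N p ∧ κ ≤ dx (p.1 ++ p.2)) ∧ (p.1 ++ p.2).length = N)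
                  ⟨⟨⟨⟨⟨a1, a2⟩, ⟨a3, a4⟩, a5⟩, hX, hY, h4⟩, h5⟩, a6⟩, one_mul]
                exact le_trans le_self_add le_add_self
              · rw [ind_of (p := (PU (-1) N p ∧ κ ≤ dx (p.1 ++ p.2)) ∧ (p.1 ++ p.2).length = N)
                  ⟨⟨⟨⟨⟨a1, a2⟩, ⟨a3, a4⟩, a5⟩, hX, hY, h4⟩, h5⟩, a6⟩, one_mul]
                exact le_trans le_add_self le_add_self
        · rw [ind_not hp, zero_mul]; exact zero_le
    _ = (∑' p : LL, ind ((p.1 = [] ∧ IsB p.2 ∧ κ ≤ 0) ∧ (p.1 ++ p.2).length = N) * 1 +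
        ∑' p : LL, ind ((p.2 = [] ∧ IsB p.1 ∧ κ ≤ dx p.1) ∧ (p.1 ++ p.2).length = N) * 1) +
        (∑' p : LL, ind ((PU 1 N p ∧ κ ≤ dx (p.1 ++ p.2)) ∧ (p.1 ++ p.2).length = N) * 1 +
        ∑' p : LL, ind ((PU (-1) N p ∧ κ ≤ dx (p.1 ++ p.2)) ∧ (p.1 ++ p.2).length = N) * 1) := by
        rw [ENNReal.tsum_add, ENNReal.tsum_add, ENNReal.tsum_add]
    _ ≤ (bK N κ + bK N κ) +
        (((∑ w ∈ H982R.BrK N (2 * N) 1 κ, (JA N (2 * N) w).card : ℕ) : ℝ≥0∞) +
        ((∑ w ∈ H982R.BrK N (2 * N) 1 κ, (JA N (2 * N) w).card : ℕ) : ℝ≥0∞)) :=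
        add_le_add (add_le_add h1 h2) (add_le_add h3 h3')
    _ = _ := by ring

/-- the constant of the comparison -/
noncomputable def TT (N : ℕ) : ℝ :=
  2 + 160 * (Nat.log 2 (2 * N) + 2) ^ 3 * (1 + 3 * Real.log N)

omit L in
lemma TT_mono {m n : ℕ} (h : m ≤ n) : TT m ≤ TT n := by
  unfold TT
  have h1 : (Nat.log 2 (2 * m) : ℝ) ≤ Nat.log 2 (2 * n) := by
    exact_mod_cast Nat.log_mono_right (by omega)
  have h2 : Real.log m ≤ Real.log n := by
    rcases Nat.eq_zero_or_pos m with rfl | hm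
    · simpa using Real.log_natCast_nonneg n
    · exact Real.log_le_log (by exact_mod_cast hm) (by exact_mod_cast h)
  have h3 : 0 ≤ Real.log m := Real.log_natCast_nonneg m
  gcongr

lemma pK_le (N : ℕ) (κ : ℤ) : pK N κ ≤ ENNReal.ofReal (TT N) * bK N κ := by
  have h := H982R.sum_JA_polylogK N (2 * N) κ
  have hlogN : 0 ≤ Real.log N := Real.log_natCast_nonneg N
  set K : ℝ := 40 * (Nat.log 2 (2 * N) + 2) ^ 3 * (1 + 3 * Real.log N) with hK
  have hK0 : 0 ≤ K := by positivity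
  have h1 : ((∑ w ∈ H982R.BrK N (2 * N) 1 κ, (H982F.JA N (2 * N) w).card : ℕ) : ℝ≥0∞) ≤
      ENNReal.ofReal K * (2 * bK N κ) := by
    calc ((∑ w ∈ H982R.BrK N (2 * N) 1 κ, (H982F.JA N (2 * N) w).card : ℕ) : ℝ≥0∞)
        = ENNReal.ofReal ((∑ w ∈ H982R.BrK N (2 * N) 1 κ,
            (H982F.JA N (2 * N) w).card : ℕ) : ℝ) := by
          rw [ENNReal.ofReal_natCast]
      _ ≤ ENNReal.ofReal (K * ((H982R.BrK N (4 * (2 * N)) 2 κ).card : ℝ)) :=
          ENNReal.ofReal_le_ofReal h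
      _ = ENNReal.ofReal K * ((H982R.BrK N (4 * (2 * N)) 2 κ).card : ℝ≥0∞) := by
          rw [ENNReal.ofReal_mul hK0, ENNReal.ofReal_natCast]
      _ ≤ _ := by
          gcongr
          exact card_BrK_le N _ κ
  calc pK N κ ≤ 2 * bK N κ +
      2 * ((∑ w ∈ H982R.BrK N (2 * N) 1 κ, (JA N (2 * N) w).card : ℕ) : ℝ≥0∞) := pK_split N κ
    _ ≤ 2 * bK N κ + 2 * (ENNReal.ofReal K * (2 * bK N κ)) := by gcongr
    _ = (2 + 4 * ENNReal.ofReal K) * bK N κ := by ring
    _ = _ := by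
        congr 1
        rw [show (2 : ℝ≥0∞) = ENNReal.ofReal 2 by simp, show (4 : ℝ≥0∞) = ENNReal.ofReal 4 by simp,
          ← ENNReal.ofReal_mul (by norm_num), ← ENNReal.ofReal_add (by norm_num) (by positivity)]
        congr 1
        rw [hK]; unfold TT; ring

/-! ### first and last cut of a walk -/

/-- the last point is a maximum -/
def TopW (A : List St) : Prop := ∀ u, u <+: A → dx u ≤ dx A

/-- no cut before the end -/
def NCL (A : List St) : Prop := ∀ P Q, A = P ++ Q → Q ≠ [] → TopW P → ¬ HP Q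

/-- no cut after the start -/
def NCR (C : List St) : Prop := ∀ P Q, C = P ++ Q → P ≠ [] → TopW P → ¬ HP Q

lemma TopW.nonneg {A : List St} (h : TopW A) : 0 ≤ dx A := by
  simpa using h [] (List.nil_prefix)

lemma exists_split (w : List St) : ∃ A B, w = A ++ B ∧ TopW A ∧
    ∀ u, u <+: B → u ≠ [] → dx u < 0 := by
  induction w using List.reverseRecOn with
  | nil =>
    refine ⟨[], [], rfl, ?_, ?_⟩
    · intro u hu
      rw [List.prefix_nil.mp hu]
    · intro u hu h0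
      exact absurd (List.prefix_nil.mp hu) h0
  | append_singleton w s ih =>
    obtain ⟨A, B, rfl, h1, h2⟩ := ih
    by_cases h : 0 ≤ dx (B ++ [s])
    · refine ⟨A ++ (B ++ [s]), [], by simp, ?_, ?_⟩
      · intro u hu
        rw [← List.append_assoc] at hu
        have hA : dx A ≤ dx (A ++ (B ++ [s])) := by rw [dx_append]; omega
        rcases prefix_append_cases hu with h3 | ⟨v, h3, h4, rfl⟩
        · rcases prefix_append_cases h3 with h5 | ⟨v, h5, h6, rfl⟩
          · exact (h1 u h5).trans hA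
          · have h7 := h2 v h5 h6
            have h8 := dx_append A v
            omega
        · have h5 : v = [s] := by
            rcases List.prefix_cons_iff.mp h3 with h6 | ⟨t, h6, h7⟩
            · exact absurd h6 h4
            · rw [List.prefix_nil] at h7
              rw [h6, h7]
          rw [h5, List.append_assoc]
      · intro u hu h0
        exact absurd (List.prefix_nil.mp hu) h0
    · refine ⟨A, B ++ [s], by simp, h1, ?_⟩
      intro u hu h0
      rcases prefix_append_cases hu with h3 | ⟨v, h3, h4, rfl⟩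
      · exact h2 u h3 h0
      · have h5 : v = [s] := by
          rcases List.prefix_cons_iff.mp h3 with h6 | ⟨t, h6, h7⟩
          · exact absurd h6 h4
          · rw [List.prefix_nil] at h7
            rw [h6, h7]
        rw [h5]
        omega

lemma HP.append {u w : List St} (hu : HP u) (hw : HP w) : HP (u ++ w) := by
  intro m hm h0
  rcases prefix_append_cases hm with h | ⟨v, h1, h2, rfl⟩
  · exact hu m h h0
  · have := hw v h1 h2
    have := hu.dx_nonneg
    rw [dx_append]; omega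

lemma TopW.append {u w : List St} (hu : TopW u) (hw : TopW w) : TopW (u ++ w) := by
  intro m hm
  have h3 := hw.nonneg
  rcases prefix_append_cases hm with h | ⟨v, h1, h2, rfl⟩
  · have := hu m h
    rw [dx_append]; omega
  · have := hw v h1
    rw [dx_append, dx_append]; omega

lemma first_cut (n : ℕ) : ∀ A : List St, A.length ≤ n → TopW A →
    ∃ A0 β, A = A0 ++ β ∧ TopW A0 ∧ NCL A0 ∧ HP β := by
  induction n with
  | zero =>
    intro A hA h
    have : A = [] := List.length_eq_zero_iff.mp (by omega)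
    subst this
    refine ⟨[], [], rfl, h, ?_, ?_⟩
    · intro P Q hPQ hQ
      have := List.append_eq_nil_iff.mp hPQ.symm
      exact absurd this.2 hQ
    · intro u hu h0
      exact absurd (List.prefix_nil.mp hu) h0
  | succ n ih =>
    intro A hA h
    by_cases hN : NCL A
    · refine ⟨A, [], by simp, h, hN, ?_⟩
      intro u hu h0
      exact absurd (List.prefix_nil.mp hu) h0
    · unfold NCL at hN
      push Not at hN
      obtain ⟨P, Q, rfl, hQ, hP, hHP⟩ := hN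
      have hl : 0 < Q.length := List.length_pos_iff.mpr hQ
      rw [List.length_append] at hA
      obtain ⟨A0, β, rfl, h1, h2, h3⟩ := ih P (by omega) hP
      exact ⟨A0, β ++ Q, by simp, h1, h2, h3.append hHP⟩

lemma last_cut (n : ℕ) : ∀ B : List St, B.length ≤ n → HP B →
    ∃ β C, B = β ++ C ∧ TopW β ∧ HP C ∧ NCR C := by
  induction n with
  | zero =>
    intro B hB h
    have : B = [] := List.length_eq_zero_iff.mp (by omega)
    subst this
    refine ⟨[], [], rfl, ?_, h, ?_⟩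
    · intro u hu
      rw [List.prefix_nil.mp hu]
    · intro P Q hPQ hP
      have := List.append_eq_nil_iff.mp hPQ.symm
      exact absurd this.1 hP
  | succ n ih =>
    intro B hB h
    by_cases hN : NCR B
    · refine ⟨[], B, by simp, ?_, h, hN⟩
      intro u hu
      rw [List.prefix_nil.mp hu]
    · unfold NCR at hN
      push Not at hN
      obtain ⟨P, Q, rfl, hP, hT, hHP⟩ := hN
      have hl : 0 < P.length := List.length_pos_iff.mpr hP
      rw [List.length_append] at hB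
      obtain ⟨β, C, rfl, h1, h2, h3⟩ := ih Q (by omega) hHP
      exact ⟨P ++ β, C, by simp, hT.append h1, h2, h3⟩

lemma isB_of {β : List St} (h1 : Saw β) (h2 : HP β) (h3 : TopW β) : IsB β := by
  have h4 := h2.dx_nonneg
  refine ⟨wd β, h1, h2, ?_, ?_⟩
  · intro u hu
    have := h3 u hu
    unfold wd; omega
  · unfold wd; omega

lemma IsB.topW {β : List St} (h : IsB β) : TopW β := by
  intro u hu
  have := h.br.le hu
  rwa [h.wd_eq_dx] at this

lemma saw_append_cut {P R : List St} (hP : Saw P) (hR : Saw R) (h1 : TopW P) (h2 : HP R) :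
    Saw (P ++ R) := by
  refine ⟨?_, ok_append.mpr ⟨hP.2, hR.2⟩⟩
  intro m hm h3 h4
  rcases infix_append_cases hm with h | h | ⟨m1, m2, h5, h6, h7, h8, rfl⟩
  · exact hP.1 m h h3 h4
  · exact hR.1 m h h3 h4
  · exfalso
    obtain ⟨s, hs⟩ := h5
    have h9 := h1 s ⟨m1, hs⟩
    rw [← hs, dx_append] at h9
    have := h2 m2 h6 h8
    rw [dx_append] at h3
    omega

/-- folding two bridges: non-crossing -/
lemma ncg_of_saw {X Y : List St} (h : Saw (X ++ sg Y)) : NCg X Y := by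
  intro m m' hm hm' h1 h2
  have h3 : m ++ sg m' <:+: X ++ sg Y := by
    obtain ⟨s, hs⟩ := hm
    obtain ⟨t, ht⟩ := hm'
    refine ⟨s, sg t, ?_⟩
    rw [← hs, ← ht, sg_append]
    simp
  have h4 := h.1 _ h3 (by rw [dx_append, dx_sg]; omega) (by rw [dy_append, dy_sg]; exact h2)
  rw [List.append_eq_nil_iff] at h4
  refine ⟨h4.1, ?_⟩
  have h5 := congrArg sg h4.2
  simpa using h5

/-- the quadruples -/
def QC (K : ℤ) (N : ℕ) (q : LL × LL) : Prop :=
  ((TopW q.1.1 ∧ NCL q.1.1 ∧ Saw q.1.1) ∧ (HP q.1.2 ∧ NCR q.1.2 ∧ Saw q.1.2)) ∧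
  (((IsB q.2.1 ∧ IsB q.2.2) ∧ NCg q.2.1 q.2.2 ∧ K - dx q.1.1 ≤ dx q.2.1) ∧
    (q.2.1 ++ q.2.2).length + (q.1.1.length + q.1.2.length) = N)

/-- the triples -/
def TC (K : ℤ) (N : ℕ) (q : LL × List St) : Prop :=
  ((TopW q.1.1 ∧ NCL q.1.1 ∧ Saw q.1.1) ∧ (HP q.1.2 ∧ NCR q.1.2 ∧ Saw q.1.2)) ∧
  ((IsB q.2 ∧ K - dx q.1.1 ≤ 2 * dx q.2) ∧ q.2.length + (q.1.1.length + q.1.2.length) = N)

/-- walks whose maximum is at least `K` -/
def Hi (K : ℤ) (w : List St) : Prop := ∃ p, p <+: w ∧ K ≤ dx p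

lemma hi_le_quad (K : ℤ) (N : ℕ) :
    ∑' w : List St, ind ((Saw w ∧ Hi K w) ∧ w.length = N) * 1 ≤
    ∑' q : LL × LL, ind (QC K N q) * 1 := by
  refine tsum_cover _ _ _ _ (fun q : LL × LL =>
    (q.1.1 ++ q.2.1) ++ sg (q.2.2 ++ q.1.2)) ?_
  rintro w ⟨⟨hw, p, hp, hpK⟩, hN⟩
  obtain ⟨A, B, rfl, hA, hB⟩ := exists_split w
  have hB' : HP (sg B) := by
    intro u hu h0
    have h1 : sg u <+: B := by
      have := hu.map St.sg
      change sg u <+: sg (sg B) at this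
      rwa [sg_sg] at this
    have h2 : sg u ≠ [] := by
      intro h
      apply h0
      have := congrArg sg h
      simpa using this
    have := hB _ h1 h2
    rw [dx_sg] at this
    omega
  obtain ⟨A0, β1, rfl, a1, a2, a3⟩ := first_cut _ A le_rfl hA
  obtain ⟨β2, C0, hC, b1, b2, b3⟩ := last_cut _ (sg B) le_rfl hB'
  have hBe : B = sg (β2 ++ C0) := by rw [← hC, sg_sg]
  subst hBe
  have hT1 : TopW β1 := by
    intro u hu
    have := hA (A0 ++ u) ((List.prefix_append_right_inj A0).mpr hu)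
    rw [dx_append, dx_append] at this
    omega
  have hKA : K ≤ dx (A0 ++ β1) := by
    rcases prefix_append_cases hp with h | ⟨v, h1, h2, rfl⟩
    · exact hpK.trans (hA p h)
    · have := hB v h1 h2
      rw [dx_append] at hpK
      omega
  have s1 : Saw A0 := hw.subw ⟨[], β1 ++ sg (β2 ++ C0), by simp⟩
  have s2 : Saw β1 := hw.subw ⟨A0, sg (β2 ++ C0), by simp⟩
  have s3 : Saw (sg β2) := hw.subw ⟨A0 ++ β1, sg C0, by simp⟩
  have s4 : Saw (sg C0) := hw.subw ⟨A0 ++ β1 ++ sg β2, [], by simp⟩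
  have s5 : Saw (β1 ++ sg β2) := hw.subw ⟨A0, sg C0, by simp⟩
  have s3' : Saw β2 := by have := s3.sg; rwa [sg_sg] at this
  have s4' : Saw C0 := by have := s4.sg; rwa [sg_sg] at this
  have hH2 : HP β2 := hB'.prew (by rw [hC]; exact List.prefix_append _ _)
  rw [dx_append] at hKA
  refine ⟨((A0, C0), (β1, β2)), ⟨⟨⟨a1, a2, s1⟩, ⟨b2, b3, s4'⟩⟩,
    ⟨⟨isB_of s2 a3 hT1, isB_of s3' hH2 b1⟩, ncg_of_saw s5, ?_⟩, ?_⟩, rfl, le_rfl⟩
  · simp only; omega
  · rw [← hN]
    simp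
    omega

lemma trip_le_lo (K : ℤ) (N : ℕ) : ∑' q : LL × List St, ind (TC K N q) * 1 ≤
    ∑' w : List St, ind ((Saw w ∧ K ≤ 2 * dx w) ∧ w.length = N) * 1 := by
  refine tsum_inj _ _ _ _ (fun q : LL × List St => q.1.1 ++ (q.2 ++ q.1.2)) ?_ ?_ ?_
  · rintro ⟨⟨A, C⟩, β⟩ ⟨⟨A', C'⟩, β'⟩ ⟨⟨⟨a1, a2, a3⟩, b1, b2, b3⟩, ⟨c1, -⟩, -⟩
      ⟨⟨⟨a1', a2', a3'⟩, b1', b2', b3'⟩, ⟨c1', -⟩, -⟩ h
    simp only at a1 a2 a3 b1 b2 b3 c1 a1' a2' a3' b1' b2' b3' c1' h
    have hR : HP (β ++ C) := c1.br.hp.append b1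
    have hR' : HP (β' ++ C') := c1'.br.hp.append b1'
    have hA : A = A' := by
      rcases List.append_eq_append_iff.mp h with ⟨as, h1, h2⟩ | ⟨as, h1, h2⟩
      · by_contra hne
        have has : as ≠ [] := by
          rintro rfl
          exact hne (by simpa using h1.symm)
        exact a2' A as h1 has a1 (hR.prew ⟨_, h2.symm⟩)
      · by_contra hne
        have has : as ≠ [] := by
          rintro rfl
          exact hne (by simpa using h1)
        exact a2 A' as h1 has a1' (hR'.prew ⟨_, h2.symm⟩)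
    subst hA
    have h' : β ++ C = β' ++ C' := List.append_cancel_left h
    have hβ : β = β' := by
      rcases List.append_eq_append_iff.mp h' with ⟨as, h1, h2⟩ | ⟨as, h1, h2⟩
      · by_contra hne
        have has : as ≠ [] := by
          rintro rfl
          exact hne (by simpa using h1.symm)
        refine b2 as C' h2 has ?_ b1'
        intro u hu
        have := c1'.topW (β ++ u) (by rw [h1]; exact (List.prefix_append_right_inj β).mpr hu)
        rw [h1, dx_append, dx_append] at this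
        omega
      · by_contra hne
        have has : as ≠ [] := by
          rintro rfl
          exact hne (by simpa using h1)
        refine b2' as C h2 has ?_ b1
        intro u hu
        have := c1.topW (β' ++ u) (by rw [h1]; exact (List.prefix_append_right_inj β').mpr hu)
        rw [h1, dx_append, dx_append] at this
        omega
    subst hβ
    have h'' : C = C' := List.append_cancel_left h'
    rw [h'']
  · rintro ⟨⟨A, C⟩, β⟩ ⟨⟨⟨a1, a2, a3⟩, b1, b2, b3⟩, ⟨c1, c2⟩, c3⟩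
    simp only at a1 a2 a3 b1 b2 b3 c1 c2 c3 ⊢
    have h1 : Saw (β ++ C) := saw_append_cut c1.br.saw b3 c1.topW b1
    have h2 : Saw (A ++ (β ++ C)) := saw_append_cut a3 h1 a1 (c1.br.hp.append b1)
    have h3 := a1.nonneg
    have h4 := b1.dx_nonneg
    refine ⟨⟨h2, ?_⟩, ?_⟩
    · rw [dx_append, dx_append]; omega
    · rw [List.length_append, List.length_append]; omega
  · intro q _
    exact le_rfl

lemma quad_le_trip (K : ℤ) (N : ℕ) : ∑' q : LL × LL, ind (QC K N q) * 1 ≤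
    ENNReal.ofReal (TT N) * ∑' q : LL × List St, ind (TC K N q) * 1 := by
  have e1 : ∑' q : LL × LL, ind (QC K N q) * 1 = ∑' e : LL, ∑' p : LL, ind (QC K N (e, p)) * 1 :=
    ENNReal.tsum_prod'
  have e2 : ∑' q : LL × List St, ind (TC K N q) * 1 =
      ∑' e : LL, ∑' p : List St, ind (TC K N (e, p)) * 1 := ENNReal.tsum_prod'
  rw [e1, e2, ← ENNReal.tsum_mul_left]
  refine ENNReal.tsum_le_tsum fun e => ?_
  by_cases hE : (TopW e.1 ∧ NCL e.1 ∧ Saw e.1) ∧ (HP e.2 ∧ NCR e.2 ∧ Saw e.2)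
  swap
  · have h0 : ∑' p : LL, ind (QC K N (e, p)) * 1 = 0 := by
      rw [ENNReal.tsum_eq_zero]
      intro p
      rw [ind_not, zero_mul]
      exact fun h => hE h.1
    rw [h0]
    exact zero_le
  by_cases hl : e.1.length + e.2.length ≤ N
  swap
  · have h0 : ∑' p : LL, ind (QC K N (e, p)) * 1 = 0 := by
      rw [ENNReal.tsum_eq_zero]
      intro p
      rw [ind_not, zero_mul]
      intro h
      have h1 := h.2.2
      simp only at h1
      omega
    rw [h0]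
    exact zero_le
  have h1 : ∑' p : LL, ind (QC K N (e, p)) * 1 =
      pK (N - (e.1.length + e.2.length)) (K - dx e.1) := by
    unfold pK
    congr 1
    ext p
    congr 2
    unfold QC
    simp only [eq_iff_iff]
    constructor
    · rintro ⟨-, h2, h3⟩
      exact ⟨h2, by omega⟩
    · rintro ⟨h2, h3⟩
      exact ⟨hE, h2, by omega⟩
  have h2 : ∑' p : List St, ind (TC K N (e, p)) * 1 =
      bK (N - (e.1.length + e.2.length)) (K - dx e.1) := by
    unfold bK
    congr 1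
    ext p
    congr 2
    unfold TC
    simp only [eq_iff_iff]
    constructor
    · rintro ⟨-, h2, h3⟩
      exact ⟨h2, by omega⟩
    · rintro ⟨h2, h3⟩
      exact ⟨hE, h2, by omega⟩
  rw [h1, h2]
  refine (pK_le _ _).trans ?_
  gcongr
  exact TT_mono (by omega)

/-- **Comparison of the maximum with the endpoint.** -/
theorem hi_le (K : ℤ) (N : ℕ) :
    ∑' w : List St, ind ((Saw w ∧ Hi K w) ∧ w.length = N) * 1 ≤
    ENNReal.ofReal (TT N) * ∑' w : List St, ind ((Saw w ∧ K ≤ 2 * dx w) ∧ w.length = N) * 1 := by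
  refine (hi_le_quad K N).trans ((quad_le_trip K N).trans ?_)
  gcongr
  exact trip_le_lo K N

end H982
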