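import Pool.Agent.H982R3.Walk
import Pool.Agent.H982R3.Plain

/-!
The tail comparison for plain self-avoiding walks on the three lattices.
-/

set_option linter.unusedSectionVars false

namespace H982

open scoped ENNReal

variable [L : Lat]

/-- self-avoiding words of length `n` -/
def SW (n : ℕ) : Set (List St) := {w | Saw w ∧ w.length = n}

theorem sw_finite (n : ℕ) : (SW n).Finite := by
  have h := List.finite_length_eq St n
  exact h.subset fun w hw => hw.2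

theorem ncard_toReal (n : ℕ) (P : List St → Prop) :
    (∑' w : List St, ind ((Saw w ∧ P w) ∧ w.length = n) * 1).toReal =
      ({w | w ∈ SW n ∧ P w}.ncard : ℝ) ∧
    ∑' w : List St, ind ((Saw w ∧ P w) ∧ w.length = n) * 1 ≠ ⊤ := by
  have h0 : ∑' w : List St, ind ((Saw w ∧ P w) ∧ w.length = n) * 1 ≠ ⊤ := by
    refine ne_top_of_le_ne_top (cc_ne_top n) ?_
    unfold cc
    refine ENNReal.tsum_le_tsum fun w => ?_
    rw [mul_one]
    by_cases h : (Saw w ∧ P w) ∧ w.length = n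
    · rw [ind_of h, ind_of (p := Saw w ∧ w.length = n) ⟨h.1.1, h.2⟩]
    · rw [ind_not h]; exact zero_le
  refine ⟨?_, h0⟩
  simp only [mul_one] at h0 ⊢
  rw [tsum_ind_eq_card _ h0]
  congr 1
  rw [← Nat.card_coe_set_eq]
  refine Nat.card_congr (Equiv.subtypeEquivRight fun w => ?_)
  simp only [SW, Set.mem_setOf_eq]
  tauto

theorem hi_ncard (K : ℤ) (n : ℕ) :
    ({w | w ∈ SW n ∧ Hi K w}.ncard : ℝ) ≤ TT n * {w | w ∈ SW n ∧ K ≤ 2 * dx w}.ncard := by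
  obtain ⟨h1, h2⟩ := ncard_toReal n (Hi K)
  obtain ⟨h3, h4⟩ := ncard_toReal n (fun w => K ≤ 2 * dx w)
  have hT : 0 ≤ TT n := by
    unfold TT
    have := Real.log_natCast_nonneg n
    positivity
  rw [← h1, ← h3]
  have h5 := hi_le K n
  have h6 := ENNReal.toReal_mono (ENNReal.mul_ne_top ENNReal.ofReal_ne_top h4) h5
  rwa [ENNReal.toReal_mul, ENNReal.toReal_ofReal hT] at h6

theorem sw_sg {n : ℕ} {w : List St} (h : w ∈ SW n) : sg w ∈ SW n :=
  ⟨h.1.sg, by rw [length_sg]; exact h.2⟩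

/-- the horizontal coordinate reaches `K` in absolute value -/
def HiA (K : ℤ) (w : List St) : Prop := ∃ p, p <+: w ∧ K ≤ |dx p|

theorem hiA_ncard (K : ℤ) (n : ℕ) :
    ({w | w ∈ SW n ∧ HiA K w}.ncard : ℝ) ≤ 2 * TT n * {w | w ∈ SW n ∧ K ≤ 2 * dx w}.ncard := by
  have hfin : ∀ P : List St → Prop, {w | w ∈ SW n ∧ P w}.Finite := fun P =>
    (sw_finite n).subset fun w hw => hw.1
  have h1 : {w | w ∈ SW n ∧ HiA K w} ⊆ {w | w ∈ SW n ∧ Hi K w} ∪ {w | w ∈ SW n ∧ Hi K (sg w)} := by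
    rintro w ⟨hw, p, hp, hK⟩
    rcases abs_cases (dx p) with h | h
    · left; exact ⟨hw, p, hp, by omega⟩
    · right
      refine ⟨hw, sg p, hp.map St.sg, ?_⟩
      rw [dx_sg]; omega
  have h2 : {w | w ∈ SW n ∧ Hi K (sg w)}.ncard ≤ {w | w ∈ SW n ∧ Hi K w}.ncard := by
    refine Set.ncard_le_ncard_of_injOn sg ?_ (sg_injective.injOn) (hfin _)
    rintro w ⟨hw, h⟩
    exact ⟨sw_sg hw, h⟩
  have h3 := Set.ncard_le_ncard h1 ((hfin _).union (hfin _))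
  have h4 := Set.ncard_union_le {w | w ∈ SW n ∧ Hi K w} {w | w ∈ SW n ∧ Hi K (sg w)}
  have h5 := hi_ncard K n
  have h6 : ({w | w ∈ SW n ∧ HiA K w}.ncard : ℝ) ≤ 2 * {w | w ∈ SW n ∧ Hi K w}.ncard := by
    have : {w | w ∈ SW n ∧ HiA K w}.ncard ≤ 2 * {w | w ∈ SW n ∧ Hi K w}.ncard := by omega
    exact_mod_cast this
  linarith

/-- Coordinates in which the steps of a graph on `ℤ × ℤ` are the letters; the coordinates are
injective on the reachable points. -/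
structure Coord2 (Adj : ℤ × ℤ → ℤ × ℤ → Prop) (φ : ℤ × ℤ → ℤ × ℤ)
    (R : ℕ → ℤ × ℤ → Prop) : Prop where
  inj : ∀ i k p q, R i p → R k q → φ p = φ q → p = q
  zero : φ 0 = 0
  R0 : R 0 0
  Rs : ∀ i p q, R i p → Adj p q → R (i + 1) q
  step : ∀ i p q, R i p → Adj p q → ∃ s : St, s.ok ∧ (φ q).1 = (φ p).1 + s.x ∧
    (φ q).2 = (φ p).2 + sgm ^ i * s.y
  back : ∀ i p (s : St), R i p → s.ok → ∃ q, Adj p q ∧ (φ q).1 = (φ p).1 + s.x ∧
    (φ q).2 = (φ p).2 + sgm ^ i * s.y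

variable {Adj : ℤ × ℤ → ℤ × ℤ → Prop} {φ : ℤ × ℤ → ℤ × ℤ} {R : ℕ → ℤ × ℤ → Prop}

open Classical in
/-- the walk of a word -/
noncomputable def hw (φ : ℤ × ℤ → ℤ × ℤ) (R : ℕ → ℤ × ℤ → Prop) (w : List St) (i : ℕ) : ℤ × ℤ :=
  if h : ∃ q, R i q ∧ φ q = pf 1 w i then h.choose else 0

lemma hw_eq (H : Coord2 Adj φ R) {w : List St} {i : ℕ} {q : ℤ × ℤ} (hR : R i q)
    (h : φ q = pf 1 w i) : hw φ R w i = q := by
  unfold hw
  have h1 : ∃ q, R i q ∧ φ q = pf 1 w i := ⟨q, hR, h⟩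
  rw [dif_pos h1]
  obtain ⟨h2, h3⟩ := h1.choose_spec
  exact H.inj i i _ _ h2 hR (h3.trans h.symm)

lemma hw_spec (H : Coord2 Adj φ R) {w : List St} (hok : Ok w) (i : ℕ) (hi : i ≤ w.length) :
    φ (hw φ R w i) = pf 1 w i ∧ R i (hw φ R w i) := by
  induction i with
  | zero =>
    have h1 : hw φ R w 0 = 0 := hw_eq H H.R0 (by rw [H.zero, pf_zero]; rfl)
    rw [h1, H.zero, pf_zero]
    exact ⟨rfl, H.R0⟩
  | succ i ih =>
    obtain ⟨h1, h2⟩ := ih (by omega)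
    have hi' : i < w.length := by omega
    obtain ⟨q, hq1, hq2, hq3⟩ := H.back i (hw φ R w i) (w[i]) h2 (hok _ (List.getElem_mem hi'))
    obtain ⟨h3, h4⟩ := pf_succ 1 hi'
    have h5 : φ q = pf 1 w (i + 1) := by
      rw [h1] at hq2 hq3
      apply Prod.ext
      · rw [hq2, h3]
      · rw [hq3, h4, one_mul]
    have h6 := H.Rs _ _ _ h2 hq1
    rw [hw_eq H h6 h5]
    exact ⟨h5, h6⟩

lemma hw_adj (H : Coord2 Adj φ R) {w : List St} (hok : Ok w) (i : ℕ) (hi : i < w.length) :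
    Adj (hw φ R w i) (hw φ R w (i + 1)) := by
  obtain ⟨h1, h2⟩ := hw_spec H hok i hi.le
  obtain ⟨q, hq1, hq2, hq3⟩ := H.back i (hw φ R w i) (w[i]) h2 (hok _ (List.getElem_mem hi))
  obtain ⟨h3, h4⟩ := pf_succ 1 hi
  have h5 : φ q = pf 1 w (i + 1) := by
    rw [h1] at hq2 hq3
    apply Prod.ext
    · rw [hq2, h3]
    · rw [hq3, h4, one_mul]
  rw [hw_eq H (H.Rs _ _ _ h2 hq1) h5]
  exact hq1

lemma exists_hw (H : Coord2 Adj φ R) {n : ℕ} {f : Fin (n + 1) → ℤ × ℤ} (hf : f ∈ walks Adj n) :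
    ∃ w : List St, (Saw w ∧ w.length = n) ∧ ∀ i : Fin (n + 1), hw φ R w i = f i := by
  obtain ⟨h0, hinj, hadj⟩ := hf
  have hR : ∀ i : ℕ, (hi : i < n + 1) → R i (f ⟨i, hi⟩) := by
    intro i
    induction i with
    | zero => intro _; rw [show (⟨0, _⟩ : Fin (n + 1)) = 0 from rfl, h0]; exact H.R0
    | succ i ih =>
      intro hi
      exact H.Rs _ _ _ (ih (by omega)) (hadj ⟨i, by omega⟩)
  choose s hs1 hs2 hs3 using fun i : Fin n =>
    H.step i (f i.castSucc) (f i.succ) (hR i (by omega)) (hadj i)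
  have hlen : (List.ofFn s).length = n := by simp
  have hok : Ok (List.ofFn s) := by
    intro t ht
    rw [List.mem_ofFn] at ht
    obtain ⟨i, rfl⟩ := ht
    exact hs1 i
  have key : ∀ i : Fin (n + 1), φ (f i) = pf 1 (List.ofFn s) i := by
    intro i
    induction i using Fin.induction with
    | zero => rw [h0, H.zero]; exact (pf_zero 1 _).symm
    | succ i ih =>
      have hi : (i : ℕ) < (List.ofFn s).length := by simp
      have h2 := pf_succ 1 hi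
      have h3 : (List.ofFn s)[(i : ℕ)] = s i := by simp
      rw [h3] at h2
      simp only [Fin.val_castSucc] at ih
      rw [← ih] at h2
      rw [Fin.val_succ]
      apply Prod.ext
      · rw [h2.1, hs2]
      · rw [h2.2, hs3, one_mul]
  refine ⟨List.ofFn s, ⟨saw_of_inj hok ?_, hlen⟩, fun i => hw_eq H (hR i (by omega)) (key i)⟩
  intro i k hi hk hik
  rw [hlen] at hi hk
  have h1 := key ⟨i, by omega⟩
  have h2 := key ⟨k, by omega⟩
  simp only at h1 h2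
  rw [← h1, ← h2] at hik
  have h3 := hinj (H.inj i k _ _ (hR i (by omega)) (hR k (by omega)) hik)
  simpa using h3

/-- Words and walks. -/
theorem bijOn_hw (H : Coord2 Adj φ R) (n : ℕ) :
    Set.BijOn (fun (w : List St) (i : Fin (n + 1)) => hw φ R w i) (SW n) (walks Adj n) := by
  refine ⟨?_, ?_, ?_⟩
  · rintro w ⟨hw', hl⟩
    have hok := hw'.2
    have hs := saw_pf (o := 1) (Or.inl rfl) hw'
    refine ⟨?_, ?_, ?_⟩
    · exact hw_eq H H.R0 (by rw [H.zero]; exact (pf_zero 1 w).symm)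
    · intro i k hik
      simp only at hik
      have h1 := (hw_spec H hok i (by omega)).1
      have h2 := (hw_spec H hok k (by omega)).1
      apply Fin.ext
      refine hs.inj i k (by omega) (by omega) ?_
      rw [← h1, ← h2, hik]
    · intro i
      exact hw_adj H hok i (by omega)
  · rintro w ⟨hw1, hl⟩ w' ⟨hw2, hl'⟩ h
    simp only at h
    apply pf_inj (o := 1) (Or.inl rfl) hw1.2 hw2.2 (by omega)
    have h1 : ∀ i, i ≤ n → pf 1 w i = pf 1 w' i := by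
      intro i hi
      have h2 := congrFun h ⟨i, by omega⟩
      simp only at h2
      rw [← (hw_spec H hw1.2 i (by omega)).1, ← (hw_spec H hw2.2 i (by omega)).1, h2]
    funext i
    rcases le_total i n with hi | hi
    · exact h1 i hi
    · have h3 := h1 n le_rfl
      rw [pf_ge 1 (by omega), pf_ge 1 (by omega)] at h3
      rw [pf_ge 1 (by omega), pf_ge 1 (by omega), h3]
  · rintro f hf
    obtain ⟨w, hw', h⟩ := exists_hw H hf
    exact ⟨w, hw', funext h⟩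

theorem walks_finite (H : Coord2 Adj φ R) (n : ℕ) : (walks Adj n).Finite := by
  have h := (bijOn_hw H n).image_eq
  rw [← h]
  exact (sw_finite n).image _

theorem hiA_walks (H : Coord2 Adj φ R) (K : ℤ) (n : ℕ) :
    ({f | f ∈ walks Adj n ∧ ∃ i, K ≤ |(φ (f i)).1|}.ncard : ℝ) ≤
      2 * TT n * {f | f ∈ walks Adj n ∧ K ≤ 2 * (φ (f (Fin.last n))).1}.ncard := by
  have hb := bijOn_hw H n
  have h1 : {f | f ∈ walks Adj n ∧ ∃ i, K ≤ |(φ (f i)).1|}.ncard ≤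
      {w | w ∈ SW n ∧ HiA K w}.ncard := by
    have hsub : {f | f ∈ walks Adj n ∧ ∃ i, K ≤ |(φ (f i)).1|} ⊆
        (fun (w : List St) (i : Fin (n + 1)) => hw φ R w i) '' {w | w ∈ SW n ∧ HiA K w} := by
      rintro f ⟨hf, i, hi⟩
      obtain ⟨w, hw1, rfl⟩ := hb.surjOn hf
      refine ⟨w, ⟨hw1, w.take i, List.take_prefix _ _, ?_⟩, rfl⟩
      simp only at hi
      rw [(hw_spec H hw1.1.2 i (by have := hw1.2; omega)).1] at hi
      exact hi
    have hfin : {w | w ∈ SW n ∧ HiA K w}.Finite := (sw_finite n).subset fun w hw => hw.1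
    exact (Set.ncard_le_ncard hsub (hfin.image _)).trans (Set.ncard_image_le hfin)
  have h2 : {w | w ∈ SW n ∧ K ≤ 2 * dx w}.ncard ≤
      {f | f ∈ walks Adj n ∧ K ≤ 2 * (φ (f (Fin.last n))).1}.ncard := by
    refine Set.ncard_le_ncard_of_injOn (fun (w : List St) (i : Fin (n + 1)) => hw φ R w i) ?_ ?_ ?_
    · rintro w ⟨hw1, hw2⟩
      refine ⟨hb.mapsTo hw1, ?_⟩
      simp only
      rw [(hw_spec H hw1.1.2 (Fin.last n) (by have := hw1.2; simp [this])).1,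
        pf_ge 1 (by have := hw1.2; simp [this])]
      exact hw2
    · exact hb.injOn.mono fun w hw => hw.1
    · exact (walks_finite H n).subset fun f hf => hf.1
  have h3 := hiA_ncard K n
  have hT : 0 ≤ TT n := by
    unfold TT
    have := Real.log_natCast_nonneg n
    positivity
  calc ({f | f ∈ walks Adj n ∧ ∃ i, K ≤ |(φ (f i)).1|}.ncard : ℝ)
      ≤ {w | w ∈ SW n ∧ HiA K w}.ncard := by exact_mod_cast h1
    _ ≤ 2 * TT n * {w | w ∈ SW n ∧ K ≤ 2 * dx w}.ncard := h3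
    _ ≤ _ := by gcongr

/-- A rotation `ρ` and a quadratic form `Q` compatible with the first coordinate. -/
structure Geo (Adj : ℤ × ℤ → ℤ × ℤ → Prop) (φ : ℤ × ℤ → ℤ × ℤ) (Q : ℤ × ℤ → ℤ)
    (ρ : ℤ × ℤ → ℤ × ℤ) (c : ℤ) : Prop where
  rinj : Function.Injective ρ
  rzero : ρ 0 = 0
  radj : ∀ p q, Adj p q → Adj (ρ p) (ρ q)
  cpos : 0 < c
  up : ∀ p, ∃ k : Fin 3, 2 * Q p ≤ c * (φ (ρ^[k] p)).1 ^ 2
  low : ∀ p, c * (φ p).1 ^ 2 ≤ 4 * Q p

variable {Q : ℤ × ℤ → ℤ} {ρ : ℤ × ℤ → ℤ × ℤ} {c : ℤ}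

lemma rot_walks (G : Geo Adj φ Q ρ c) (k n : ℕ) {f : Fin (n + 1) → ℤ × ℤ}
    (hf : f ∈ walks Adj n) : (fun i => ρ^[k] (f i)) ∈ walks Adj n := by
  induction k with
  | zero => exact hf
  | succ k ih =>
    obtain ⟨h0, h1, h2⟩ := ih
    refine ⟨?_, ?_, ?_⟩
    · simp only at h0 ⊢
      rw [Function.iterate_succ_apply', h0, G.rzero]
    · intro i j hij
      simp only [Function.iterate_succ_apply'] at hij
      exact h1 (G.rinj hij)
    · intro i
      simp only [Function.iterate_succ_apply']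
      exact G.radj _ _ (h2 i)

/-- least `K ≥ 0` with `2 s ≤ c K²` -/
lemma exists_K (c s : ℤ) (hc : 0 < c) : ∃ K : ℤ, 0 ≤ K ∧ 2 * s ≤ c * K ^ 2 ∧
    ∀ x : ℤ, 2 * s ≤ c * x ^ 2 → K ≤ |x| := by
  classical
  have h : ∃ k : ℕ, 2 * s ≤ c * (k : ℤ) ^ 2 := by
    refine ⟨(2 * s).toNat, ?_⟩
    rcases le_or_gt (2 * s) 0 with h | h
    · exact h.trans (by positivity)
    · rw [Int.toNat_of_nonneg h.le]
      nlinarith
  refine ⟨Nat.find h, by positivity, Nat.find_spec h, fun x hx => ?_⟩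
  have h1 : 2 * s ≤ c * ((x.natAbs : ℕ) : ℤ) ^ 2 := by
    rw [Int.natCast_natAbs, sq_abs]; exact hx
  have h2 := Nat.find_min' h h1
  have h3 : ((x.natAbs : ℕ) : ℤ) = |x| := Int.natCast_natAbs x
  omega

omit L in
lemma iUnion3 {α : Type*} (S : Fin 3 → Set α) : (⋃ k, S k).ncard ≤ ∑ k, (S k).ncard := by
  have h1 : (⋃ k, S k) = S 0 ∪ (S 1 ∪ S 2) := by
    ext x
    simp only [Set.mem_iUnion, Fin.exists_fin_succ, Set.mem_union]
    simp
  rw [h1, Fin.sum_univ_three]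
  have h2 := Set.ncard_union_le (S 0) (S 1 ∪ S 2)
  have h3 := Set.ncard_union_le (S 1) (S 2)
  omega

theorem tail_le (H : Coord2 Adj φ R) (G : Geo Adj φ Q ρ c) (n : ℕ) (s : ℤ) :
    ({f | f ∈ walks Adj n ∧ ∃ i, s ≤ Q (f i)}.ncard : ℝ) ≤
      6 * TT n * {f | f ∈ walks Adj n ∧ s ≤ 8 * Q (f (Fin.last n))}.ncard := by
  obtain ⟨K, hK0, hK1, hK2⟩ := exists_K c s G.cpos
  have hfin : ∀ P : (Fin (n + 1) → ℤ × ℤ) → Prop, {f | f ∈ walks Adj n ∧ P f}.Finite := fun P =>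
    (walks_finite H n).subset fun f hf => hf.1
  have h1 : {f | f ∈ walks Adj n ∧ ∃ i, s ≤ Q (f i)} ⊆
      ⋃ k : Fin 3, {f | f ∈ walks Adj n ∧ ∃ i, K ≤ |(φ (ρ^[k] (f i))).1|} := by
    rintro f ⟨hf, i, hi⟩
    obtain ⟨k, hk⟩ := G.up (f i)
    rw [Set.mem_iUnion]
    exact ⟨k, hf, i, hK2 _ (by linarith)⟩
  have h2 : ∀ k : Fin 3, {f | f ∈ walks Adj n ∧ ∃ i, K ≤ |(φ (ρ^[k] (f i))).1|}.ncard ≤
      {f | f ∈ walks Adj n ∧ ∃ i, K ≤ |(φ (f i)).1|}.ncard := by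
    intro k
    refine Set.ncard_le_ncard_of_injOn (fun f i => ρ^[k] (f i)) ?_ ?_ (hfin _)
    · rintro f ⟨hf, i, hi⟩
      exact ⟨rot_walks G k n hf, i, hi⟩
    · intro f _ g _ hfg
      funext i
      exact (G.rinj.iterate k) (congrFun hfg i)
  have h3 : {f | f ∈ walks Adj n ∧ ∃ i, s ≤ Q (f i)}.ncard ≤
      3 * {f | f ∈ walks Adj n ∧ ∃ i, K ≤ |(φ (f i)).1|}.ncard := by
    have h4 := Set.ncard_le_ncard h1 (Set.finite_iUnion fun k => hfin _)
    have h5 : (⋃ k : Fin 3, {f | f ∈ walks Adj n ∧ ∃ i, K ≤ |(φ (ρ^[k] (f i))).1|}).ncard ≤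
        ∑ k : Fin 3, {f | f ∈ walks Adj n ∧ ∃ i, K ≤ |(φ (ρ^[k] (f i))).1|}.ncard :=
      iUnion3 _
    have h6 : ∑ k : Fin 3, {f | f ∈ walks Adj n ∧ ∃ i, K ≤ |(φ (ρ^[k] (f i))).1|}.ncard ≤
        ∑ k : Fin 3, {f | f ∈ walks Adj n ∧ ∃ i, K ≤ |(φ (f i)).1|}.ncard :=
      Finset.sum_le_sum fun k _ => h2 k
    rw [Finset.sum_const, Finset.card_univ, Fintype.card_fin, smul_eq_mul] at h6
    omega
  have h4 : {f | f ∈ walks Adj n ∧ K ≤ 2 * (φ (f (Fin.last n))).1}.ncard ≤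
      {f | f ∈ walks Adj n ∧ s ≤ 8 * Q (f (Fin.last n))}.ncard := by
    refine Set.ncard_le_ncard ?_ (hfin _)
    rintro f ⟨hf, h⟩
    refine ⟨hf, ?_⟩
    have h5 := G.low (f (Fin.last n))
    have h6 : K ^ 2 ≤ (2 * (φ (f (Fin.last n))).1) ^ 2 := by
      apply pow_le_pow_left₀ hK0 h
    have h7 : c * K ^ 2 ≤ c * (2 * (φ (f (Fin.last n))).1) ^ 2 :=
      mul_le_mul_of_nonneg_left h6 G.cpos.le
    nlinarith
  have h5 := hiA_walks H K n
  have hT : 0 ≤ TT n := by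
    unfold TT
    have := Real.log_natCast_nonneg n
    positivity
  calc ({f | f ∈ walks Adj n ∧ ∃ i, s ≤ Q (f i)}.ncard : ℝ)
      ≤ 3 * {f | f ∈ walks Adj n ∧ ∃ i, K ≤ |(φ (f i)).1|}.ncard := by exact_mod_cast h3
    _ ≤ 3 * (2 * TT n * {f | f ∈ walks Adj n ∧ K ≤ 2 * (φ (f (Fin.last n))).1}.ncard) := by
        gcongr
    _ ≤ 3 * (2 * TT n * {f | f ∈ walks Adj n ∧ s ≤ 8 * Q (f (Fin.last n))}.ncard) := by
        gcongr
    _ = _ := by ring

end H982
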