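import Pool.Agent.H982R3.Walk2

/-!
The three lattices in axial coordinates with their quadratic forms and rotations.
-/

set_option linter.unusedSectionVars false

namespace H982P

open H982

/-- quadratic form of the square lattice -/
def Qs (p : ℤ × ℤ) : ℤ := p.1 ^ 2 + p.2 ^ 2
/-- quadratic form of the triangular lattice -/
def Qt (p : ℤ × ℤ) : ℤ := p.1 ^ 2 + p.1 * p.2 + p.2 ^ 2

/-- adjacency, square lattice -/
def As (p q : ℤ × ℤ) : Prop := Qs (q - p) = 1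
/-- adjacency, triangular lattice -/
def At (p q : ℤ × ℤ) : Prop := Qt (q - p) = 1
/-- adjacency, hexagonal lattice -/
def Ah (p q : ℤ × ℤ) : Prop := Qt (q - p) = 1 ∧ (p.1 - p.2) % 3 ≠ 2 ∧ (q.1 - q.2) % 3 ≠ 2

lemma Qs_one {a b : ℤ} (h : Qs (a, b) = 1) :
    (a = 1 ∧ b = 0) ∨ (a = -1 ∧ b = 0) ∨ (a = 0 ∧ b = 1) ∨ (a = 0 ∧ b = -1) := by
  unfold Qs at h
  simp only at h
  have h1 : a ≤ 1 := by nlinarith [sq_nonneg b]
  have h2 : -1 ≤ a := by nlinarith [sq_nonneg b]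
  have h3 : b ≤ 1 := by nlinarith [sq_nonneg a]
  have h4 : -1 ≤ b := by nlinarith [sq_nonneg a]
  interval_cases a <;> interval_cases b <;> simp_all

lemma Qt_one {a b : ℤ} (h : Qt (a, b) = 1) :
    (a = 1 ∧ b = 0) ∨ (a = -1 ∧ b = 0) ∨ (a = 0 ∧ b = 1) ∨ (a = 0 ∧ b = -1) ∨
    (a = 1 ∧ b = -1) ∨ (a = -1 ∧ b = 1) := by
  unfold Qt at h
  simp only at h
  have h1 : a ≤ 1 := by nlinarith [sq_nonneg (a + 2 * b)]
  have h2 : -1 ≤ a := by nlinarith [sq_nonneg (a + 2 * b)]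
  have h3 : b ≤ 1 := by nlinarith [sq_nonneg (b + 2 * a)]
  have h4 : -1 ≤ b := by nlinarith [sq_nonneg (b + 2 * a)]
  interval_cases a <;> interval_cases b <;> simp_all

theorem coord2_sq : @Coord2 sqL As id (fun _ _ => True) := by
  let _ : H982.Lat := sqL
  have hs : (sgm : ℤ) = 1 := rfl
  have yE : St.E.y = 0 := rfl
  have yW : St.W.y = 0 := rfl
  have yN : St.N.y = 1 := rfl
  have yS : St.S.y = -1 := rfl
  refine ⟨fun _ _ _ _ _ _ h => h, rfl, trivial, fun _ _ _ _ _ => trivial, ?_, ?_⟩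
  · rintro i ⟨p1, p2⟩ ⟨q1, q2⟩ - h
    unfold As at h
    rw [Prod.mk_sub_mk] at h
    simp only [id, hs, one_pow, one_mul]
    rcases Qs_one h with h3 | h3 | h3 | h3
    · exact ⟨.E, trivial, by rw [St.x_E]; omega, by rw [yE]; omega⟩
    · exact ⟨.W, trivial, by rw [St.x_W]; omega, by rw [yW]; omega⟩
    · exact ⟨.N, trivial, by rw [St.x_N]; omega, by rw [yN]; omega⟩
    · exact ⟨.S, trivial, by rw [St.x_S]; omega, by rw [yS]; omega⟩
  · rintro i ⟨p1, p2⟩ s - hok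
    simp only [id, hs, one_pow, one_mul]
    refine ⟨(p1 + s.x, p2 + s.y), ?_, rfl, rfl⟩
    unfold As Qs
    cases s
    · rw [St.x_E, yE]; simp
    · exact absurd hok (fun h => h)
    · rw [St.x_W, yW]; simp
    · exact absurd hok (fun h => h)
    · rw [St.x_N, yN]; simp
    · rw [St.x_S, yS]; simp

theorem coord2_tri : @Coord2 triL At (fun p => (p.1 + p.2, p.1 - p.2)) (fun _ _ => True) := by
  let _ : H982.Lat := triL
  have hs : (sgm : ℤ) = 1 := rfl
  have yE : St.E.y = 1 := rfl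
  have yF : St.F.y = -1 := rfl
  have yW : St.W.y = 1 := rfl
  have yX : St.X.y = -1 := rfl
  have yN : St.N.y = 2 := rfl
  have yS : St.S.y = -2 := rfl
  refine ⟨?_, rfl, trivial, fun _ _ _ _ _ => trivial, ?_, ?_⟩
  · rintro _ _ ⟨p1, p2⟩ ⟨q1, q2⟩ - - h
    simp only [Prod.mk.injEq] at h ⊢
    omega
  · rintro i ⟨p1, p2⟩ ⟨q1, q2⟩ - h
    unfold At at h
    rw [Prod.mk_sub_mk] at h
    simp only [hs, one_pow, one_mul]
    rcases Qt_one h with h | h | h | h | h | h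
    · exact ⟨.E, trivial, by rw [St.x_E]; omega, by rw [yE]; omega⟩
    · exact ⟨.X, trivial, by rw [St.x_X]; omega, by rw [yX]; omega⟩
    · exact ⟨.F, trivial, by rw [St.x_F]; omega, by rw [yF]; omega⟩
    · exact ⟨.W, trivial, by rw [St.x_W]; omega, by rw [yW]; omega⟩
    · exact ⟨.N, trivial, by rw [St.x_N]; omega, by rw [yN]; omega⟩
    · exact ⟨.S, trivial, by rw [St.x_S]; omega, by rw [yS]; omega⟩
  · rintro i ⟨p1, p2⟩ s - -
    unfold At Qt
    simp only [hs, one_pow, one_mul]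
    cases s
    · exact ⟨(p1 + 1, p2), by simp, by rw [St.x_E]; simp only; ring, by rw [yE]; simp only; ring⟩
    · exact ⟨(p1, p2 + 1), by simp, by rw [St.x_F]; simp only; ring, by rw [yF]; simp only; ring⟩
    · exact ⟨(p1, p2 - 1), by simp, by rw [St.x_W]; simp only; ring, by rw [yW]; simp only; ring⟩
    · exact ⟨(p1 - 1, p2), by simp, by rw [St.x_X]; simp only; ring, by rw [yX]; simp only; ring⟩
    · exact ⟨(p1 + 1, p2 - 1), by simp, by rw [St.x_N]; simp only; ring,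
        by rw [yN]; simp only; ring⟩
    · exact ⟨(p1 - 1, p2 + 1), by simp, by rw [St.x_S]; simp only; ring,
        by rw [yS]; simp only; ring⟩

theorem coord2_hex : @Coord2 hexL Ah (fun p => (p.1 + p.2, -((p.1 - p.2) / 3)))
    (fun i p => (p.1 - p.2) % 3 = i % 2) := by
  let _ : H982.Lat := hexL
  have hs : (sgm : ℤ) = -1 := rfl
  have yE : St.E.y = 0 := rfl
  have yW : St.W.y = 0 := rfl
  have yN : St.N.y = 1 := rfl
  have hpow : ∀ i : ℕ, ((-1 : ℤ) ^ i = 1 ∧ (i : ℤ) % 2 = 0) ∨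
      ((-1 : ℤ) ^ i = -1 ∧ (i : ℤ) % 2 = 1) := by
    intro i
    rcases Nat.even_or_odd i with h | h
    · left
      refine ⟨h.neg_one_pow, ?_⟩
      obtain ⟨k, hk⟩ := h
      omega
    · right
      refine ⟨h.neg_one_pow, ?_⟩
      obtain ⟨k, hk⟩ := h
      omega
  refine ⟨?_, rfl, by simp, ?_, ?_, ?_⟩
  · rintro i k ⟨p1, p2⟩ ⟨q1, q2⟩ hp hq h
    simp only [Prod.mk.injEq] at h hp hq ⊢
    omega
  · rintro i ⟨p1, p2⟩ ⟨q1, q2⟩ hR ⟨h, h1, h2⟩
    rw [Prod.mk_sub_mk] at h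
    simp only at hR h1 h2 ⊢
    push_cast
    rcases Qt_one h with h | h | h | h | h | h <;> omega
  · rintro i ⟨p1, p2⟩ ⟨q1, q2⟩ hR ⟨h, h1, h2⟩
    rw [Prod.mk_sub_mk] at h
    simp only at hR h1 h2 ⊢
    rw [hs]
    rcases hpow i with ⟨h3, h4⟩ | ⟨h3, h4⟩
    · rw [h3]
      rcases Qt_one h with h | h | h | h | h | h
      · exact ⟨.E, trivial, by rw [St.x_E]; omega, by rw [yE]; omega⟩
      · omega
      · omega
      · exact ⟨.W, trivial, by rw [St.x_W]; omega, by rw [yW]; omega⟩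
      · omega
      · exact ⟨.N, trivial, by rw [St.x_N]; omega, by rw [yN]; omega⟩
    · rw [h3]
      rcases Qt_one h with h | h | h | h | h | h
      · omega
      · exact ⟨.W, trivial, by rw [St.x_W]; omega, by rw [yW]; omega⟩
      · exact ⟨.E, trivial, by rw [St.x_E]; omega, by rw [yE]; omega⟩
      · omega
      · exact ⟨.N, trivial, by rw [St.x_N]; omega, by rw [yN]; omega⟩
      · omega
  · rintro i ⟨p1, p2⟩ s hR hok
    simp only at hR
    unfold Ah Qt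
    simp only [hs]
    rcases hpow i with ⟨h3, h4⟩ | ⟨h3, h4⟩
    · rw [h3]
      cases s
      · refine ⟨(p1 + 1, p2), ⟨by simp, by omega, by simp only; omega⟩, ?_, ?_⟩
        · rw [St.x_E]; simp only; ring
        · rw [yE]; simp only; omega
      · exact absurd hok (fun h => h)
      · refine ⟨(p1, p2 - 1), ⟨by simp, by omega, by simp only; omega⟩, ?_, ?_⟩
        · rw [St.x_W]; simp only; ring
        · rw [yW]; simp only; omega
      · exact absurd hok (fun h => h)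
      · refine ⟨(p1 - 1, p2 + 1), ⟨by simp, by omega, by simp only; omega⟩, ?_, ?_⟩
        · rw [St.x_N]; simp only; ring
        · rw [yN]; simp only; omega
      · exact absurd hok (fun h => h)
    · rw [h3]
      cases s
      · refine ⟨(p1, p2 + 1), ⟨by simp, by omega, by simp only; omega⟩, ?_, ?_⟩
        · rw [St.x_E]; simp only; ring
        · rw [yE]; simp only; omega
      · exact absurd hok (fun h => h)
      · refine ⟨(p1 - 1, p2), ⟨by simp, by omega, by simp only; omega⟩, ?_, ?_⟩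
        · rw [St.x_W]; simp only; ring
        · rw [yW]; simp only; omega
      · exact absurd hok (fun h => h)
      · refine ⟨(p1 + 1, p2 - 1), ⟨by simp, by omega, by simp only; omega⟩, ?_, ?_⟩
        · rw [St.x_N]; simp only; ring
        · rw [yN]; simp only; omega
      · exact absurd hok (fun h => h)

theorem geo_sq : Geo As id Qs (fun p => (-p.2, p.1)) 4 := by
  refine ⟨?_, rfl, ?_, by norm_num, ?_, ?_⟩
  · rintro ⟨p1, p2⟩ ⟨q1, q2⟩ h
    simp only [Prod.mk.injEq] at h ⊢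
    omega
  · rintro ⟨p1, p2⟩ ⟨q1, q2⟩ h
    unfold As Qs at *
    rw [Prod.mk_sub_mk] at *
    simp only at *
    nlinarith
  · rintro ⟨p1, p2⟩
    unfold Qs
    simp only [id]
    rcases le_total (p1 ^ 2) (p2 ^ 2) with h | h
    · refine ⟨1, ?_⟩
      have : (fun p : ℤ × ℤ => (-p.2, p.1))^[((1 : Fin 3) : ℕ)] (p1, p2) = (-p2, p1) := rfl
      rw [this]
      simp only
      nlinarith
    · refine ⟨0, ?_⟩
      have : (fun p : ℤ × ℤ => (-p.2, p.1))^[((0 : Fin 3) : ℕ)] (p1, p2) = (p1, p2) := rfl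
      rw [this]
      simp only
      nlinarith
  · rintro ⟨p1, p2⟩
    unfold Qs
    simp only [id]
    nlinarith [sq_nonneg p2]

lemma geo_up (p : ℤ × ℤ) (φ : ℤ × ℤ → ℤ × ℤ) (hφ : ∀ q, (φ q).1 = q.1 + q.2) :
    ∃ k : Fin 3, 2 * Qt p ≤ 3 * (φ ((fun p : ℤ × ℤ => (-p.1 - p.2, p.1))^[k] p)).1 ^ 2 := by
  obtain ⟨p1, p2⟩ := p
  have h0 : (fun p : ℤ × ℤ => (-p.1 - p.2, p.1))^[((0 : Fin 3) : ℕ)] (p1, p2) = (p1, p2) := rfl
  have h1 : (fun p : ℤ × ℤ => (-p.1 - p.2, p.1))^[((1 : Fin 3) : ℕ)] (p1, p2) =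
    (-p1 - p2, p1) := rfl
  have h2 : (fun p : ℤ × ℤ => (-p.1 - p.2, p.1))^[((2 : Fin 3) : ℕ)] (p1, p2) =
    (-(-p1 - p2) - p1, -p1 - p2) := rfl
  by_contra hcon
  push Not at hcon
  have a0 := hcon 0
  have a1 := hcon 1
  have a2 := hcon 2
  rw [h0, hφ] at a0
  rw [h1, hφ] at a1
  rw [h2, hφ] at a2
  unfold Qt at a0 a1 a2
  simp only at a0 a1 a2
  nlinarith

theorem geo_tri : Geo At (fun p => (p.1 + p.2, p.1 - p.2)) Qt (fun p => (-p.1 - p.2, p.1)) 3 := by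
  refine ⟨?_, rfl, ?_, by norm_num,
    fun p => geo_up p (fun p => (p.1 + p.2, p.1 - p.2)) fun _ => rfl, ?_⟩
  · rintro ⟨p1, p2⟩ ⟨q1, q2⟩ h
    simp only [Prod.mk.injEq] at h ⊢
    omega
  · rintro ⟨p1, p2⟩ ⟨q1, q2⟩ h
    unfold At Qt at *
    rw [Prod.mk_sub_mk] at *
    simp only at *
    nlinarith
  · rintro ⟨p1, p2⟩
    unfold Qt
    simp only
    nlinarith [sq_nonneg (p1 - p2)]

theorem geo_hex : Geo Ah (fun p => (p.1 + p.2, -((p.1 - p.2) / 3))) Qt
    (fun p => (-p.1 - p.2, p.1)) 3 := by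
  refine ⟨?_, rfl, ?_, by norm_num,
    fun p => geo_up p (fun p => (p.1 + p.2, -((p.1 - p.2) / 3))) fun _ => rfl, ?_⟩
  · rintro ⟨p1, p2⟩ ⟨q1, q2⟩ h
    simp only [Prod.mk.injEq] at h ⊢
    omega
  · rintro ⟨p1, p2⟩ ⟨q1, q2⟩ ⟨h, h1, h2⟩
    unfold Ah Qt at *
    rw [Prod.mk_sub_mk] at *
    simp only at *
    refine ⟨by nlinarith, by omega, by omega⟩
  · rintro ⟨p1, p2⟩
    unfold Qt
    simp only
    nlinarith [sq_nonneg (p1 - p2)]

lemma TT_le {n : ℕ} (hn : 2 ≤ n) : TT n ≤ 200000 * Real.log n ^ 4 := by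
  have hn' : (2 : ℝ) ≤ n := by exact_mod_cast hn
  have hl2 : (0.6931471803 : ℝ) < Real.log 2 := Real.log_two_gt_d9
  have hlog : Real.log 2 ≤ Real.log n := Real.log_le_log (by norm_num) hn'
  set l := Real.log n with hl
  have hl0 : 0.69 ≤ l := by linarith
  have h1 : (Nat.log 2 (2 * n) : ℝ) + 2 ≤ 6 * l := by
    have h2 : (Nat.log 2 (2 * n) : ℝ) * Real.log 2 ≤ Real.log (2 * n) := by
      rw [← Real.log_pow]
      apply Real.log_le_log (by positivity)
      have := Nat.pow_log_le_self 2 (x := 2 * n) (by omega)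
      exact_mod_cast this
    rw [Real.log_mul (by norm_num) (by positivity)] at h2
    have h3 : 0 ≤ (Nat.log 2 (2 * n) : ℝ) := Nat.cast_nonneg _
    nlinarith
  have h2 : 1 + 3 * l ≤ 5 * l := by linarith
  have h3 : (2 : ℝ) ≤ 9 * l ^ 4 := by
    have : (0.69 : ℝ) ^ 4 ≤ l ^ 4 := by gcongr
    nlinarith
  unfold TT
  have h4 : ((Nat.log 2 (2 * n) : ℝ) + 2) ^ 3 ≤ (6 * l) ^ 3 := by
    apply pow_le_pow_left₀ (by positivity) h1
  calc 2 + 160 * ((Nat.log 2 (2 * n) : ℝ) + 2) ^ 3 * (1 + 3 * l)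
      ≤ 9 * l ^ 4 + 160 * (6 * l) ^ 3 * (5 * l) := by
        gcongr
    _ = (9 + 172800) * l ^ 4 := by ring
    _ ≤ 200000 * l ^ 4 := by
        have : 0 ≤ l ^ 4 := by positivity
        nlinarith

end H982P
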